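import Mathlib

-- part Pool.Agent.P.MP_ac2766_co.SmA
section

open Finset
namespace Pool.Agent.P.MP_ac2766_co.Sm

/-- `K` is a finite sum of products `e p * e p'`, so a Gram kernel. -/
def IsG {V : Type} (K : V → V → ℝ) : Prop :=
  ∃ l : List (V → ℝ), ∀ p p', K p p' = (l.map fun e => e p * e p').sum

section G
variable {V W : Type}

theorem IsG.one (e : V → ℝ) {s : ℝ} (hs : 0 ≤ s) : IsG fun p p' => s * (e p * e p') :=
  ⟨[fun p => √s * e p], fun p p' => by
    simp only [List.map_cons, List.map_nil, List.sum_cons, List.sum_nil, add_zero]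
    have := Real.mul_self_sqrt hs
    linear_combination (-(e p * e p')) * this⟩

theorem IsG.add {K L : V → V → ℝ} (hK : IsG K) (hL : IsG L) :
    IsG fun p p' => K p p' + L p p' := by
  obtain ⟨l, hl⟩ := hK
  obtain ⟨m, hm⟩ := hL
  exact ⟨l ++ m, fun p p' => by simp [hl, hm]⟩

theorem IsG.sum {ι : Type} (s : Finset ι) {K : ι → V → V → ℝ} (h : ∀ i, IsG (K i)) :
    IsG fun p p' => ∑ i ∈ s, K i p p' := by
  classical
  induction s using Finset.induction_on with
  | empty => exact ⟨[], fun p p' => by simp⟩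
  | insert a s ha ih =>
    simp only [sum_insert ha]
    exact (h a).add ih

theorem IsG.pull {K : W → W → ℝ} (hK : IsG K) (π : V → W) (e : V → ℝ) :
    IsG fun p p' => e p * e p' * K (π p) (π p') := by
  obtain ⟨l, hl⟩ := hK
  refine ⟨l.map fun f p => e p * f (π p), fun p p' => ?_⟩
  beta_reduce
  rw [hl, List.map_map, ← List.sum_map_mul_left]
  congr 1
  refine List.map_congr_left fun f _ => ?_
  simp only [Function.comp]
  ring

theorem IsG.of_eq {K L : V → V → ℝ} (hK : IsG K) (h : ∀ p p', L p p' = K p p') : IsG L := by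
  obtain ⟨l, hl⟩ := hK
  exact ⟨l, fun p p' => (h p p').trans (hl p p')⟩

theorem IsG.vec {K : V → V → ℝ} (hK : IsG K) :
    ∃ (d : ℕ) (v : V → EuclideanSpace ℝ (Fin d)), ∀ p p', inner ℝ (v p) (v p') = K p p' := by
  obtain ⟨l, hl⟩ := hK
  refine ⟨l.length, fun p => WithLp.toLp 2 fun i => l[i.1] p, fun p p' => ?_⟩
  rw [hl, ← Fin.sum_univ_fun_getElem l fun e => e p * e p']
  simp only [PiLp.inner_apply, RCLike.inner_apply, conj_trivial]
  exact sum_congr rfl fun i _ => mul_comm _ _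

theorem IsG.total [Fintype V] {K : V → V → ℝ} (hK : IsG K) : 0 ≤ ∑ p, ∑ p', K p p' := by
  obtain ⟨d, v, hv⟩ := hK.vec
  simp only [← hv, ← inner_sum, ← sum_inner]
  exact real_inner_self_nonneg

/-- Fourier lift along the fibres. -/
theorem IsG.lift {U H Ξ : Type} [DecidableEq U] [DecidableEq H] [Fintype Ξ] (χ : Ξ → H → ℝ)
    {Q m : ℝ} (hχ : ∀ h h', ∑ ξ, χ ξ h * χ ξ h' = if h = h' then Q else 0)
    (k : Ξ → U → U → ℝ) (hk : ∀ ξ, IsG fun u u' => k ξ u u' + if u = u' then m else 0) :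
    IsG fun p p' : U × H => ∑ ξ, χ ξ p.2 * χ ξ p'.2 * k ξ p.1 p'.1 +
      if p = p' then m * Q else 0 := by
  refine (IsG.sum univ fun ξ => (hk ξ).pull Prod.fst fun p => χ ξ p.2).of_eq fun p p' => ?_
  simp only [mul_add, sum_add_distrib, ← sum_mul, hχ, Prod.ext_iff]
  by_cases h1 : p.1 = p'.1 <;> by_cases h2 : p.2 = p'.2 <;> simp [h1, h2, mul_comm]

/-- A system of unit vectors, as a kernel. -/
def Good (k : ℕ) (V : Type) [Fintype V] (s : ℝ) : Prop :=
  ∃ K : V → V → ℝ, IsG K ∧ (∀ p, K p p = 1) ∧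
    (∀ I : Finset V, I.card = k → ∃ i ∈ I, ∃ j ∈ I, i ≠ j ∧ K i j = 0) ∧ s ≤ ∑ p, ∑ p', K p p'

theorem Good.of_ker [Fintype V] [DecidableEq V] {k : ℕ} {A : V → V → ℝ} {c : ℝ} (hc : 0 < c)
    (hA : IsG fun p p' => A p p' + if p = p' then c else 0) (hd : ∀ p, A p p + 1 = 0)
    (hk : ∀ f : Fin k → V, Function.Injective f → ∃ i j, i ≠ j ∧ A (f i) (f j) + 1 = 0) :
    Good k V ((Fintype.card V : ℝ) ^ 2 / c) := by
  have h1 := (hA.add (IsG.one (fun _ => 1) zero_le_one)).pull id fun _ => √c⁻¹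
  have hs : √c⁻¹ * √c⁻¹ = c⁻¹ := Real.mul_self_sqrt (by positivity)
  refine ⟨_, h1, fun p => ?_, fun I hI => ?_, ?_⟩
  · simp only [hs, id, if_true]
    have := hd p
    field_simp
    linarith
  · obtain ⟨i, j, hij, h⟩ := hk (fun i => (I.equivFinOfCardEq hI).symm i)
      (Subtype.val_injective.comp (I.equivFinOfCardEq hI).symm.injective)
    have hne : ((I.equivFinOfCardEq hI).symm i : V) ≠ (I.equivFinOfCardEq hI).symm j := fun e =>
      hij ((I.equivFinOfCardEq hI).symm.injective (Subtype.ext e))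
    refine ⟨_, Subtype.property _, _, Subtype.property _, hne, ?_⟩
    simp only [id, if_neg hne]
    rw [add_zero, mul_one, mul_one, h, mul_zero]
  · have h0 := hA.total
    simp only [hs, id, ← mul_sum, mul_one]
    rw [sum_congr rfl fun p _ => sum_add_distrib, sum_add_distrib]
    simp only [sum_const, card_univ, nsmul_eq_mul, mul_one]
    rw [div_eq_inv_mul, sq]
    exact mul_le_mul_of_nonneg_left (by linarith) (by positivity)

theorem Good.pad [Fintype V] {k : ℕ} {s : ℝ} (h : Good k V s) (hk : 2 ≤ k) (m : ℕ) :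
    Good k (V ⊕ Fin m) s := by
  classical
  obtain ⟨K, ⟨l, hl⟩, h1, h2, h3⟩ := h
  let K' : V ⊕ Fin m → V ⊕ Fin m → ℝ := fun p p' =>
    Sum.elim (fun a => Sum.elim (K a) (fun _ => 0) p') (fun _ => 0) p
  have g1 : IsG K' := by
    refine ⟨l.map fun e => Sum.elim e fun _ => 0, fun p p' => ?_⟩
    rw [List.map_map]
    rcases p with a | a <;> rcases p' with b | b <;> simp [K', hl, Function.comp_def]
  have g2 := IsG.sum univ fun j : Fin m =>
    IsG.one (fun p : V ⊕ Fin m => if p = Sum.inr j then (1 : ℝ) else 0) zero_le_one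
  refine ⟨_, g1.add g2, fun p => ?_, fun I hI => ?_, ?_⟩
  · rcases p with a | a <;> simp [K', h1]
  · by_cases hI' : ∃ j, Sum.inr j ∈ I
    · obtain ⟨j, hj⟩ := hI'
      obtain ⟨i, hi, hij⟩ := exists_mem_ne (show 1 < I.card by omega) (Sum.inr j)
      refine ⟨i, hi, _, hj, hij, ?_⟩
      rcases i with a | a
      · simp [K']
      · have : a ≠ j := fun e => hij (by rw [e])
        simp [K', this]
    · have e : I = I.toLeft.map Function.Embedding.inl := by
        ext p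
        rcases p with a | a
        · simp
        · simpa using fun hh => hI' ⟨a, hh⟩
      obtain ⟨i, hi, j, hj, hij, h0⟩ := h2 I.toLeft (by rw [← hI]; conv_rhs => rw [e, card_map])
      exact ⟨Sum.inl i, by simpa using hi, Sum.inl j, by simpa using hj, by simpa using hij,
        by simp [K', h0]⟩
  · have := g2.total
    rw [sum_congr rfl fun p _ => sum_add_distrib, sum_add_distrib]
    have e : ∑ p, ∑ p', K' p p' = ∑ p, ∑ p', K p p' := by simp [K', Fintype.sum_sum_type]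
    linarith

theorem Good.out [Fintype V] {k n : ℕ} {s b : ℝ} (h : Good k V s) (hk : 2 ≤ k)
    (hn : Fintype.card V ≤ n) (hb : b ^ 2 ≤ s) :
    ∃ (d : ℕ) (v : Fin n → EuclideanSpace ℝ (Fin d)), (∀ i, ‖v i‖ = 1) ∧
      (∀ I : Finset (Fin n), I.card = k → ∃ i ∈ I, ∃ j ∈ I, i ≠ j ∧ inner ℝ (v i) (v j) = 0) ∧
      b ≤ ‖∑ i, v i‖ := by
  classical
  obtain ⟨K, g, h1, h2, h3⟩ := h.pad hk (n - Fintype.card V)
  obtain ⟨d, v, hv⟩ := g.vec
  let e : V ⊕ Fin (n - Fintype.card V) ≃ Fin n := Fintype.equivFinOfCardEq (by simp; omega)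
  refine ⟨d, fun i => v (e.symm i), fun i => ?_, fun I hI => ?_, ?_⟩
  · have := hv (e.symm i) (e.symm i)
    rw [h1, real_inner_self_eq_norm_sq] at this
    exact (pow_eq_one_iff_of_nonneg (norm_nonneg _) two_ne_zero).1 this
  · obtain ⟨i, hi, j, hj, hij, h0⟩ := h2 (I.map e.symm.toEmbedding) (by rw [card_map, hI])
    refine ⟨e i, by simpa using hi, e j, by simpa using hj, e.injective.ne hij, ?_⟩
    simp only [Equiv.symm_apply_apply, hv, h0]
  · rw [e.symm.sum_comp v]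
    refine abs_le_of_sq_le_sq' ?_ (norm_nonneg _) |>.2
    rw [← real_inner_self_eq_norm_sq, sum_inner]
    simp only [inner_sum, hv]
    linarith

end G

section F
variable {F : Type} [Field F]

theorem fac {ι κ : Type} [Fintype ι] [Fintype κ] (r : κ → ι → F) (z : ι → F)
    (h : ∀ a : ι → F, (∀ j, ∑ i, a i * r j i = 0) → ∑ i, a i * z i = 0) :
    ∃ c : κ → F, ∀ i, z i = ∑ j, c j * r j i := by
  classical
  let T : (ι → F) → (ι → F) →ₗ[F] F := fun y => Fintype.linearCombination F y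
  have hT : ∀ y a, T y a = ∑ i, a i * y i := fun y a => by
    simp [T, Fintype.linearCombination_apply]
  have := mem_span_of_iInf_ker_le_ker (L := fun j => T (r j)) (K := T z) fun a ha => by
    simp only [Submodule.mem_iInf, LinearMap.mem_ker, hT] at ha ⊢
    exact h a ha
  obtain ⟨c, hc⟩ := (Submodule.mem_span_range_iff_exists_fun F).1 this
  refine ⟨c, fun i => ?_⟩
  have := LinearMap.congr_fun hc (Pi.single i 1)
  simp only [LinearMap.sum_apply, LinearMap.smul_apply, hT, Pi.single_apply, ite_mul, one_mul,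
    zero_mul, sum_ite_eq', mem_univ, if_true, smul_eq_mul] at this
  exact this.symm

open Polynomial in
theorem roots_le [DecidableEq F] (P : F[X]) (hP : P ≠ 0) {r : ℕ} (hr : P.natDegree ≤ r)
    (s : Finset F) (hs : ∀ x ∈ s, P.eval x = 0) : s.card ≤ r := by
  refine le_trans (card_le_card (t := P.roots.toFinset) fun x hx => ?_)
    ((Multiset.toFinset_card_le _).trans ((card_roots' P).trans hr))
  simp [hP, hs x hx]

open Polynomial in
theorem count_le [DecidableEq F] {k r : ℕ} (t : Fin k → F) (P : F[X]) (hP : P ≠ 0)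
    (hr : P.natDegree ≤ r) (ht : ∀ i, P.eval (t i) = 0) (a : F)
    (h1 : ∀ i j, t i ≠ a → t i = t j → i = j)
    (h2 : ∀ i j l, t i = t j → t i = t l → i = j ∨ i = l ∨ j = l) : k ≤ r + 1 := by
  have e := card_filter_add_card_filter_not (s := (univ : Finset (Fin k))) fun i => t i = a
  rw [card_univ, Fintype.card_fin] at e
  have hS : (univ.filter fun i => t i = a).card ≤ 2 := by
    by_contra hh
    obtain ⟨i, hi, j, hj, l, hl, a1, a2, a3⟩ := two_lt_card.1 (not_le.1 hh)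
    simp only [mem_filter, mem_univ, true_and] at hi hj hl
    rcases h2 i j l (hi.trans hj.symm) (hi.trans hl.symm) with h | h | h <;> contradiction
  have hT : ((univ.filter fun i => ¬ t i = a).image t).card =
      (univ.filter fun i => ¬ t i = a).card :=
    card_image_of_injOn fun i hi j _ hij => h1 i j (by simpa using hi) hij
  by_cases h0 : ∃ i, t i = a
  · obtain ⟨i, hi⟩ := h0
    have := roots_le P hP hr (insert a ((univ.filter fun i => ¬ t i = a).image t)) fun x hx => by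
      rcases mem_insert.1 hx with rfl | hx
      · rw [← hi]; exact ht i
      · obtain ⟨j, -, rfl⟩ := mem_image.1 hx
        exact ht j
    rw [card_insert_of_notMem (by simp)] at this
    omega
  · have h3 : (univ.filter fun i => t i = a).card = 0 := by
      simpa using fun i hi => h0 ⟨i, hi⟩
    have := roots_le P hP hr ((univ.filter fun i => ¬ t i = a).image t) fun x hx => by
      obtain ⟨j, -, rfl⟩ := mem_image.1 hx
      exact ht j
    omega

end F

end Pool.Agent.P.MP_ac2766_co.Sm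
end

-- part Pool.Agent.P.MP_ac2766_co.SmB
section

open Finset
namespace Pool.Agent.P.MP_ac2766_co.Sm

variable {F : Type} [Field F]

/-- a sign character of a field of characteristic two, invariant under squaring -/
structure Ch (ψ : F → ℝ) (ν : F) : Prop where
  two : (2 : F) = 0
  add : ∀ a b, ψ (a + b) = ψ a * ψ b
  sq : ∀ a, ψ (a ^ 2) = ψ a
  nu : ψ ν = -1

/-- the anisotropic binary form -/
def Nf (ν a b : F) : F := a ^ 2 + a * b + ν * b ^ 2

theorem exists_ch (e : ℕ) :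
    ∃ (ψ : GaloisField 2 e → ℝ) (ν : GaloisField 2 e), Ch ψ ν := by
  obtain ⟨ν, hν⟩ := Algebra.trace_surjective (ZMod 2) (GaloisField 2 e) 1
  refine ⟨fun x => if Algebra.trace (ZMod 2) (GaloisField 2 e) x = 0 then 1 else -1, ν,
    CharTwo.two_eq_zero, fun a b => ?_, fun a => ?_, by simp [hν]⟩
  · rw [map_add]
    generalize Algebra.trace (ZMod 2) (GaloisField 2 e) a = s
    generalize Algebra.trace (ZMod 2) (GaloisField 2 e) b = t
    have h : ∀ s : ZMod 2, s = 0 ∨ s = 1 := by decide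
    have h1 : (1 : ZMod 2) + 1 = 0 := by decide
    rcases h s with rfl | rfl <;> rcases h t with rfl | rfl <;> simp [h1]
  · have := Algebra.trace_eq_of_algEquiv
      (FiniteField.frobeniusAlgEquivOfAlgebraic (ZMod 2) (GaloisField 2 e)) a
    rw [FiniteField.coe_frobeniusAlgEquivOfAlgebraic, ZMod.card] at this
    simp only [this]

namespace Ch
variable {ψ : F → ℝ} {ν : F}

theorem zero (h : Ch ψ ν) : ψ 0 = 1 := by
  have := h.add ν 0
  rw [add_zero, h.nu] at this
  linarith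

theorem self (h : Ch ψ ν) (a : F) : a + a = 0 := by linear_combination a * h.two

theorem add_eq (h : Ch ψ ν) {a b : F} : a + b = 0 ↔ a = b :=
  ⟨fun e => by linear_combination e - b * h.two, fun e => by rw [e, h.self]⟩

theorem mul_self (h : Ch ψ ν) (a : F) : ψ a * ψ a = 1 := by rw [← h.add, h.self, h.zero]

theorem le_one (h : Ch ψ ν) (a : F) : ψ a ≤ 1 := by nlinarith [h.mul_self a]

theorem kappa (h : Ch ψ ν) (m : F) : m ^ 2 + m + ν ≠ 0 := fun e => by
  have := h.zero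
  rw [← e, h.add, h.add, h.sq, h.mul_self, h.nu] at this
  linarith

theorem aniso (h : Ch ψ ν) {a b : F} (e : Nf ν a b = 0) : a = 0 ∧ b = 0 := by
  unfold Nf at e
  by_cases hb : b = 0
  · subst hb
    exact ⟨by simpa using e, rfl⟩
  · refine (h.kappa (a / b) ?_).elim
    field_simp
    linear_combination e

variable [Fintype F] [DecidableEq F]

theorem sum_mul (h : Ch ψ ν) (a : F) :
    ∑ x, ψ (a * x) = if a = 0 then (Fintype.card F : ℝ) else 0 := by
  split_ifs with ha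
  · simp [ha, h.zero]
  · have e1 : ∑ x, ψ (a * x) = ∑ x, ψ x := Equiv.sum_comp (Equiv.mulLeft₀ a ha) ψ
    have e2 : ∑ x, ψ (x + ν) = ∑ x, ψ x := Equiv.sum_comp (Equiv.addRight ν) ψ
    simp only [h.add, h.nu, mul_neg, mul_one, sum_neg_distrib] at e2
    linarith

theorem sum_pow (h : Ch ψ ν) (j : ℕ) (a : F) :
    ∑ x, ψ (a * x ^ 2 ^ j) = if a = 0 then (Fintype.card F : ℝ) else 0 := by
  induction j with
  | zero => simpa using h.sum_mul a
  | succ j ih =>
    have hb : Function.Bijective fun x : F => x ^ 2 := Finite.injective_iff_bijective.1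
      fun x y e => h.add_eq.1 (pow_eq_zero_iff two_ne_zero |>.1 (by
        linear_combination e + (x * y + y ^ 2) * h.two))
    rw [← ih, ← hb.sum_comp fun x => ψ (a * x ^ 2 ^ j)]
    exact sum_congr rfl fun x _ => by rw [← pow_mul, pow_succ']

open Polynomial in
theorem quad (h : Ch ψ ν) (f : F → F) (P : F[X]) (hP : P ≠ 0) {r : ℕ} (hr : P.natDegree ≤ r)
    (j : ℕ) (hf : ∀ x y, ψ (f (x + y)) * ψ (f x) = ψ (f y) * ψ (P.eval y * x ^ 2 ^ j)) :
    (∑ x, ψ (f x)) ^ 2 ≤ r * Fintype.card F := by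
  have e1 : (∑ x, ψ (f x)) ^ 2 = ∑ x, ∑ y, ψ (f (x + y)) * ψ (f x) := by
    rw [pow_two, mul_sum]
    refine sum_congr rfl fun x _ => ?_
    rw [← Finset.sum_mul]
    congr 1
    exact (Equiv.sum_comp (Equiv.addLeft x) fun y => ψ (f y)).symm
  rw [e1, sum_comm]
  simp only [hf, ← mul_sum, h.sum_pow]
  have h1 := roots_le P hP hr (univ.filter fun y => P.eval y = 0) fun x hx => by simpa using hx
  calc _ ≤ ∑ y : F, if P.eval y = 0 then (Fintype.card F : ℝ) else 0 := by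
        refine sum_le_sum fun y _ => mul_le_of_le_one_left ?_ (h.le_one _)
        split_ifs <;> positivity
    _ = (univ.filter fun y => P.eval y = 0).card * (Fintype.card F : ℝ) := by
        rw [← sum_filter, sum_const, nsmul_eq_mul]
    _ ≤ _ := mul_le_mul_of_nonneg_right (by exact_mod_cast h1) (by positivity)

open Polynomial in
theorem cubic (h : Ch ψ ν) (a b : F) {c : F} (hc : c ≠ 0) :
    -(2 * √(Fintype.card F)) ≤ ∑ x, ψ (a * x + b * x ^ 2 + c * x ^ 3) := by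
  have := h.quad (fun x => a * x + b * x ^ 2 + c * x ^ 3) (C (c ^ 2) * X ^ 4 + C c * X)
    (fun e => hc (by
      have := congrArg (coeff · 1) e
      simp only [coeff_add, coeff_C_mul, coeff_X_pow, coeff_X_one, coeff_zero] at this
      simpa using this)) (r := 4)
    (by compute_degree) 1 fun x y => by
      have e1 : ψ ((C (c ^ 2) * X ^ 4 + C c * X).eval y * x ^ 2 ^ 1) =
          ψ (c * x * y ^ 2 + c * y * x ^ 2) := by
        rw [h.add, ← h.sq (c * x * y ^ 2), ← h.add]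
        congr 1
        simp
        ring
      rw [e1, ← h.add, ← h.add]
      congr 1
      linear_combination (a * x + b * x ^ 2 + b * x * y + c * x ^ 3 + c * x ^ 2 * y +
        c * x * y ^ 2) * h.two
  refine (abs_le_of_sq_le_sq' ?_ (by positivity)).1
  rw [mul_pow, Real.sq_sqrt (by positivity)]
  exact this.trans (le_of_eq (by norm_num))

/-- circulant blocks along lines -/
theorem circ (h : Ch ψ ν) {U : Type} [DecidableEq U] (L S : U → F)
    (hi : ∀ u u', L u = L u' → S u = S u' → u = u') (g : F → F → ℝ) {m : ℝ}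
    (hg : ∀ l b, -m ≤ ∑ x, g l x * ψ (b * x)) :
    IsG fun u u' => (if L u = L u' then g (L u) (S u + S u') else 0) + if u = u' then m else 0 := by
  have hq : (0 : ℝ) < Fintype.card F := by exact_mod_cast Fintype.card_pos
  refine (IsG.sum univ fun l => IsG.sum univ fun b =>
    IsG.one (fun u => if L u = l then ψ (b * S u) else 0)
      (s := (∑ x, g l x * ψ (b * x) + m) / Fintype.card F)
      (div_nonneg (by linarith [hg l b]) hq.le)).of_eq fun u u' => ?_
  rw [sum_eq_single (L u) (fun l _ hl => by simp [hl.symm]) (by simp)]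
  by_cases e : L u = L u'
  · simp only [if_true, if_pos e, if_pos e.symm]
    have e1 : ∀ b, (∑ x, g (L u) x * ψ (b * x) + m) / Fintype.card F * (ψ (b * S u) * ψ (b * S u'))
        = (∑ x, g (L u) x * ψ ((x + (S u + S u')) * b) + m * ψ ((S u + S u') * b)) /
          Fintype.card F := fun b => by
      rw [div_mul_eq_mul_div, add_mul, Finset.sum_mul, ← h.add]
      congr 2
      · refine sum_congr rfl fun x _ => ?_
        rw [mul_assoc, ← h.add]
        congr 2
        ring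
      · congr 2
        ring
    simp only [e1]
    rw [← sum_div, sum_add_distrib, sum_comm]
    simp only [← mul_sum, h.sum_mul, h.add_eq, mul_ite, mul_zero, sum_ite_eq', mem_univ, if_true]
    have e2 : S u = S u' ↔ u = u' := ⟨hi u u' e, fun e => by rw [e]⟩
    simp only [e2]
    split_ifs
    · field_simp
    · field_simp
      simp
  · have : u ≠ u' := fun e' => e (by rw [e'])
    simp [e, this, Ne.symm e]

end Ch

end Pool.Agent.P.MP_ac2766_co.Sm
end

-- part Pool.Agent.P.MP_ac2766_co.HxA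
section

open Finset
namespace Pool.Agent.P.MP_ac2766_co.Hx
open Sm

/-- points and lines both have five coordinates -/
abbrev V (F : Type) := F × F × F × F × F

variable {F : Type} [Field F]

/-- the point with first coordinate `t` on the line `x` -/
def pt (x : V F) (t : F) : V F :=
  (t, x.2.1 + x.1 * t, x.2.2.1 + x.2.1 * t, x.2.2.2.1 + x.2.2.1 * t,
    x.2.2.2.2 + (x.1 * x.2.2.1 + x.2.1 ^ 2) * t)

/-- the quadratic form on differences of points -/
def Q (p z : V F) : F :=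
  (p.2.2.1 + z.2.2.1) ^ 2 + (p.2.2.2.2 + z.2.2.2.2) * (p.1 + z.1) +
    (p.2.2.2.1 + z.2.2.2.1) * (p.2.1 + z.2.1)

theorem slope {x c : V F} {a : F} (h : pt x a = pt c a) (hk : x.1 = c.1) : x = c := by
  obtain ⟨k, m, n, r, s⟩ := x
  obtain ⟨k', m', n', r', s'⟩ := c
  simp only [pt, Prod.mk.injEq, true_and] at h hk
  obtain ⟨h1, h2, h3, h4⟩ := h
  subst hk
  obtain rfl : m = m' := by linear_combination h1
  obtain rfl : n = n' := by linear_combination h2
  obtain rfl : r = r' := by linear_combination h3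
  obtain rfl : s = s' := by linear_combination h4
  rfl

theorem two_pts {x c : V F} {a b : F} (h : pt x a = pt c a) (h' : pt x b = pt c b) (hne : x ≠ c) :
    a = b := by
  by_contra hab
  refine hne (slope h ?_)
  have h1 := congrArg (fun p => p.2.1) h
  have h2 := congrArg (fun p => p.2.1) h'
  simp only [pt] at h1 h2
  exact mul_right_cancel₀ (sub_ne_zero.2 hab) (by linear_combination h1 - h2)

theorem Q_comm (p z : V F) : Q p z = Q z p := by
  simp only [Q]
  ring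

variable [CharP F 2]

theorem path {x c y : V F} {a b : F} (h1 : pt x a = pt c a) (h2 : pt y b = pt c b) (s s' : F) :
    Q (pt x s) (pt y s') = (s + a) * (s' + b) * (a + b) ^ 2 * ((x.1 + c.1) * (y.1 + c.1)) := by
  obtain ⟨k1, m1, n1, r1, s1⟩ := x
  obtain ⟨k2, m2, n2, r2, s2⟩ := c
  obtain ⟨k3, m3, n3, r3, s3⟩ := y
  simp only [pt, Prod.mk.injEq, true_and] at h1 h2
  obtain ⟨a1, a2, a3, a4⟩ := h1
  obtain ⟨b1, b2, b3, b4⟩ := h2
  obtain rfl : m1 = m2 + (k1 + k2) * a := by clear * - a1; grind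
  obtain rfl : n1 = n2 + (k1 + k2) * a ^ 2 := by clear * - a2; grind
  obtain rfl : r1 = r2 + (k1 + k2) * a ^ 3 := by clear * - a3; grind
  obtain rfl : s1 = s2 + (k1 + k2) * a * (n2 + k2 * a ^ 2) := by clear * - a4; grind
  obtain rfl : m3 = m2 + (k3 + k2) * b := by clear * - b1; grind
  obtain rfl : n3 = n2 + (k3 + k2) * b ^ 2 := by clear * - b2; grind
  obtain rfl : r3 = r2 + (k3 + k2) * b ^ 3 := by clear * - b3; grind
  obtain rfl : s3 = s2 + (k3 + k2) * b * (n2 + k2 * b ^ 2) := by clear * - b4; grind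
  clear a1 a2 a3 a4 b1 b2 b3 b4
  simp only [pt, Q]
  grind

theorem dep {ι : Type} [Fintype ι] (hι : 6 < Fintype.card ι) (p : ι → V F) :
    ∃ g : ι → F, (∃ i, g i ≠ 0) ∧ ∀ z, ∑ i, g i * Q (p i) z = 0 := by
  let v : ι → Fin 6 → F := fun i =>
    ![1, Q (p i) 0, (p i).1, (p i).2.1, (p i).2.2.2.1, (p i).2.2.2.2]
  have hv : ¬ LinearIndependent F v := fun h => by
    have := h.fintype_card_le_finrank
    rw [Module.finrank_fin_fun] at this
    omega
  obtain ⟨g, hg, hi⟩ := Fintype.not_linearIndependent_iff.1 hv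
  refine ⟨g, hi, fun z => ?_⟩
  have hj : ∀ j, ∑ i, g i * v i j = 0 := fun j => by
    simpa [Finset.sum_apply] using congrFun hg j
  have e : ∀ i, g i * Q (p i) z = g i * v i 0 * Q z 0 + g i * v i 1 + g i * v i 2 * z.2.2.2.2 +
      g i * v i 3 * z.2.2.2.1 + g i * v i 4 * z.2.1 + g i * v i 5 * z.1 := fun i => by
    simp only [v, Q, Matrix.cons_val, Prod.fst_zero, Prod.snd_zero, add_zero]
    grind
  simp only [e, sum_add_distrib, ← sum_mul, hj, zero_mul, add_zero]

theorem three {e1 e2 e3 a1 a2 a3 : F} (h0 : e1 * a1 + e2 * a2 + e3 * a3 = 0)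
    (h1 : e1 * (1 + a1) + e2 * (1 + a2) + e3 * (1 + a3) = 0) (h : a2 + a3 ≠ 0) :
    ∃ ρ, e1 = ρ * (a2 + a3) ∧ e2 = ρ * (a1 + a3) ∧ e3 = ρ * (a1 + a2) := by
  refine ⟨e1 / (a2 + a3), by field_simp, ?_, ?_⟩
  · field_simp
    grind
  · field_simp
    grind

theorem row {c c' a1 a2 a3 u1 u2 u3 r1 r2 r3 d1 d2 d3 : F} (n1 : u1 ≠ 0) (n2 : u2 ≠ 0)
    (n3 : u3 ≠ 0) (h1 : u1 * (c * a1 + c' * (1 + a1)) = r1 * d1)
    (h2 : u2 * (c * a2 + c' * (1 + a2)) = r2 * d2) (h3 : u3 * (c * a3 + c' * (1 + a3)) = r3 * d3) :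
    (a2 + a3) * d1 / u1 * r1 + (a1 + a3) * d2 / u2 * r2 + (a1 + a2) * d3 / u3 * r3 = 0 := by
  have e1 : (a2 + a3) * d1 / u1 * r1 = (a2 + a3) * (c * a1 + c' * (1 + a1)) := by
    field_simp
    linear_combination (-(a2 + a3)) * h1
  have e2 : (a1 + a3) * d2 / u2 * r2 = (a1 + a3) * (c * a2 + c' * (1 + a2)) := by
    field_simp
    linear_combination (-(a1 + a3)) * h2
  have e3 : (a1 + a2) * d3 / u3 * r3 = (a1 + a2) * (c * a3 + c' * (1 + a3)) := by
    field_simp
    linear_combination (-(a1 + a2)) * h3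
  rw [e1, e2, e3]
  clear * -
  grind

theorem kill {c c' a1 a2 u1 u2 : F} (n1 : u1 ≠ 0) (n2 : u2 ≠ 0) (n : a1 + a2 ≠ 0)
    (h1 : u1 * (c * a1 + c' * (1 + a1)) = 0) (h2 : u2 * (c * a2 + c' * (1 + a2)) = 0) :
    c = 0 ∧ c' = 0 := by
  have e1 := (mul_eq_zero.1 h1).resolve_left n1
  have e2 := (mul_eq_zero.1 h2).resolve_left n2
  have e3 : (a1 + a2) * (c + c') = 0 := by grind
  have e4 := (mul_eq_zero.1 e3).resolve_left n
  have e5 : c' = 0 := by grind
  exact ⟨by grind, e5⟩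

omit [CharP F 2] in
theorem sq_rel {d01 d02 d03 d10 d12 d13 d20 d21 d23 d30 d31 d32 : F}
    {m01 m02 m03 m10 m12 m13 u02 u03 u12 u13 u23 : F} (n01 : m01 * m10 ≠ 0) (n02 : u02 ≠ 0)
    (n03 : u03 ≠ 0) (n12 : u12 ≠ 0) (n13 : u13 ≠ 0) (n23 : u23 ≠ 0)
    (hd : d03 * d02 * d13 * d12 ≠ 0)
    (A1 : u02 * d03 * d23 = m10 * m12 * d13 ^ 2) (A2 : u03 * d02 * d32 = m10 * m13 * d12 ^ 2)
    (A3 : u23 * d20 * d30 = m12 * m13 * d10 ^ 2) (B1 : u12 * d13 * d23 = m01 * m02 * d03 ^ 2)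
    (B2 : u13 * d12 * d32 = m01 * m03 * d02 ^ 2) (B3 : u23 * d21 * d31 = m02 * m03 * d01 ^ 2) :
    (d01 * d10 / (m01 * m10) * (d23 * d32 / u23)) ^ 2 =
      d02 * d20 / u02 * (d13 * d31 / u13) * (d03 * d30 / u03 * (d12 * d21 / u12)) := by
  have P := congrArg₂ (· * ·) (congrArg₂ (· * ·) A1 A2) (congrArg₂ (· * ·) B1 B2)
  have key : (d01 * d10 * d23 * d32) ^ 2 * (u02 * u13 * u03 * u12) =
      d02 * d20 * d13 * d31 * d03 * d30 * d12 * d21 * (m01 * m10 * u23) ^ 2 := by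
    refine mul_left_cancel₀ hd ?_
    linear_combination (d10 * d01) ^ 2 * P - (m01 * m10 * (d13 * d12 * d03 * d02)) ^ 2 *
      (m02 * m03 * d01 ^ 2 * A3 + u23 * d20 * d30 * B3)
  generalize m01 * m10 = u01 at n01 key
  field_simp
  linear_combination key

theorem pf (hκ : ∀ x : F, x ^ 2 + x + 1 ≠ 0) {H01 H02 H03 H12 H13 H23 r0 r1 r2 r3 : F}
    (hZ : H03 * H12 ≠ 0) (hs : (H01 * H23) ^ 2 = H02 * H13 * (H03 * H12))
    (e0 : H01 * r1 + H02 * r2 + H03 * r3 = 0) (e1 : H01 * r0 + H12 * r2 + H13 * r3 = 0)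
    (e2 : H02 * r0 + H12 * r1 + H23 * r3 = 0) (e3 : H03 * r0 + H13 * r1 + H23 * r2 = 0) :
    r0 = 0 ∧ r1 = 0 ∧ r2 = 0 ∧ r3 = 0 := by
  have two : (2 : F) = 0 := CharTwo.two_eq_zero
  have hP : H01 * H23 + H02 * H13 + H03 * H12 ≠ 0 := fun e => by
    refine hκ (H02 * H13 / (H03 * H12)) ?_
    generalize H01 * H23 = X at e hs
    generalize H02 * H13 = Y at e hs
    generalize H03 * H12 = Z at e hs hZ
    field_simp
    grind
  refine ⟨mul_left_cancel₀ hP ?_, mul_left_cancel₀ hP ?_, mul_left_cancel₀ hP ?_,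
    mul_left_cancel₀ hP ?_⟩
  · linear_combination H23 * e1 + H13 * e2 + H12 * e3 -
      (H12 * H13 * r1 + H12 * H23 * r2 + H13 * H23 * r3) * two
  · linear_combination H23 * e0 + H03 * e2 + H02 * e3 -
      (H02 * H03 * r0 + H02 * H23 * r2 + H03 * H23 * r3) * two
  · linear_combination H13 * e0 + H03 * e1 + H01 * e3 -
      (H01 * H03 * r0 + H01 * H13 * r1 + H03 * H13 * r3) * two
  · linear_combination H12 * e0 + H02 * e1 + H01 * e2 -
      (H01 * H02 * r0 + H01 * H12 * r1 + H02 * H12 * r2) * two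

theorem alg (hκ : ∀ x : F, x ^ 2 + x + 1 ≠ 0) (a m : Fin 4 → Fin 4 → F) (hm0 : ∀ i, m i i = 0)
    (hm : ∀ i j, i ≠ j → m i j ≠ 0) (ha : ∀ i j k, i ≠ j → i ≠ k → j ≠ k → a i j + a i k ≠ 0)
    (hR : ∀ i j k, i ≠ j → i ≠ k → j ≠ k →
      m i j * m j i * (a i j + a i k) * (a j i + a j k) = m k i * m k j * (a k i + a k j) ^ 2)
    (c c' : Fin 4 → F) (hc : ∀ j t,
      ∑ i, m i j * m j i * (c i * a i j + c' i * (1 + a i j)) * (t + a j i) = 0) :
    ∀ i, c i = 0 ∧ c' i = 0 := by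
  have hu : ∀ i j, i ≠ j → m i j * m j i ≠ 0 := fun i j h => mul_ne_zero (hm i j h) (hm j i h.symm)
  have z0 := fun j => hc j 0
  have z1 := fun j => hc j 1
  simp only [Fin.sum_univ_four, zero_add] at z0 z1
  have p0 := z0 0
  have p1 := z0 1
  have p2 := z0 2
  have p3 := z0 3
  have q0 := z1 0
  have q1 := z1 1
  have q2 := z1 2
  have q3 := z1 3
  simp only [hm0, zero_mul, zero_add, add_zero] at p0 p1 p2 p3 q0 q1 q2 q3
  obtain ⟨r0, e10, e20, e30⟩ := three p0 q0 (ha 0 2 3 (by decide) (by decide) (by decide))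
  obtain ⟨r1, e01, e21, e31⟩ := three p1 q1 (ha 1 2 3 (by decide) (by decide) (by decide))
  obtain ⟨r2, e02, e12, e32⟩ := three p2 q2 (ha 2 1 3 (by decide) (by decide) (by decide))
  obtain ⟨r3, e03, e13, e23⟩ := three p3 q3 (ha 3 1 2 (by decide) (by decide) (by decide))
  have w0 := row (hu 0 1 (by decide)) (hu 0 2 (by decide)) (hu 0 3 (by decide)) e01 e02 e03
  have w1 := row (hu 1 0 (by decide)) (hu 1 2 (by decide)) (hu 1 3 (by decide)) e10 e12 e13
  have w2 := row (hu 2 0 (by decide)) (hu 2 1 (by decide)) (hu 2 3 (by decide)) e20 e21 e23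
  have w3 := row (hu 3 0 (by decide)) (hu 3 1 (by decide)) (hu 3 2 (by decide)) e30 e31 e32
  have hs := sq_rel (d01 := a 0 2 + a 0 3) (d02 := a 0 1 + a 0 3) (d03 := a 0 1 + a 0 2)
    (d10 := a 1 2 + a 1 3) (d12 := a 1 0 + a 1 3) (d13 := a 1 0 + a 1 2)
    (d20 := a 2 1 + a 2 3) (d21 := a 2 0 + a 2 3) (d23 := a 2 0 + a 2 1)
    (d30 := a 3 1 + a 3 2) (d31 := a 3 0 + a 3 2) (d32 := a 3 0 + a 3 1)
    (m02 := m 0 2) (m03 := m 0 3) (m12 := m 1 2) (m13 := m 1 3)
    (hu 0 1 (by decide)) (hu 0 2 (by decide)) (hu 0 3 (by decide)) (hu 1 2 (by decide))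
    (hu 1 3 (by decide)) (hu 2 3 (by decide))
    (mul_ne_zero (mul_ne_zero (mul_ne_zero (ha 0 1 2 (by decide) (by decide) (by decide))
      (ha 0 1 3 (by decide) (by decide) (by decide))) (ha 1 0 2 (by decide) (by decide) (by decide)))
      (ha 1 0 3 (by decide) (by decide) (by decide)))
    (by linear_combination hR 0 2 1 (by decide) (by decide) (by decide))
    (by linear_combination hR 0 3 1 (by decide) (by decide) (by decide))
    (by linear_combination hR 2 3 1 (by decide) (by decide) (by decide))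
    (by linear_combination hR 1 2 0 (by decide) (by decide) (by decide))
    (by linear_combination hR 1 3 0 (by decide) (by decide) (by decide))
    (by linear_combination hR 2 3 0 (by decide) (by decide) (by decide))
  obtain ⟨rfl, rfl, rfl, rfl⟩ := pf hκ (r0 := r0) (r1 := r1) (r2 := r2) (r3 := r3)
    (mul_ne_zero
      (div_ne_zero (mul_ne_zero (ha 0 1 2 (by decide) (by decide) (by decide))
        (ha 3 1 2 (by decide) (by decide) (by decide))) (hu 0 3 (by decide)))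
      (div_ne_zero (mul_ne_zero (ha 1 0 3 (by decide) (by decide) (by decide))
        (ha 2 0 3 (by decide) (by decide) (by decide))) (hu 1 2 (by decide))))
    hs w0 (by linear_combination w1) (by linear_combination w2) (by linear_combination w3)
  rw [zero_mul] at e10 e20 e30 e01 e21 e31 e02 e12 e32 e03 e13 e23
  intro i
  fin_cases i
  · exact kill (hu 0 1 (by decide)) (hu 0 2 (by decide))
      (ha 0 1 2 (by decide) (by decide) (by decide)) e01 e02
  · exact kill (hu 1 0 (by decide)) (hu 1 2 (by decide))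
      (ha 1 0 2 (by decide) (by decide) (by decide)) e10 e12
  · exact kill (hu 2 0 (by decide)) (hu 2 1 (by decide))
      (ha 2 0 1 (by decide) (by decide) (by decide)) e20 e21
  · exact kill (hu 3 0 (by decide)) (hu 3 1 (by decide))
      (ha 3 0 1 (by decide) (by decide) (by decide)) e30 e31

/-- `x` and `y` meet a third line in points of different sign -/
def Adj (ψ : F → ℝ) (x y : V F) : Prop :=
  ∃ c a b, c ≠ x ∧ c ≠ y ∧ pt x a = pt c a ∧ pt y b = pt c b ∧ ψ a * ψ b = -1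

theorem free {ψ : F → ℝ} (h : Ch ψ 1) (L : Fin 4 → V F) (H : ∀ i j, i ≠ j → Adj ψ (L i) (L j)) :
    False := by
  have H' : ∀ i j : Fin 4, ∃ c a b, i ≠ j →
      c ≠ L i ∧ c ≠ L j ∧ pt (L i) a = pt c a ∧ pt (L j) b = pt c b ∧ ψ a * ψ b = -1 := by
    intro i j
    by_cases hij : i = j
    · exact ⟨0, 0, 0, fun e => (e hij).elim⟩
    · obtain ⟨c, a, b, hh⟩ := H i j hij
      exact ⟨c, a, b, fun _ => hh⟩
  choose N0 a0 b0 H0 using H'
  obtain ⟨N, a, hs, hd, h1, h2, h3⟩ : ∃ (N : Fin 4 → Fin 4 → V F) (a : Fin 4 → Fin 4 → F),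
      (∀ i j, N i j = N j i) ∧ (∀ i, N i i = L i) ∧ (∀ i j, i ≠ j → N i j ≠ L i) ∧
      (∀ i j, pt (L i) (a i j) = pt (N i j) (a i j)) ∧
      ∀ i j, i ≠ j → ψ (a i j) * ψ (a j i) = -1 := by
    refine ⟨fun i j => if i < j then N0 i j else if j < i then N0 j i else L i,
      fun i j => if i < j then a0 i j else b0 j i, fun i j => ?_, fun i => by simp,
      fun i j hij => ?_, fun i j => ?_, fun i j hij => ?_⟩
    all_goals rcases lt_trichotomy i j with hh | hh | hh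
    · simp [hh, hh.not_gt]
    · simp [hh]
    · simp [hh, hh.not_gt]
    · simpa [hh] using (H0 i j hij).1
    · exact (hij hh).elim
    · simpa [hh, hh.not_gt] using (H0 j i hij.symm).2.1
    · simpa [hh] using (H0 i j hh.ne).2.2.1
    · simp [hh]
    · simpa [hh, hh.not_gt] using (H0 j i hh.ne).2.2.2.1
    · simpa [hh, hh.not_gt] using (H0 i j hij).2.2.2.2
    · exact (hij hh).elim
    · simpa [hh, hh.not_gt, mul_comm] using (H0 j i hij.symm).2.2.2.2
  obtain ⟨m, hm⟩ : ∃ m : Fin 4 → Fin 4 → F,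
      ∀ i j, m i j = (a i j + a j i) * ((L i).1 + (N i j).1) := ⟨_, fun _ _ => rfl⟩
  have hP : ∀ i j s s', Q (pt (L i) s) (pt (L j) s') =
      m i j * m j i * (s + a i j) * (s' + a j i) := fun i j s s' => by
    rw [path (h2 i j) (hs j i ▸ h2 j i), hm, hm, hs j i]
    ring
  have hne : ∀ i j, i ≠ j → a i j + a j i ≠ 0 := fun i j hij e => by
    have := h3 i j hij
    rw [h.add_eq.1 e, h.mul_self] at this
    norm_num at this
  have hm1 : ∀ i j, i ≠ j → m i j ≠ 0 := fun i j hij => by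
    rw [hm]
    exact mul_ne_zero (hne i j hij) fun e => h1 i j hij (slope (h2 i j) (h.add_eq.1 e)).symm
  have hR : ∀ i j k, m i j * m j i * (a i j + a i k) * (a j i + a j k) =
      m k i * m k j * (a k i + a k j) ^ 2 := fun i j k => by
    have e1 := hP i j (a i k) (a j k)
    rw [h2 i k, h2 j k, hs i k, hs j k, path (h2 k i).symm (h2 k j).symm] at e1
    rw [hm k i, hm k j]
    linear_combination -e1
  have ha : ∀ i j k, i ≠ j → i ≠ k → j ≠ k → a i j + a i k ≠ 0 := fun i j k hij hik hjk e => by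
    have e1 := hR i j k
    have e2 := hR i k j
    rw [e] at e1
    rw [add_comm (a i k), e] at e2
    simp only [mul_zero, zero_mul] at e1 e2
    have f1 := h.add_eq.1 (pow_eq_zero_iff two_ne_zero |>.1 ((mul_eq_zero.1 e1.symm).resolve_left
      (mul_ne_zero (hm1 k i hik.symm) (hm1 k j hjk.symm))))
    have f2 := h.add_eq.1 (pow_eq_zero_iff two_ne_zero |>.1 ((mul_eq_zero.1 e2.symm).resolve_left
      (mul_ne_zero (hm1 j i hij.symm) (hm1 j k hjk))))
    have g1 := h3 i j hij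
    have g2 := h3 i k hik
    have g3 := h3 j k hjk
    rw [← h.add_eq.1 e] at g2
    rw [← f1, ← f2] at g3
    have g4 := congrArg₂ (· * ·) g1 g2
    have g5 := h.mul_self (a i j)
    have : ψ (a j i) * ψ (a k i) = 1 := by
      linear_combination g4 - ψ (a j i) * ψ (a k i) * g5
    linarith
  obtain ⟨g, ⟨i, hi⟩, hg⟩ := dep (ι := Fin 4 ⊕ Fin 4) (by simp)
    (Sum.elim (fun i => pt (L i) 0) fun i => pt (L i) 1)
  have := alg h.kappa a m (fun i => by rw [hm, h.self, zero_mul]) hm1 ha (fun i j k _ _ _ => hR i j k)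
    (fun i => g (Sum.inl i)) (fun i => g (Sum.inr i)) fun j t => by
      have e := hg (pt (L j) t)
      simp only [Fintype.sum_sum_type, Sum.elim_inl, Sum.elim_inr, hP, ← sum_add_distrib] at e
      rw [← e]
      exact sum_congr rfl fun i _ => by ring
  rcases i with i | i
  · exact hi (this i).1
  · exact hi (this i).2

end Pool.Agent.P.MP_ac2766_co.Hx
end

-- part Pool.Agent.P.MP_ac2766_co.HxB
section

open Finset
namespace Pool.Agent.P.MP_ac2766_co.Hx
open Sm

theorem pars {G H : Type} [Fintype G] [Fintype H] [DecidableEq G] (χ : G → H → ℝ) {c : ℝ}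
    (hχ : ∀ x x', ∑ y, χ x y * χ x' y = if x = x' then c else 0) (u : G → ℝ) :
    ∑ y, (∑ x, u x * χ x y) ^ 2 = c * ∑ x, u x ^ 2 := by
  have e : ∀ y, (∑ x, u x * χ x y) ^ 2 = ∑ x, ∑ x', u x * u x' * (χ x y * χ x' y) := fun y => by
    rw [sq, sum_mul_sum]
    exact sum_congr rfl fun _ _ => sum_congr rfl fun _ _ => by ring
  simp only [e]
  rw [sum_comm, mul_sum]
  refine sum_congr rfl fun x _ => ?_
  rw [sum_comm]
  simp only [← mul_sum, hχ, mul_ite, mul_zero, sum_ite_eq, mem_univ, if_true]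
  ring

theorem fib {ι κ : Type} [Fintype ι] [Fintype κ] [DecidableEq κ] (π : ι → κ) (g : κ → ℝ)
    (hg : ∀ y, g y ≠ 0 → (univ.filter fun i => π i = y).card ≤ 3) :
    ∑ i, g (π i) ^ 2 ≤ 3 * ∑ y, g y ^ 2 := by
  rw [← sum_fiberwise univ π, mul_sum]
  refine sum_le_sum fun y _ => ?_
  rw [sum_congr rfl (g := fun _ => g y ^ 2) fun i hi => by rw [(mem_filter.1 hi).2], sum_const,
    nsmul_eq_mul]
  by_cases h : g y = 0
  · simp [h]
  · exact mul_le_mul_of_nonneg_right (by exact_mod_cast hg y h) (sq_nonneg _)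

variable {F : Type} [Field F] [DecidableEq F]

open Polynomial in
theorem cub {a b c d : F} (h : ¬ (a = 0 ∧ b = 0 ∧ c = 0 ∧ d = 0)) (s : Finset F)
    (hs : ∀ x ∈ s, a * x ^ 3 + b * x ^ 2 + c * x + d = 0) : s.card ≤ 3 := by
  refine roots_le (C a * X ^ 3 + C b * X ^ 2 + C c * X + C d) (fun e => h ⟨?_, ?_, ?_, ?_⟩)
    natDegree_cubic_le s fun x hx => by simpa using hs x hx
  · simpa [coeff_X, coeff_C] using congrArg (coeff · 3) e
  · simpa [coeff_X, coeff_C] using congrArg (coeff · 2) e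
  · simpa [coeff_X, coeff_C] using congrArg (coeff · 1) e
  · simpa [coeff_X, coeff_C] using congrArg (coeff · 0) e

variable [Fintype F] [CharP F 2] {ψ : F → ℝ} {ν : F}

omit [CharP F 2] in
theorem ort1 (h : Ch ψ ν) (x x' : F) :
    ∑ y, ψ (x * y) * ψ (x' * y) = if x = x' then (Fintype.card F : ℝ) else 0 := by
  simp only [← h.add, ← add_mul, h.sum_mul, h.add_eq]

omit [CharP F 2] in
theorem ort2 (h : Ch ψ ν) (x x' : F × F) :
    ∑ y : F × F, ψ (x.1 * y.1 + x.2 * y.2) * ψ (x'.1 * y.1 + x'.2 * y.2) =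
      if x = x' then (Fintype.card F : ℝ) ^ 2 else 0 := by
  have e : ∀ y : F × F, ψ (x.1 * y.1 + x.2 * y.2) * ψ (x'.1 * y.1 + x'.2 * y.2) =
      ψ (x.1 * y.1) * ψ (x'.1 * y.1) * (ψ (x.2 * y.2) * ψ (x'.2 * y.2)) := fun y => by
    rw [h.add, h.add]
    ring
  simp only [e, Fintype.sum_prod_type, ← sum_mul_sum, ort1 h, Prod.ext_iff]
  by_cases h1 : x.1 = x'.1 <;> by_cases h2 : x.2 = x'.2 <;> simp [h1, h2, sq]

/-- the twisted incidence operator of the plane -/
def T (ψ : F → ℝ) (α β γ : F) (u : F → F → ℝ) (t w : F) : ℝ :=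
  ∑ k, u k (w + k * t) * ψ ((w + k * t) * t * (α + β * t + γ * k * t))

theorem flat (h : Ch ψ ν) (α β : F) (u : F → F → ℝ) (hu : α = 0 → β = 0 → ∑ k, ∑ m, u k m = 0) :
    ∑ t, ∑ w, T ψ α β 0 u t w ^ 2 ≤ 3 * Fintype.card F * ∑ k, ∑ m, u k m ^ 2 := by
  have hq : (0 : ℝ) < Fintype.card F := by exact_mod_cast Fintype.card_pos
  let g : F × F → ℝ := fun y => ∑ x : F × F, u x.1 x.2 * ψ (x.1 * y.1 + x.2 * y.2)
  have e1 : ∀ t ξ, ∑ w, T ψ α β 0 u t w * ψ (w * ξ) = g (ξ * t, ξ + α * t + β * t ^ 2) := by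
    intro t ξ
    simp only [T, g, sum_mul, Fintype.sum_prod_type]
    rw [sum_comm]
    refine sum_congr rfl fun k _ => ?_
    refine (Fintype.sum_equiv (Equiv.addRight (k * t)) _ _ fun m => ?_).symm
    have a1 : m + k * t + k * t = m := by grind
    simp only [Equiv.coe_addRight, a1, mul_assoc (u k m), ← h.add]
    congr 2
    grind
  have e2 : ∀ t, Fintype.card F * ∑ w, T ψ α β 0 u t w ^ 2 =
      ∑ ξ, g (ξ * t, ξ + α * t + β * t ^ 2) ^ 2 := fun t => by
    rw [← pars (fun x y => ψ (x * y)) (ort1 h)]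
    simp only [e1]
  have e3 := fib (fun i : F × F => (i.2 * i.1, i.2 + α * i.1 + β * i.1 ^ 2)) g fun y hy => by
    rw [← card_image_of_injOn (f := Prod.fst)]
    · refine cub (a := β) (b := α) (c := y.2) (d := y.1) (fun e => hy ?_) _ ?_
      · simpa [g, e.2.2.1, e.2.2.2, h.zero, Fintype.sum_prod_type] using hu e.2.1 e.1
      · intro x hx
        obtain ⟨i, hi, rfl⟩ := mem_image.1 hx
        rw [← (mem_filter.1 hi).2]
        grind
    · intro i hi j hj e
      have a1 := congrArg Prod.snd ((mem_filter.1 hi).2.trans (mem_filter.1 hj).2.symm)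
      simp only [e] at a1
      exact Prod.ext e (by linear_combination a1)
  have e4 := pars (fun x y : F × F => ψ (x.1 * y.1 + x.2 * y.2)) (ort2 h) fun x => u x.1 x.2
  refine le_of_mul_le_mul_left ?_ hq
  rw [mul_sum]
  simp only [e2]
  rw [Fintype.sum_prod_type] at e3
  rw [Fintype.sum_prod_type (f := fun x => u x.1 x.2 ^ 2)] at e4
  refine e3.trans (le_of_eq ?_)
  simp only [g]
  rw [e4]
  ring

theorem core (h : Ch ψ ν) {γ : F} (hγ : γ ≠ 0) (u : F → F → ℝ) (hu : ∀ m, u 0 m = 0) :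
    ∑ t, ∑ w, T ψ 0 0 γ u t w ^ 2 ≤ 3 * Fintype.card F * ∑ k, ∑ m, u k m ^ 2 := by
  have hq : (0 : ℝ) < Fintype.card F := by exact_mod_cast Fintype.card_pos
  let U : F → F → ℝ := fun θ k => ∑ m, u k m * ψ (γ * m ^ 3 * k⁻¹) * ψ (m * k⁻¹ * θ)
  let Φ : F → F → ℝ := fun θ y => ∑ k, U θ k * ψ (k⁻¹ * y)
  have e1 : ∀ w θ, ∑ t, T ψ 0 0 γ u t w * ψ (γ * t * w ^ 2) * ψ (t * θ) =
      Φ θ (γ * w ^ 3 + θ * w) := by
    intro w θ
    simp only [T, Φ, U, sum_mul]
    rw [sum_comm]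
    refine sum_congr rfl fun k _ => ?_
    by_cases hk : k = 0
    · simp [hk, hu]
    refine Fintype.sum_equiv ((Equiv.mulLeft₀ k hk).trans (Equiv.addLeft w)) _ _ fun t => ?_
    simp only [Equiv.trans_apply, Equiv.mulLeft₀_apply, Equiv.coe_addLeft,
      mul_assoc (u k (w + k * t)), ← h.add]
    congr 2
    field_simp
    grind
  have e2 : ∀ w, Fintype.card F * ∑ t, T ψ 0 0 γ u t w ^ 2 =
      ∑ θ, Φ θ (γ * w ^ 3 + θ * w) ^ 2 := fun w => by
    simp only [← e1]
    rw [pars (fun x y => ψ (x * y)) (ort1 h)]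
    congr 1
    refine sum_congr rfl fun t _ => ?_
    rw [mul_pow, sq (ψ _), h.mul_self, mul_one]
  have e3 : ∀ θ, ∑ w, Φ θ (γ * w ^ 3 + θ * w) ^ 2 ≤ 3 * (Fintype.card F * ∑ k, U θ k ^ 2) := by
    intro θ
    rw [← pars (fun k y => ψ (k⁻¹ * y)) (fun k k' => by simp only [ort1 h, inv_inj]) (U θ)]
    refine fib (fun w => γ * w ^ 3 + θ * w) (Φ θ) fun y _ => ?_
    refine cub (a := γ) (b := 0) (c := θ) (d := -y) (fun e => hγ e.1) _ fun x hx => ?_
    linear_combination (mem_filter.1 hx).2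
  have e4 : ∀ k, ∑ θ, U θ k ^ 2 = Fintype.card F * ∑ m, u k m ^ 2 := fun k => by
    by_cases hk : k = 0
    · simp [hk, hu, U]
    simp only [U]
    rw [pars (c := Fintype.card F) (fun m θ => ψ (m * k⁻¹ * θ)) fun m m' => by
      simp only [ort1 h, mul_left_inj' (inv_ne_zero hk)]]
    congr 1
    refine sum_congr rfl fun t _ => ?_
    rw [mul_pow, sq (ψ _), h.mul_self, mul_one]
  refine le_of_mul_le_mul_left ?_ hq
  rw [sum_comm, mul_sum]
  simp only [e2]
  rw [sum_comm]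
  refine (sum_le_sum fun θ _ => e3 θ).trans (le_of_eq ?_)
  simp only [← mul_sum]
  rw [sum_comm]
  simp only [e4, ← mul_sum]
  ring

theorem cent (h : Ch ψ ν) {γ : F} (hγ : γ ≠ 0) (u : F → F → ℝ) :
    ∑ t, ∑ w, T ψ 0 0 γ u t w ^ 2 ≤ 4 * Fintype.card F * ∑ k, ∑ m, u k m ^ 2 := by
  have hq : (0 : ℝ) < Fintype.card F := by exact_mod_cast Fintype.card_pos
  let u' : F → F → ℝ := fun k m => if k = 0 then 0 else u k m
  have e1 : ∀ t w, T ψ 0 0 γ u t w = u 0 w + T ψ 0 0 γ u' t w := fun t w => by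
    simp only [T, u']
    rw [← add_sum_erase univ _ (mem_univ 0), ← add_sum_erase univ _ (mem_univ 0)]
    simp only [zero_mul, mul_zero, add_zero, h.zero, mul_one, if_true, zero_add]
    congr 1
    exact sum_congr rfl fun k hk => by rw [if_neg (ne_of_mem_erase hk)]
  have e2 : ∑ k, ∑ m, u k m ^ 2 = ∑ m, u 0 m ^ 2 + ∑ k, ∑ m, u' k m ^ 2 := by
    rw [← add_sum_erase univ _ (mem_univ 0), ← add_sum_erase univ (fun k => ∑ m, u' k m ^ 2)
      (mem_univ 0)]
    simp only [u', if_true, ne_eq, OfNat.ofNat_ne_zero, not_false_eq_true, zero_pow,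
      sum_const_zero, zero_add]
    congr 1
    exact sum_congr rfl fun k hk => by simp only [if_neg (ne_of_mem_erase hk)]
  have e3 := core h hγ u' fun m => if_pos rfl
  have e4 : ∑ t, ∑ w, T ψ 0 0 γ u t w ^ 2 ≤
      ∑ t : F, ∑ w, (4 * u 0 w ^ 2 + 4 / 3 * T ψ 0 0 γ u' t w ^ 2) :=
    sum_le_sum fun t _ => sum_le_sum fun w _ => by
      rw [e1]
      nlinarith [sq_nonneg (3 * u 0 w - T ψ 0 0 γ u' t w)]
  simp only [sum_add_distrib, ← mul_sum, sum_const, card_univ, nsmul_eq_mul] at e4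
  rw [e2]
  linarith

theorem plane (h : Ch ψ ν) (α β γ : F) (u : F → F → ℝ)
    (hu : α = 0 → β = 0 → γ = 0 → ∑ k, ∑ m, u k m = 0) :
    ∑ t, ∑ w, T ψ α β γ u t w ^ 2 ≤ 4 * Fintype.card F * ∑ k, ∑ m, u k m ^ 2 := by
  by_cases hγ : γ = 0
  · subst hγ
    refine (flat h α β u fun a b => hu a b rfl).trans ?_
    have : (0 : ℝ) ≤ Fintype.card F * ∑ k, ∑ m, u k m ^ 2 := by positivity
    linarith
  obtain ⟨a, rfl⟩ : ∃ a, α = γ * a := ⟨α / γ, by field_simp⟩
  obtain ⟨b, rfl⟩ : ∃ b, β = γ * b := ⟨β / γ, by field_simp⟩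
  have e1 : ∀ t w, T ψ (γ * a) (γ * b) γ u t (w + (a + b * t)) =
      T ψ 0 0 γ (fun k m => u (k + b) (m + a)) t w * ψ (γ * t * a * (w + a)) := fun t w => by
    simp only [T, sum_mul]
    refine (Fintype.sum_equiv (Equiv.addRight b) _ _ fun k => ?_).symm
    have a1 : w + (a + b * t) + (k + b) * t = w + k * t + a := by grind
    simp only [Equiv.coe_addRight, a1, mul_assoc (u _ _), ← h.add]
    congr 2
    grind
  have e2 : ∀ t, ∑ w, T ψ (γ * a) (γ * b) γ u t w ^ 2 =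
      ∑ w, T ψ 0 0 γ (fun k m => u (k + b) (m + a)) t w ^ 2 := fun t => by
    refine (Fintype.sum_equiv (Equiv.addRight (a + b * t)) _ _ fun w => ?_).symm
    rw [Equiv.coe_addRight, e1, mul_pow, sq (ψ _), h.mul_self, mul_one]
  have e3 : ∑ k, ∑ m, u (k + b) (m + a) ^ 2 = ∑ k, ∑ m, u k m ^ 2 := by
    exact Fintype.sum_equiv (Equiv.addRight b) _ _ fun k =>
      Fintype.sum_equiv (Equiv.addRight a) _ _ fun m => rfl
  simp only [e2]
  rw [← e3]
  exact cent h hγ _

end Pool.Agent.P.MP_ac2766_co.Hx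
end

-- part Pool.Agent.P.MP_ac2766_co.HxC
section

open Finset
namespace Pool.Agent.P.MP_ac2766_co.Hx
open Sm

variable {F : Type} [Field F] [DecidableEq F] [Fintype F] {ψ : F → ℝ} {ν : F}

theorem ort3 (h : Ch ψ ν) (a b c a' b' c' : F) :
    ∑ χ : F × F × F, ψ (a * χ.1 + b * χ.2.1 + c * χ.2.2) * ψ (a' * χ.1 + b' * χ.2.1 + c' * χ.2.2) =
      if a = a' ∧ b = b' ∧ c = c' then (Fintype.card F : ℝ) ^ 3 else 0 := by
  have e : ∀ χ : F × F × F,
      ψ (a * χ.1 + b * χ.2.1 + c * χ.2.2) * ψ (a' * χ.1 + b' * χ.2.1 + c' * χ.2.2) =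
      ψ (a * χ.1) * ψ (a' * χ.1) *
        (ψ (b * χ.2.1) * ψ (b' * χ.2.1) * (ψ (c * χ.2.2) * ψ (c' * χ.2.2))) := fun y => by
    simp only [h.add]
    ring
  simp only [e, Fintype.sum_prod_type, ← mul_sum, ← sum_mul, ort1 h]
  by_cases h1 : a = a' <;> by_cases h2 : b = b' <;> by_cases h3 : c = c' <;>
    simp [h1, h2, h3, pow_succ, mul_assoc]

/-- Fourier coefficient of a function on lines along the last three coordinates -/
def uh (ψ : F → ℝ) (f : V F → ℝ) (χ : F × F × F) (k m : F) : ℝ :=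
  ∑ y : F × F × F, f (k, m, y) * ψ (y.1 * χ.1 + y.2.1 * χ.2.1 + (y.2.2 + m * y.1) * χ.2.2)

theorem uh_sq (h : Ch ψ ν) (f : V F → ℝ) :
    ∑ χ, ∑ k, ∑ m, uh ψ f χ k m ^ 2 = (Fintype.card F : ℝ) ^ 3 * ∑ x, f x ^ 2 := by
  rw [sum_comm, Fintype.sum_prod_type (f := fun x => f x ^ 2), mul_sum]
  refine sum_congr rfl fun k _ => ?_
  rw [sum_comm, Fintype.sum_prod_type (f := fun x => f (k, x) ^ 2), mul_sum]
  refine sum_congr rfl fun m _ => ?_
  refine pars (fun y χ : F × F × F =>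
    ψ (y.1 * χ.1 + y.2.1 * χ.2.1 + (y.2.2 + m * y.1) * χ.2.2)) (fun y y' => ?_) _
  rw [ort3 h]
  refine if_congr ⟨fun ⟨a, b, c⟩ => Prod.ext a (Prod.ext b ?_), fun e => by simp [e]⟩ rfl rfl
  linear_combination c - m * a

/-- the matching characters on points -/
noncomputable def G (ψ : F → ℝ) (χ : F × F × F) (w : F) (p : V F) : ℝ :=
  if p.2.1 = w then ψ (p.2.2.1 * χ.1 + (p.2.2.2.1 + p.1 * p.2.2.1) * χ.2.1 +
    (p.2.2.2.2 + p.2.1 * p.2.2.1) * χ.2.2) else 0

theorem G_sum (h : Ch ψ ν) {p p' : V F} (e : p.1 = p'.1) :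
    ∑ χ, ∑ w, G ψ χ w p * G ψ χ w p' = if p = p' then (Fintype.card F : ℝ) ^ 3 else 0 := by
  obtain ⟨t, w, a, b, c⟩ := p
  obtain ⟨t', w', a', b', c'⟩ := p'
  obtain rfl : t = t' := e
  simp only [G, ite_mul, zero_mul, sum_ite_eq, mem_univ, if_true, Prod.mk.injEq, true_and]
  by_cases hw : w' = w
  · subst hw
    simp only [if_true, ort3 h, true_and]
    refine if_congr ⟨fun ⟨a, b, c⟩ => ⟨a, ?_, ?_⟩, fun e => by simp [e]⟩ rfl rfl
    · linear_combination b - t * a
    · linear_combination c - w' * a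
  · simp [hw, Ne.symm hw]

/-- signed incidence of two lines -/
noncomputable def Cm (ψ : F → ℝ) (c x : V F) : ℝ := ∑ t, ψ t * if pt c t = pt x t then 1 else 0

theorem Cm_comm (c x : V F) : Cm ψ c x = Cm ψ x c := by simp only [Cm, eq_comm]

theorem count (c : V F) (t : F) :
    ∑ x, (if pt c t = pt x t then (1 : ℝ) else 0) = Fintype.card F := by
  rw [Fintype.sum_prod_type]
  have e : ∀ k, ∑ y, (if pt c t = pt (k, y) t then (1 : ℝ) else 0) = 1 := fun k => by
    have hb : Function.Bijective fun y => (pt (k, y) t).2 :=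
      Finite.injective_iff_bijective.1 fun y y' e =>
        congrArg Prod.snd (slope (x := (k, y)) (c := (k, y')) (Prod.ext rfl e) rfl)
    have := hb.sum_comp fun z => if (pt c t).2 = z then (1 : ℝ) else 0
    rw [sum_ite_eq, if_pos (mem_univ _)] at this
    refine Eq.trans (sum_congr rfl fun y _ => ?_) this
    exact if_congr ⟨fun e => congrArg Prod.snd e, fun e => Prod.ext rfl e⟩ rfl rfl
  simp [e]

theorem sum_psi (h : Ch ψ ν) : ∑ t, ψ t = 0 := by simpa using h.sum_mul 1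

theorem Cm_sum (h : Ch ψ ν) (c : V F) : ∑ x, Cm ψ c x = 0 := by
  simp only [Cm]
  rw [sum_comm]
  simp only [← mul_sum, count, ← sum_mul, sum_psi h, zero_mul]

variable [CharP F 2]

theorem T_uh (h : Ch ψ ν) (f : V F → ℝ) (χ : F × F × F) (t w : F) :
    T ψ χ.1 χ.2.1 χ.2.2 (uh ψ f χ) t w = ∑ x, f x * G ψ χ w (pt x t) := by
  rw [Fintype.sum_prod_type, T]
  refine sum_congr rfl fun k _ => ?_
  rw [Fintype.sum_prod_type, sum_eq_single (w + k * t), uh, sum_mul]
  · refine sum_congr rfl fun y _ => ?_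
    have a1 : w + k * t + k * t = w := by grind
    simp only [G, pt, a1, if_true, mul_assoc (f _), ← h.add]
    congr 2
    grind
  · intro m _ hm
    refine sum_eq_zero fun y _ => ?_
    have a1 : ¬ m + k * t = w := fun e => hm (by grind)
    simp only [G, pt, a1, if_false, mul_zero]
  · simp

theorem bil (h : Ch ψ ν) (f g : V F → ℝ) (hf : ∑ x, f x = 0) (hg : ∑ x, g x = 0) :
    ∑ c, ∑ x, g c * f x * Cm ψ c x ≤ 2 * Fintype.card F * (∑ x, g x ^ 2 + ∑ x, f x ^ 2) := by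
  have hq : (0 : ℝ) < (Fintype.card F : ℝ) ^ 3 := by
    have : (0 : ℝ) < Fintype.card F := by exact_mod_cast Fintype.card_pos
    positivity
  have e1 : (Fintype.card F : ℝ) ^ 3 * ∑ c, ∑ x, g c * f x * Cm ψ c x = ∑ χ : F × F × F, ∑ t, ∑ w,
      ψ t * (T ψ χ.1 χ.2.1 χ.2.2 (uh ψ g χ) t w * T ψ χ.1 χ.2.1 χ.2.2 (uh ψ f χ) t w) := by
    have a1 : ∀ c x, (Fintype.card F : ℝ) ^ 3 * (g c * f x * Cm ψ c x) = ∑ χ, ∑ t, ∑ w,
        ψ t * (g c * G ψ χ w (pt c t) * (f x * G ψ χ w (pt x t))) := fun c x => by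
      rw [sum_comm]
      simp only [Cm, mul_sum]
      refine sum_congr rfl fun t _ => ?_
      have a2 : ∀ χ w, ψ t * (g c * G ψ χ w (pt c t) * (f x * G ψ χ w (pt x t))) =
          ψ t * (g c * f x) * (G ψ χ w (pt c t) * G ψ χ w (pt x t)) := fun _ _ => by ring
      simp only [a2, ← mul_sum]
      rw [G_sum h (p := pt c t) (p' := pt x t) rfl]
      split_ifs <;> ring
    simp only [T_uh h, sum_mul_sum]
    simp only [mul_sum, a1]
    rw [sum_comm_cycle]
    refine sum_congr rfl fun χ _ => ?_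
    rw [sum_comm_cycle]
    exact sum_congr rfl fun t _ => sum_comm_cycle
  have e2 : ∀ (f : V F → ℝ), ∑ x, f x = 0 → ∑ χ : F × F × F, ∑ t, ∑ w,
      T ψ χ.1 χ.2.1 χ.2.2 (uh ψ f χ) t w ^ 2 ≤
        4 * Fintype.card F * ((Fintype.card F : ℝ) ^ 3 * ∑ x, f x ^ 2) := fun f hf => by
    rw [← uh_sq h, mul_sum]
    refine sum_le_sum fun χ _ => plane h _ _ _ _ fun a b c => ?_
    rw [← hf]
    simp only [uh, a, b, c, mul_zero, add_zero, h.zero, mul_one]
    rw [Fintype.sum_prod_type (f := f)]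
    exact sum_congr rfl fun k _ => (Fintype.sum_prod_type (f := fun x => f (k, x))).symm
  have e3 : ∀ t (a b : ℝ), ψ t * (a * b) ≤ 1 / 2 * (a ^ 2 + b ^ 2) := fun t a b => by
    have := h.mul_self t
    nlinarith [sq_nonneg (ψ t * a - b)]
  refine le_of_mul_le_mul_left ?_ hq
  rw [e1]
  refine (sum_le_sum fun χ _ => sum_le_sum fun t _ => sum_le_sum fun w _ => e3 t _ _).trans ?_
  simp only [← mul_sum, sum_add_distrib]
  linarith [e2 f hf, e2 g hg]

theorem Cm_norm (h : Ch ψ ν) (f : V F → ℝ) :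
    ∑ c, (∑ x, Cm ψ c x * f x) ^ 2 ≤ 16 * (Fintype.card F : ℝ) ^ 2 * ∑ x, f x ^ 2 := by
  have hq : (0 : ℝ) < Fintype.card F := by exact_mod_cast Fintype.card_pos
  have hn : (0 : ℝ) < Fintype.card (V F) := by exact_mod_cast Fintype.card_pos
  obtain ⟨μ, hμ⟩ : ∃ μ : ℝ, ∑ x, f x = Fintype.card (V F) * μ :=
    ⟨(∑ x, f x) / Fintype.card (V F), by field_simp⟩
  have e0 : ∑ x, (f x - μ) = 0 := by
    rw [sum_sub_distrib, hμ, sum_const, card_univ, nsmul_eq_mul, sub_self]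
  have e1 : ∑ x, (f x - μ) ^ 2 ≤ ∑ x, f x ^ 2 := by
    simp only [sub_sq, sum_add_distrib, sum_sub_distrib, ← sum_mul, ← mul_sum, hμ, sum_const,
      card_univ, nsmul_eq_mul]
    nlinarith [mul_nonneg hn.le (sq_nonneg μ)]
  have e2 : ∀ c, ∑ x, Cm ψ c x * (f x - μ) = ∑ x, Cm ψ c x * f x := fun c => by
    simp only [mul_sub, sum_sub_distrib, ← sum_mul, Cm_sum h, zero_mul, sub_zero]
  have e3 := bil h (fun x => f x - μ) (fun c => (4 * Fintype.card F : ℝ)⁻¹ * ∑ x, Cm ψ c x * f x)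
    e0 (by
      rw [← mul_sum, sum_comm]
      have a1 : ∀ x, ∑ c, Cm ψ c x = 0 := fun x =>
        (sum_congr rfl fun c _ => Cm_comm c x).trans (Cm_sum h x)
      simp only [← sum_mul, a1, zero_mul, sum_const_zero, mul_zero])
  have e4 : ∀ c, ∑ x, (4 * Fintype.card F : ℝ)⁻¹ * (∑ x, Cm ψ c x * f x) * (f x - μ) * Cm ψ c x =
      (4 * Fintype.card F : ℝ)⁻¹ * (∑ x, Cm ψ c x * f x) ^ 2 := fun c => by
    rw [sq, ← mul_assoc]
    conv_rhs => rw [← e2, mul_sum]
    rw [e2]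
    exact sum_congr rfl fun x _ => by ring
  simp only [e4, mul_pow, ← mul_sum] at e3
  generalize ∑ c, (∑ x, Cm ψ c x * f x) ^ 2 = S at e3 ⊢
  generalize (Fintype.card F : ℝ) = q at hq e3 ⊢
  have e5 : 8 * q * ((4 * q)⁻¹ * S) ≤ 8 * q * (2 * q * ((4 * q)⁻¹ ^ 2 * S + ∑ x, (f x - μ) ^ 2)) :=
    mul_le_mul_of_nonneg_left e3 (by positivity)
  have e6 : 8 * q * ((4 * q)⁻¹ * S) = 2 * S := by field_simp; ring
  have e7 : 8 * q * (2 * q * ((4 * q)⁻¹ ^ 2 * S + ∑ x, (f x - μ) ^ 2)) =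
      S + 16 * q ^ 2 * ∑ x, (f x - μ) ^ 2 := by field_simp; ring
  have e8 := mul_le_mul_of_nonneg_left e1 (show 0 ≤ 16 * q ^ 2 by positivity)
  linarith

end Pool.Agent.P.MP_ac2766_co.Hx
end

-- part Pool.Agent.P.MP_ac2766_co.HxD
section

open Finset
namespace Pool.Agent.P.MP_ac2766_co.Hx
open Sm

theorem isG_of_psd {W : Type} [Fintype W] {K : W → W → ℝ} (hs : ∀ x y, K x y = K y x)
    (h : ∀ f : W → ℝ, 0 ≤ ∑ x, ∑ y, f x * f y * K x y) : IsG K := by
  have hp : (Matrix.of K).PosSemidef := Matrix.posSemidef_iff_dotProduct_mulVec.2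
    ⟨Matrix.IsHermitian.ext fun x y => by simp [hs x y], fun f => by
      refine (h f).trans (le_of_eq ?_)
      simp only [dotProduct, Matrix.mulVec, Matrix.of_apply, star_trivial, mul_sum]
      exact sum_congr rfl fun x _ => sum_congr rfl fun y _ => by ring⟩
  obtain ⟨m, v, hv⟩ := Matrix.posSemidef_iff_eq_sum_vecMulVec.1 hp
  refine (IsG.sum univ fun i => IsG.one (v i) zero_le_one).of_eq fun x y => ?_
  simpa [Matrix.sum_apply, Matrix.vecMulVec_apply] using congrFun (congrFun hv x) y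

variable {F : Type} [Field F] [DecidableEq F] [Fintype F] {ψ : F → ℝ}

/-- incidence of two different lines -/
noncomputable def Bm (c x : V F) : ℝ :=
  if c = x then 0 else ∑ t, if pt c t = pt x t then 1 else 0

theorem Bm_sum (c : V F) : ∑ x, Bm c x = (Fintype.card F : ℝ) ^ 2 - Fintype.card F := by
  have e : ∀ x, Bm c x = (∑ t, if pt c t = pt x t then (1 : ℝ) else 0) -
      if c = x then (Fintype.card F : ℝ) else 0 := fun x => by
    unfold Bm
    split_ifs with h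
    · simp [h]
    · simp
  simp only [e, sum_sub_distrib, sum_ite_eq, mem_univ, if_true]
  rw [sum_comm]
  simp only [count, sum_const, card_univ, nsmul_eq_mul, sq]

theorem BC (h : Ch ψ 1) (c x : V F) : (Bm c x = 0 ∧ Cm ψ c x = 0) ∨
    ∃ a, c ≠ x ∧ pt x a = pt c a ∧ Bm c x = 1 ∧ Cm ψ c x = ψ a := by
  by_cases hc : c = x
  · exact Or.inl ⟨if_pos hc, by simp [Cm, hc, sum_psi h]⟩
  by_cases ha : ∃ a, pt c a = pt x a
  · obtain ⟨a, ha⟩ := ha
    have e : ∀ t, pt c t = pt x t ↔ t = a := fun t =>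
      ⟨fun e => two_pts e ha hc, fun e => e ▸ ha⟩
    exact Or.inr ⟨a, hc, ha.symm, by simp [Bm, hc, e], by simp [Cm, e]⟩
  · rw [not_exists] at ha
    exact Or.inl ⟨by simp [Bm, ha], by simp [Cm, ha]⟩

/-- twice the adjacency matrix -/
noncomputable def Mm (ψ : F → ℝ) (x y : V F) : ℝ :=
  ∑ c, (Bm c x * Bm c y - Cm ψ c x * Cm ψ c y)

theorem Mm_self (h : Ch ψ 1) (x : V F) : Mm ψ x x = 0 := by
  refine sum_eq_zero fun c _ => ?_
  rcases BC h c x with ⟨a, b⟩ | ⟨t, -, -, a, b⟩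
  · simp [a, b]
  · rw [a, b, h.mul_self, mul_one, sub_self]

theorem Mm_adj (h : Ch ψ 1) {x y : V F} (hM : Mm ψ x y ≠ 0) : Adj ψ x y := by
  obtain ⟨c, -, hc⟩ := exists_ne_zero_of_sum_ne_zero hM
  rcases BC h c x with ⟨a, b⟩ | ⟨t, a1, a2, a3, a4⟩
  · simp [a, b] at hc
  rcases BC h c y with ⟨a, b⟩ | ⟨s, b1, b2, b3, b4⟩
  · simp [a, b] at hc
  refine ⟨c, t, s, a1, b1, a2, b2, ?_⟩
  rw [a3, a4, b3, b4, ← h.add] at hc
  rw [← h.add]
  exact (mul_self_eq_one_iff.1 (h.mul_self _)).resolve_left fun e => hc (by rw [e]; ring)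

theorem Mm_form (f : V F → ℝ) : ∑ x, ∑ y, f x * f y * Mm ψ x y =
    ∑ c, (∑ x, Bm c x * f x) ^ 2 - ∑ c, (∑ x, Cm ψ c x * f x) ^ 2 := by
  simp only [Mm, mul_sum]
  rw [sum_comm_cycle, ← sum_sub_distrib]
  refine sum_congr rfl fun c _ => ?_
  simp only [sq, sum_mul_sum, ← sum_sub_distrib]
  exact sum_congr rfl fun x _ => sum_congr rfl fun y _ => by ring

theorem good [CharP F 2] (h : Ch ψ 1) : Good 4 (V F) ((Fintype.card F : ℝ) ^ 7 / 64) := by
  have hq : (2 : ℝ) ≤ Fintype.card F := by exact_mod_cast Fintype.one_lt_card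
  obtain ⟨μ, hμ⟩ : ∃ μ : ℝ, μ = (16 * (Fintype.card F : ℝ) ^ 2)⁻¹ := ⟨_, rfl⟩
  have hμ1 : μ * (16 * (Fintype.card F : ℝ) ^ 2) = 1 := by
    rw [hμ]
    field_simp
  have hμ0 : 0 ≤ μ := by
    rw [hμ]
    positivity
  have form : ∀ f : V F → ℝ, ∑ x, ∑ y, f x * f y * ((if x = y then 1 else 0) + μ * Mm ψ x y) =
      ∑ x, f x ^ 2 + μ * (∑ c, (∑ x, Bm c x * f x) ^ 2 - ∑ c, (∑ x, Cm ψ c x * f x) ^ 2) := by
    intro f
    rw [← Mm_form]
    simp only [mul_add, sum_add_distrib, mul_ite, mul_one, mul_zero, sum_ite_eq, mem_univ, if_true,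
      sq, mul_sum, mul_left_comm μ]
  refine ⟨fun x y => (if x = y then 1 else 0) + μ * Mm ψ x y, isG_of_psd (fun x y => ?_)
    fun f => ?_, fun x => by simp [Mm_self h], fun I hI => ?_, ?_⟩
  · simp only [Mm, eq_comm (a := x), mul_comm (Bm _ x), mul_comm (Cm ψ _ x)]
  · rw [form]
    have e1 := mul_le_mul_of_nonneg_left (Cm_norm h f) hμ0
    have e2 : 0 ≤ μ * ∑ c, (∑ x, Bm c x * f x) ^ 2 := by positivity
    rw [← mul_assoc, hμ1] at e1
    linarith
  · by_contra hh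
    push Not at hh
    let e := (I.equivFinOfCardEq hI).symm
    refine free h (fun i => (e i : V F)) fun i j hij => Mm_adj h fun e0 => ?_
    have hne : (e i : V F) ≠ e j := fun a => hij (e.injective (Subtype.ext a))
    exact hh _ (e i).2 _ (e j).2 hne (by simp [hne, e0])
  · have e1 := form fun _ => 1
    simp only [mul_one, one_mul, Bm_sum, Cm_sum h, sum_const, card_univ, nsmul_eq_mul,
      Fintype.card_prod, Nat.cast_mul] at e1
    rw [e1, hμ]
    generalize (Fintype.card F : ℝ) = q at hq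
    have e2 : (16 * q ^ 2)⁻¹ * (q * (q * (q * (q * q))) * (q ^ 2 - q) ^ 2 -
        q * (q * (q * (q * q))) * 0 ^ 2) = q ^ 5 * (2 * (q - 1)) ^ 2 / 64 := by
      field_simp
      ring
    have e3 : q ^ 5 * q ^ 2 ≤ q ^ 5 * (2 * (q - 1)) ^ 2 :=
      mul_le_mul_of_nonneg_left (pow_le_pow_left₀ (by linarith) (by linarith) 2) (by positivity)
    have e4 : 0 ≤ q * (q * (q * (q * q))) * 1 ^ 2 := by positivity
    rw [e2]
    linarith

theorem exists_ch {e : ℕ} (he : Odd e) : ∃ ψ : GaloisField 2 e → ℝ, Ch ψ 1 := by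
  let τ := Algebra.trace (ZMod 2) (GaloisField 2 e)
  have h1 : τ 1 = 1 := by
    have := Algebra.trace_algebraMap (R := ZMod 2) (S := GaloisField 2 e) 1
    rw [map_one, GaloisField.finrank 2 he.pos.ne'] at this
    rw [this, nsmul_eq_mul, mul_one]
    exact he.natCast_zmod_two
  refine ⟨fun x => if τ x = 0 then 1 else -1, CharTwo.two_eq_zero, fun a b => ?_, fun a => ?_,
    by simp [h1]⟩
  · rw [map_add]
    generalize τ a = s
    generalize τ b = t
    have h : ∀ s : ZMod 2, s = 0 ∨ s = 1 := by decide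
    have h1 : (1 : ZMod 2) + 1 = 0 := by decide
    rcases h s with rfl | rfl <;> rcases h t with rfl | rfl <;> simp [h1]
  · have := Algebra.trace_eq_of_algEquiv
      (FiniteField.frobeniusAlgEquivOfAlgebraic (ZMod 2) (GaloisField 2 e)) a
    rw [FiniteField.coe_frobeniusAlgEquivOfAlgebraic, ZMod.card] at this
    simp only [τ, this]

theorem main (n : ℕ) (hn : 32 ≤ n) :
    ∃ (d : ℕ) (v : Fin n → EuclideanSpace ℝ (Fin d)), (∀ i, ‖v i‖ = 1) ∧
      (∀ I : Finset (Fin n), I.card = 4 → ∃ i ∈ I, ∃ j ∈ I, i ≠ j ∧ inner ℝ (v i) (v j) = 0) ∧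
      1 / 1024 * (n : ℝ) ^ (7 / 10 : ℝ) ≤ ‖∑ i, v i‖ := by
  classical
  obtain ⟨e, he, h1, h2⟩ : ∃ e : ℕ, Odd e ∧ (2 ^ e) ^ 5 ≤ n ∧ n ≤ (4 * 2 ^ e) ^ 5 := by
    have a1 := Nat.pow_log_le_self 1024 (show n / 32 ≠ 0 by omega)
    have a2 := Nat.lt_pow_succ_log_self (show 1 < 1024 by norm_num) (n / 32)
    refine ⟨2 * Nat.log 1024 (n / 32) + 1, odd_two_mul_add_one _, ?_, ?_⟩
    all_goals
      have a3 : ∀ j : ℕ, (2 ^ (2 * j + 1)) ^ 5 = 32 * 1024 ^ j := fun j => by
        rw [show 1024 = 2 ^ 10 by norm_num, ← pow_mul, ← pow_mul]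
        ring
      simp only [mul_pow, a3, Nat.succ_eq_add_one, pow_succ 1024] at a2 ⊢
      omega
  obtain ⟨ψ, h⟩ := exists_ch he
  let _ := Fintype.ofFinite (GaloisField 2 e)
  have hc : Fintype.card (GaloisField 2 e) = 2 ^ e := by
    rw [← Nat.card_eq_fintype_card, GaloisField.card 2 e he.pos.ne']
  refine (good h).out (by norm_num) ?_ ?_
  · simp only [Fintype.card_prod, hc]
    exact le_of_eq_of_le (by ring) h1
  · rw [hc]
    generalize 2 ^ e = q at h2
    have h3 : (n : ℝ) ≤ (4 * q) ^ 5 := by exact_mod_cast h2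
    have h4 : (n : ℝ) ^ (7 / 5 : ℝ) ≤ ((4 * q : ℝ) ^ 5) ^ (7 / 5 : ℝ) :=
      Real.rpow_le_rpow (by positivity) h3 (by norm_num)
    have e1 : ((4 * q : ℝ) ^ 5) ^ (7 / 5 : ℝ) = (4 * q) ^ 7 := by
      rw [← Real.rpow_natCast, ← Real.rpow_mul (by positivity), ← Real.rpow_natCast]
      norm_num
    have e2 : ((n : ℝ) ^ (7 / 10 : ℝ)) ^ 2 = (n : ℝ) ^ (7 / 5 : ℝ) := by
      rw [← Real.rpow_natCast, ← Real.rpow_mul (by positivity)]
      norm_num
    rw [mul_pow, e2]
    rw [e1] at h4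
    linarith

end Pool.Agent.P.MP_ac2766_co.Hx
end
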