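import Mathlib

-- part Pool.Agent.P.MP_ac2766_co.Hyper
section

namespace Pool.Agent.P.MP_ac2766_co

open Finset

lemma choose_two_mul_le (r l : ℕ) : (2 * r).choose (2 * l) ≤ r.choose l * (2 * r) ^ l := by
  induction l with
  | zero => simp
  | succ l ih =>
    have h1 : (2 * r).choose (2 * l + 1) * (2 * l + 1) = (2 * r).choose (2 * l) * (2 * r - 2 * l) :=
      Nat.choose_succ_right_eq _ _
    have h2 : (2 * r).choose (2 * l + 1 + 1) * (2 * l + 1 + 1) =
        (2 * r).choose (2 * l + 1) * (2 * r - (2 * l + 1)) := Nat.choose_succ_right_eq _ _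
    have h3 : r.choose (l + 1) * (l + 1) = r.choose l * (r - l) := Nat.choose_succ_right_eq _ _
    have h4 : 2 * r - 2 * l = 2 * (r - l) := by omega
    have key : (2 * r).choose (2 * (l + 1)) * (2 * (l + 1)) ≤
        r.choose (l + 1) * (2 * r) ^ (l + 1) * (2 * (l + 1)) := by
      calc (2 * r).choose (2 * (l + 1)) * (2 * (l + 1))
          = (2 * r).choose (2 * l + 1) * (2 * r - (2 * l + 1)) := h2
        _ ≤ ((2 * r).choose (2 * l + 1) * (2 * l + 1)) * (2 * r) := by
            rw [mul_assoc]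
            apply Nat.mul_le_mul_left
            calc 2 * r - (2 * l + 1) ≤ 1 * (2 * r) := by omega
              _ ≤ (2 * l + 1) * (2 * r) := Nat.mul_le_mul_right _ (by omega)
        _ = (2 * r).choose (2 * l) * (2 * (r - l)) * (2 * r) := by rw [h1, h4]
        _ ≤ (r.choose l * (2 * r) ^ l) * (2 * (r - l)) * (2 * r) := by gcongr
        _ = (r.choose l * (r - l)) * (2 * r) ^ (l + 1) * 2 := by ring
        _ = r.choose (l + 1) * (2 * r) ^ (l + 1) * (2 * (l + 1)) := by rw [← h3]; ring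
    exact Nat.le_of_mul_le_mul_right key (by omega)

lemma sum_range_even_odd (f : ℕ → ℝ) (r : ℕ) :
    ∑ j ∈ range (2 * r + 1), f j = ∑ l ∈ range (r + 1), f (2 * l) + ∑ l ∈ range r, f (2 * l + 1) := by
  induction r with
  | zero => simp
  | succ r ih =>
    rw [show 2 * (r + 1) + 1 = 2 * r + 1 + 1 + 1 by ring, sum_range_succ, sum_range_succ, ih,
      sum_range_succ _ (r + 1), sum_range_succ (fun l => f (2 * l + 1)) r]
    rw [show 2 * r + 1 + 1 = 2 * (r + 1) by ring]
    ring

lemma two_point (r : ℕ) (e d : ℝ) :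
    (e + d) ^ (2 * r) + (e - d) ^ (2 * r) ≤ 2 * (e ^ 2 + 2 * r * d ^ 2) ^ r := by
  have h1 : (e + d) ^ (2 * r) + (e - d) ^ (2 * r) =
      ∑ j ∈ range (2 * r + 1),
        (d ^ j + (-d) ^ j) * e ^ (2 * r - j) * ((2 * r).choose j : ℝ) := by
    rw [sub_eq_add_neg, add_comm e d, add_comm e (-d), add_pow, add_pow, ← sum_add_distrib]
    exact sum_congr rfl fun j _ => by ring
  rw [h1, sum_range_even_odd]
  have h2 : ∑ l ∈ range r, (d ^ (2 * l + 1) + (-d) ^ (2 * l + 1)) * e ^ (2 * r - (2 * l + 1)) *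
      ((2 * r).choose (2 * l + 1) : ℝ) = 0 := by
    refine sum_eq_zero fun l _ => ?_
    rw [Odd.neg_pow ⟨l, rfl⟩]
    ring
  rw [h2, add_zero, add_comm (e ^ 2), add_pow, mul_sum]
  refine sum_le_sum fun l hl => ?_
  have hl' : l ≤ r := Nat.lt_succ_iff.1 (mem_range.1 hl)
  have h3 : ((2 * r).choose (2 * l) : ℝ) ≤ r.choose l * (2 * r) ^ l := by
    exact_mod_cast choose_two_mul_le r l
  rw [Even.neg_pow (even_two_mul l), show 2 * r - 2 * l = 2 * (r - l) by omega, pow_mul, pow_mul,
    mul_pow]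
  have h4 : 0 ≤ (d ^ 2) ^ l * (e ^ 2) ^ (r - l) := by positivity
  nlinarith [mul_le_mul_of_nonneg_left h3 h4]

lemma minkowski {α : Type*} (s : Finset α) (u v : α → ℝ) (hu : ∀ x, 0 ≤ u x) (hv : ∀ x, 0 ≤ v x)
    {r : ℕ} (hr : 1 ≤ r) {c E D : ℝ} (hE : 0 ≤ E) (hD : 0 ≤ D)
    (h1 : ∑ x ∈ s, u x ^ r ≤ c * E ^ r) (h2 : ∑ x ∈ s, v x ^ r ≤ c * D ^ r) :
    ∑ x ∈ s, (u x + v x) ^ r ≤ c * (E + D) ^ r := by
  have hr0 : r ≠ 0 := by omega
  rcases hE.eq_or_lt with rfl | hE
  · rw [zero_pow hr0, mul_zero] at h1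
    have h3 : ∀ x ∈ s, u x ^ r = 0 :=
      (sum_eq_zero_iff_of_nonneg fun x _ => pow_nonneg (hu x) r).1
        (le_antisymm h1 (sum_nonneg fun x _ => pow_nonneg (hu x) r))
    rw [zero_add]
    refine le_trans (le_of_eq (sum_congr rfl fun x hx => ?_)) h2
    rw [pow_eq_zero_iff hr0 |>.1 (h3 x hx), zero_add]
  rcases hD.eq_or_lt with rfl | hD
  · rw [zero_pow hr0, mul_zero] at h2
    have h3 : ∀ x ∈ s, v x ^ r = 0 :=
      (sum_eq_zero_iff_of_nonneg fun x _ => pow_nonneg (hv x) r).1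
        (le_antisymm h2 (sum_nonneg fun x _ => pow_nonneg (hv x) r))
    rw [add_zero]
    refine le_trans (le_of_eq (sum_congr rfl fun x hx => ?_)) h1
    rw [pow_eq_zero_iff hr0 |>.1 (h3 x hx), add_zero]
  have hS : 0 < E + D := add_pos hE hD
  have key : ∀ x, (u x + v x) ^ r ≤
      (E + D) ^ r * (E / (E + D) / E ^ r * u x ^ r + D / (E + D) / D ^ r * v x ^ r) := by
    intro x
    have hc := (convexOn_pow (𝕜 := ℝ) r).2
      (div_nonneg (hu x) hE.le) (div_nonneg (hv x) hD.le)
      (div_nonneg hE.le hS.le) (div_nonneg hD.le hS.le) (by field_simp)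
    simp only [smul_eq_mul] at hc
    have h3 : u x + v x = (E + D) * (E / (E + D) * (u x / E) + D / (E + D) * (v x / D)) := by
      field_simp
    rw [h3, mul_pow]
    apply mul_le_mul_of_nonneg_left _ (pow_nonneg hS.le r)
    refine hc.trans (le_of_eq ?_)
    rw [div_pow, div_pow]
    ring
  refine (sum_le_sum fun x _ => key x).trans ?_
  rw [← mul_sum, sum_add_distrib, ← mul_sum, ← mul_sum, mul_comm c]
  apply mul_le_mul_of_nonneg_left _ (pow_nonneg hS.le r)
  have hEr : 0 < E ^ r := pow_pos hE r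
  have hDr : 0 < D ^ r := pow_pos hD r
  calc E / (E + D) / E ^ r * ∑ x ∈ s, u x ^ r + D / (E + D) / D ^ r * ∑ x ∈ s, v x ^ r
      ≤ E / (E + D) / E ^ r * (c * E ^ r) + D / (E + D) / D ^ r * (c * D ^ r) := by
        gcongr
    _ = c := by field_simp

variable {ι : Type*} [DecidableEq ι]

/-- the sign of coordinate `i` of the cube point `x`. -/
def sg (x : Finset ι) (i : ι) : ℝ := if i ∈ x then -1 else 1

/-- the character. -/
def chi (S x : Finset ι) : ℝ := ∏ i ∈ S, sg x i

lemma chi_insert_left {S : Finset ι} {i : ι} (hi : i ∉ S) (x : Finset ι) :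
    chi (insert i S) x = sg x i * chi S x := prod_insert hi

lemma chi_insert_right {S : Finset ι} {i : ι} (hi : i ∉ S) (x : Finset ι) :
    chi S (insert i x) = chi S x := by
  refine prod_congr rfl fun j hj => ?_
  have : j ≠ i := fun h => hi (h ▸ hj)
  simp [sg, this]

theorem hyper {r : ℕ} (hr : 1 ≤ r) (U : Finset ι) (a : Finset ι → ℝ) :
    ∑ x ∈ U.powerset, (∑ S ∈ U.powerset, a S * chi S x) ^ (2 * r) ≤
      2 ^ U.card * (∑ S ∈ U.powerset, (2 * r : ℝ) ^ S.card * a S ^ 2) ^ r := by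
  induction U using Finset.induction_on generalizing a with
  | empty => simp [chi, pow_mul]
  | insert i U hi ih =>
    set e : Finset ι → ℝ := fun x => ∑ S ∈ U.powerset, a S * chi S x with he
    set d : Finset ι → ℝ := fun x => ∑ S ∈ U.powerset, a (insert i S) * chi S x with hd
    have hnot : ∀ S ∈ U.powerset, i ∉ S := fun S hS h => hi (mem_powerset.1 hS h)
    have h1 : ∀ x ∈ U.powerset, ∑ S ∈ (insert i U).powerset, a S * chi S x = e x + d x := by
      intro x hx
      rw [sum_powerset_insert hi]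
      congr 1
      refine sum_congr rfl fun S hS => ?_
      rw [chi_insert_left (hnot S hS)]
      simp [sg, hnot x hx]
    have h2 : ∀ x ∈ U.powerset,
        ∑ S ∈ (insert i U).powerset, a S * chi S (insert i x) = e x - d x := by
      intro x _
      rw [sum_powerset_insert hi, sub_eq_add_neg, hd, ← sum_neg_distrib]
      congr 1
      · exact sum_congr rfl fun S hS => by rw [chi_insert_right (hnot S hS)]
      · refine sum_congr rfl fun S hS => ?_
        rw [chi_insert_left (hnot S hS), chi_insert_right (hnot S hS)]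
        simp [sg]
    have h12 : ∑ x ∈ (insert i U).powerset, (∑ S ∈ (insert i U).powerset, a S * chi S x) ^ (2 * r)
        = ∑ x ∈ U.powerset, ((e x + d x) ^ (2 * r) + (e x - d x) ^ (2 * r)) := by
      rw [sum_powerset_insert hi
        (f := fun x => (∑ S ∈ (insert i U).powerset, a S * chi S x) ^ (2 * r)), ← sum_add_distrib]
      exact sum_congr rfl fun x hx => by rw [h1 x hx, h2 x hx]
    rw [h12]
    refine (sum_le_sum fun x _ => two_point r (e x) (d x)).trans ?_
    rw [← mul_sum, card_insert_of_notMem hi, pow_succ, mul_comm _ (2 : ℝ), mul_assoc]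
    apply mul_le_mul_of_nonneg_left _ (by norm_num)
    rw [sum_powerset_insert hi]
    apply minkowski _ (fun x => e x ^ 2) (fun x => 2 * r * d x ^ 2) (fun x => by positivity)
      (fun x => by positivity) hr (sum_nonneg fun S _ => by positivity)
      (sum_nonneg fun S _ => by positivity)
    · simpa only [← pow_mul] using ih a
    · have h3 := ih (fun S => a (insert i S))
      have h4 : ∑ S ∈ U.powerset, (2 * r : ℝ) ^ (insert i S).card * a (insert i S) ^ 2 =
          2 * r * ∑ S ∈ U.powerset, (2 * r : ℝ) ^ S.card * a (insert i S) ^ 2 := by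
        rw [mul_sum]
        refine sum_congr rfl fun S hS => ?_
        rw [card_insert_of_notMem (hnot S hS)]
        ring
      rw [h4, mul_pow (2 * r : ℝ), mul_left_comm]
      simp only [mul_pow (2 * r : ℝ), ← mul_sum, ← pow_mul]
      exact mul_le_mul_of_nonneg_left h3 (by positivity)

end Pool.Agent.P.MP_ac2766_co
end

-- part Pool.Agent.P.MP_ac2766_co.Fourier
section

namespace Pool.Agent.P.MP_ac2766_co

open Finset

variable {ι : Type*} [DecidableEq ι]

lemma sg_mul_self (x : Finset ι) (i : ι) : sg x i * sg x i = 1 := by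
  unfold sg; split_ifs <;> norm_num

lemma chi_mul_self (S x : Finset ι) : chi S x * chi S x = 1 := by
  unfold chi
  rw [← prod_mul_distrib]
  exact prod_eq_one fun i _ => sg_mul_self x i

lemma chi_eq (S x : Finset ι) : chi S x = (-1) ^ (S ∩ x).card := by
  unfold chi sg
  rw [prod_ite, prod_const, prod_const_one, mul_one, filter_mem_eq_inter]

lemma chi_comm (S x : Finset ι) : chi S x = chi x S := by
  rw [chi_eq, chi_eq, inter_comm]

lemma chi_empty (x : Finset ι) : chi ∅ x = 1 := by simp [chi]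

lemma sg_symmDiff (x y : Finset ι) (i : ι) : sg (symmDiff x y) i = sg x i * sg y i := by
  unfold sg
  by_cases hx : i ∈ x <;> by_cases hy : i ∈ y <;> simp [mem_symmDiff, hx, hy]

lemma chi_symmDiff (S x y : Finset ι) : chi S (symmDiff x y) = chi S x * chi S y := by
  unfold chi
  rw [← prod_mul_distrib]
  exact prod_congr rfl fun i _ => sg_symmDiff x y i

/-- unnormalised Fourier coefficient of a set of cube points. -/
def hat (A : Finset (Finset ι)) (S : Finset ι) : ℝ := ∑ x ∈ A, chi S x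

lemma hat_empty (A : Finset (Finset ι)) : hat A ∅ = A.card := by simp [hat, chi_empty]

variable [Fintype ι]

/-- inner product of two sign vectors. -/
def ip (x y : Finset ι) : ℝ := ∑ i, sg x i * sg y i

lemma ip_comm (x y : Finset ι) : ip x y = ip y x := sum_congr rfl fun _ _ => mul_comm _ _

lemma ip_self (x : Finset ι) : ip x x = Fintype.card ι := by
  simp [ip, sg_mul_self]

lemma sum_chi_mul (x y : Finset ι) :
    ∑ S, chi S x * chi S y = if x = y then 2 ^ Fintype.card ι else 0 := by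
  have h1 : ∑ S, chi S x * chi S y = ∏ i, (1 + sg x i * sg y i) := by
    rw [prod_one_add, powerset_univ]
    refine sum_congr rfl fun S _ => ?_
    unfold chi
    rw [prod_mul_distrib]
  rw [h1]
  split_ifs with h
  · subst h
    simp only [sg_mul_self]
    rw [prod_const, card_univ]
    norm_num
  · obtain ⟨i, hi⟩ : ∃ i, ¬ (i ∈ x ↔ i ∈ y) := by
      by_contra hc
      push Not at hc
      exact h (Finset.ext hc)
    refine prod_eq_zero (mem_univ i) ?_
    unfold sg
    by_cases hx : i ∈ x <;> by_cases hy : i ∈ y <;> simp_all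

lemma parseval (A : Finset (Finset ι)) :
    ∑ S, hat A S ^ 2 = 2 ^ Fintype.card ι * A.card := by
  have h1 : ∀ S, hat A S ^ 2 = ∑ x ∈ A, ∑ y ∈ A, chi S x * chi S y := by
    intro S
    rw [sq, hat, sum_mul_sum]
  simp only [h1]
  rw [sum_comm]
  have h2 : ∀ x ∈ A, ∑ S, ∑ y ∈ A, chi S x * chi S y = 2 ^ Fintype.card ι := by
    intro x hx
    rw [sum_comm]
    simp only [sum_chi_mul]
    rw [sum_ite_eq, if_pos hx]
  rw [sum_congr rfl h2, sum_const, nsmul_eq_mul, mul_comm]

lemma level_bound (A : Finset (Finset ι)) {L r j : ℕ} (hr : 1 ≤ r) (hL : L ≤ j * r)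
    (hA : (2 : ℝ) ^ Fintype.card ι ≤ 2 ^ L * A.card) :
    ∑ S with S.card = j, hat A S ^ 2 ≤ (A.card : ℝ) ^ 2 * (4 * r) ^ j := by
  set W : ℝ := ∑ S with S.card = j, hat A S ^ 2 with hW
  have hW0 : 0 ≤ W := sum_nonneg fun S _ => sq_nonneg _
  set a : Finset ι → ℝ := fun S => if S.card = j then hat A S else 0 with ha
  set h : Finset ι → ℝ := fun x => ∑ S, a S * chi S x with hh
  have h1 : ∑ x ∈ A, h x = W := by
    rw [hh, sum_comm, hW, sum_filter]
    refine sum_congr rfl fun S _ => ?_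
    rw [← mul_sum]
    simp only [ha]
    split_ifs
    · rw [sq]; rfl
    · rw [zero_mul]
  have h2 := hyper hr (univ : Finset ι) a
  rw [powerset_univ, card_univ] at h2
  have h3 : ∑ S : Finset ι, (2 * r : ℝ) ^ S.card * a S ^ 2 = (2 * r) ^ j * W := by
    rw [hW, sum_filter, mul_sum]
    refine sum_congr rfl fun S _ => ?_
    simp only [ha]
    split_ifs with hS
    · rw [hS]
    · simp
  rw [h3] at h2
  obtain ⟨q, hq⟩ : ∃ q, 2 * r = q + 1 := ⟨2 * r - 1, by omega⟩
  have h4 : W ^ (2 * r) ≤ (A.card : ℝ) ^ q * ∑ x, h x ^ (2 * r) := by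
    calc W ^ (2 * r) ≤ (∑ x ∈ A, |h x|) ^ (2 * r) := by
          apply pow_le_pow_left₀ hW0
          rw [← h1]
          exact sum_le_sum fun x _ => le_abs_self _
      _ ≤ (A.card : ℝ) ^ q * ∑ x ∈ A, |h x| ^ (2 * r) := by
          rw [hq]
          exact pow_sum_le_card_mul_sum_pow (fun x _ => abs_nonneg _) q
      _ ≤ (A.card : ℝ) ^ q * ∑ x, h x ^ (2 * r) := by
          apply mul_le_mul_of_nonneg_left _ (by positivity)
          simp only [(even_two_mul r).pow_abs]
          exact sum_le_sum_of_subset_of_nonneg (subset_univ _)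
            fun x _ _ => (even_two_mul r).pow_nonneg _
  rcases hW0.eq_or_lt with h0 | hWpos
  · rw [← h0]; positivity
  have h5 : (2 : ℝ) ^ L ≤ 2 ^ (j * r) := pow_le_pow_right₀ (by norm_num) hL
  have h6 : W ^ r * W ^ r ≤ ((A.card : ℝ) ^ 2 * (4 * r) ^ j) ^ r * W ^ r := by
    calc W ^ r * W ^ r = W ^ (2 * r) := by rw [two_mul, pow_add]
      _ ≤ (A.card : ℝ) ^ q * (2 ^ Fintype.card ι * ((2 * r) ^ j * W) ^ r) :=
          h4.trans (mul_le_mul_of_nonneg_left h2 (by positivity))
      _ ≤ (A.card : ℝ) ^ q * ((2 ^ (j * r) * A.card) * ((2 * r) ^ j * W) ^ r) := by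
          gcongr
          exact hA.trans (by gcongr)
      _ = (A.card : ℝ) ^ (q + 1) * (2 ^ j * (2 * r) ^ j) ^ r * W ^ r := by
          rw [mul_pow _ W, mul_pow (2 ^ j : ℝ), pow_mul]; ring
      _ = ((A.card : ℝ) ^ 2 * (4 * r) ^ j) ^ r * W ^ r := by
          have h8 : (2 ^ j * (2 * r) ^ j : ℝ) = (4 * r) ^ j := by
            rw [← mul_pow]; congr 1; ring
          rw [← hq, h8, mul_pow ((A.card : ℝ) ^ 2), ← pow_mul (A.card : ℝ)]
  have h7 := le_of_mul_le_mul_right h6 (pow_pos hWpos r)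
  exact (pow_le_pow_iff_left₀ hW0 (by positivity) (by omega)).1 h7

/-- balanced points. -/
noncomputable def bal (ι : Type*) [DecidableEq ι] [Fintype ι] : Finset (Finset ι) :=
  univ.filter fun z => ∑ i, sg z i = 0

/-- number of orthogonal pairs. -/
noncomputable def pairs (A B : Finset (Finset ι)) : ℝ :=
  ∑ x ∈ A, ((B.filter fun y => ip x y = 0).card : ℝ)

lemma pairs_eq (A B : Finset (Finset ι)) :
    2 ^ Fintype.card ι * pairs A B = ∑ S, hat (bal ι) S * hat A S * hat B S := by
  have h1 : ∀ S, hat (bal ι) S * hat A S * hat B S =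
      ∑ x ∈ A, ∑ y ∈ B, ∑ z ∈ bal ι, chi S z * chi S (symmDiff x y) := by
    intro S
    rw [mul_assoc, hat, hat, hat, sum_mul_sum A B, mul_sum]
    refine sum_congr rfl fun x _ => ?_
    rw [mul_sum]
    refine sum_congr rfl fun y _ => ?_
    rw [sum_mul, chi_symmDiff]
  simp only [h1]
  rw [sum_comm, pairs, mul_sum]
  refine sum_congr rfl fun x _ => ?_
  rw [sum_comm, card_filter, Nat.cast_sum, mul_sum]
  refine sum_congr rfl fun y _ => ?_
  rw [sum_comm]
  simp only [sum_chi_mul]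
  rw [sum_ite_eq']
  have h2 : symmDiff x y ∈ bal ι ↔ ip x y = 0 := by
    simp [bal, ip, sg_symmDiff]
  by_cases h : ip x y = 0
  · simp [h, h2.2 h]
  · simp [h, mt h2.1 h]

omit [Fintype ι] in
lemma sg_map (e : Equiv.Perm ι) (z : Finset ι) (i : ι) :
    sg (z.map e.toEmbedding) (e i) = sg z i := by
  simp [sg]

lemma hat_bal_congr {S T : Finset ι} (h : S.card = T.card) : hat (bal ι) S = hat (bal ι) T := by
  obtain ⟨e, rfl⟩ := Equiv.Perm.exists_map_finset_eq S T h
  unfold hat
  refine sum_equiv e.finsetCongr (fun z => ?_) (fun z _ => ?_)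
  · simp only [bal, mem_filter, mem_univ, true_and, Equiv.finsetCongr_apply]
    rw [← Equiv.sum_comp e (fun i => sg (z.map e.toEmbedding) i)]
    simp only [sg_map]
  · simp only [chi, Equiv.finsetCongr_apply, prod_map, Equiv.coe_toEmbedding, sg_map]

lemma hat_bal_identity (S : Finset ι) :
    ∑ i ∈ S, hat (bal ι) (S.erase i) + ∑ i ∈ Sᶜ, hat (bal ι) (insert i S) = 0 := by
  unfold hat
  rw [sum_comm, sum_comm (s := Sᶜ), ← sum_add_distrib]
  refine sum_eq_zero fun z hz => ?_
  have h1 : ∑ i, sg z i = 0 := (mem_filter.1 hz).2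
  have h2 : ∀ i ∈ S, chi (S.erase i) z = sg z i * chi S z := by
    intro i hi
    have := chi_insert_left (notMem_erase i S) z
    rw [insert_erase hi] at this
    rw [this, ← mul_assoc, sg_mul_self, one_mul]
  have h3 : ∀ i ∈ Sᶜ, chi (insert i S) z = sg z i * chi S z :=
    fun i hi => chi_insert_left (mem_compl.1 hi) z
  rw [sum_congr rfl h2, sum_congr rfl h3, ← sum_mul, ← sum_mul, ← add_mul, sum_add_sum_compl, h1,
    zero_mul]

lemma hat_bal_one {T : Finset ι} (hT : T.card = 1) : hat (bal ι) T = 0 := by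
  have h := hat_bal_identity (∅ : Finset ι)
  rw [sum_empty, zero_add, sum_congr rfl (g := fun _ => hat (bal ι) T)
    (fun i _ => hat_bal_congr (by simp [hT])), sum_const, nsmul_eq_mul] at h
  have h2 : 0 < Fintype.card ι := by have := card_le_univ T; omega
  rcases mul_eq_zero.1 h with h | h
  · simp only [compl_empty, card_univ, Nat.cast_eq_zero] at h
    omega
  · exact h

lemma hat_bal_rec {j : ℕ} {T : Finset ι} (hT : T.card = j + 2) :
    ∃ R : Finset ι, R.card = j ∧
      ((Fintype.card ι : ℝ) - (j + 1)) * hat (bal ι) T = -((j + 1) * hat (bal ι) R) := by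
  obtain ⟨S, -, hS⟩ := exists_subset_card_eq (s := T) (n := j + 1) (by omega)
  obtain ⟨R, -, hR⟩ := exists_subset_card_eq (s := T) (n := j) (by omega)
  refine ⟨R, hR, ?_⟩
  have h := hat_bal_identity S
  rw [sum_congr rfl (g := fun _ => hat (bal ι) R)
      (fun i hi => hat_bal_congr (by rw [card_erase_of_mem hi, hS, hR]; rfl)),
    sum_congr (s₁ := Sᶜ) rfl (g := fun _ => hat (bal ι) T)
      (fun i hi => hat_bal_congr (by rw [card_insert_of_notMem (mem_compl.1 hi), hS, hT])),
    sum_const, sum_const, nsmul_eq_mul, nsmul_eq_mul, card_compl, hS,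
    Nat.cast_sub (hS ▸ card_le_univ S)] at h
  push_cast at h
  linarith

lemma hat_bal_odd (i : ℕ) : ∀ T : Finset ι, T.card = 2 * i + 1 → hat (bal ι) T = 0 := by
  induction i with
  | zero => exact fun T hT => hat_bal_one hT
  | succ i ih =>
    intro T hT
    obtain ⟨R, hR, h⟩ := hat_bal_rec (j := 2 * i + 1) (T := T) (by omega)
    rw [ih R hR, mul_zero, neg_zero] at h
    have h1 : ((2 * i + 1 + 2 : ℕ) : ℝ) ≤ Fintype.card ι := by
      exact_mod_cast (show 2 * i + 1 + 2 = T.card by omega) ▸ card_le_univ T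
    rcases mul_eq_zero.1 h with h | h
    · push_cast at h h1
      linarith
    · exact h

lemma hat_bal_even (i : ℕ) : ∀ T : Finset ι, T.card = 2 * i → 4 * i ≤ Fintype.card ι →
    ∀ L ≤ i, |hat (bal ι) T| ≤ (bal ι).card * (4 * L / Fintype.card ι : ℝ) ^ L := by
  induction i with
  | zero =>
    intro T hT _ L hL
    rw [Nat.le_zero.1 hL, card_eq_zero.1 hT, hat_empty]
    simp
  | succ i ih =>
    intro T hT hm L hL
    obtain ⟨R, hR, h⟩ := hat_bal_rec (j := 2 * i) (T := T) (by omega)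
    have hm' : (4 * (i + 1) : ℝ) ≤ Fintype.card ι := by exact_mod_cast hm
    have hi0 : (0 : ℝ) ≤ i := Nat.cast_nonneg i
    push_cast at h
    have hpos : (0 : ℝ) < Fintype.card ι - (2 * i + 1) := by linarith
    have hmpos : (0 : ℝ) < Fintype.card ι := by linarith
    have habs : ((Fintype.card ι : ℝ) - (2 * i + 1)) * |hat (bal ι) T| =
        (2 * i + 1) * |hat (bal ι) R| := by
      have := congrArg abs h
      rwa [abs_neg, abs_mul, abs_mul, abs_of_pos hpos,
        abs_of_pos (a := (2 * i + 1 : ℝ)) (by linarith)] at this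
    have hT0 := abs_nonneg (hat (bal ι) T)
    have hR0 := abs_nonneg (hat (bal ι) R)
    rcases Nat.lt_or_ge L (i + 1) with hlt | hge
    · refine le_trans ?_ (ih R hR (by omega) L (by omega))
      apply le_of_mul_le_mul_left _ hpos
      rw [habs]
      apply mul_le_mul_of_nonneg_right _ hR0
      linarith
    · have hL' : L = i + 1 := by omega
      subst hL'
      have h1 := ih R hR (by omega) i le_rfl
      have h2 : |hat (bal ι) T| ≤ 4 * (i + 1) / Fintype.card ι * |hat (bal ι) R| := by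
        rw [div_mul_eq_mul_div, le_div_iff₀ hmpos]
        nlinarith
      have h3 : (4 * i / Fintype.card ι : ℝ) ^ i ≤ (4 * (i + 1) / Fintype.card ι : ℝ) ^ i := by
        gcongr
        linarith
      push_cast
      calc |hat (bal ι) T| ≤ 4 * (i + 1) / Fintype.card ι * |hat (bal ι) R| := h2
        _ ≤ 4 * (i + 1) / Fintype.card ι *
            ((bal ι).card * (4 * (i + 1) / Fintype.card ι : ℝ) ^ i) := by
          gcongr
          exact h1.trans (by gcongr)
        _ = _ := by ring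

lemma hat_compl {A : Finset (Finset ι)} (hA : ∀ x ∈ A, chi univ x = 1) (S : Finset ι) :
    hat A Sᶜ = hat A S := by
  refine sum_congr rfl fun x hx => ?_
  have h1 : chi S x * chi Sᶜ x = 1 := by
    rw [← hA x hx]
    exact prod_mul_prod_compl S _
  calc chi Sᶜ x = chi S x * chi S x * chi Sᶜ x := by rw [chi_mul_self, one_mul]
    _ = chi S x := by rw [mul_assoc, h1, mul_one]

lemma sum_sg (z : Finset ι) : ∑ i, sg z i = Fintype.card ι - 2 * (z.card : ℝ) := by
  have : ∀ i, sg z i = 1 - 2 * (if i ∈ z then 1 else 0) := by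
    intro i; unfold sg; split_ifs <;> norm_num
  simp only [this]
  rw [sum_sub_distrib, ← mul_sum]
  simp

lemma mem_bal {h : ℕ} (hm : Fintype.card ι = 2 * h) (z : Finset ι) : z ∈ bal ι ↔ z.card = h := by
  simp only [bal, mem_filter, mem_univ, true_and, sum_sg, hm]
  push_cast
  constructor
  · intro h1
    have : (z.card : ℝ) = h := by linarith
    exact_mod_cast this
  · intro h1
    rw [h1]; ring

lemma card_bal {h : ℕ} (hm : Fintype.card ι = 2 * h) : (bal ι).card = Nat.centralBinom h := by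
  have : bal ι = powersetCard h univ := by
    ext z
    simp [mem_bal hm, mem_powersetCard]
  rw [this, card_powersetCard, card_univ, hm, Nat.centralBinom]

lemma chi_univ_bal {h : ℕ} (hm : Fintype.card ι = 2 * (2 * h)) :
    ∀ z ∈ bal ι, chi univ z = 1 := by
  intro z hz
  rw [chi_eq, univ_inter, (mem_bal hm z).1 hz, pow_mul]
  norm_num

lemma centralBinom_sq (n : ℕ) (hn : 1 ≤ n) : 16 ^ n ≤ 4 * n * Nat.centralBinom n ^ 2 := by
  induction n, hn using Nat.le_induction with
  | base => simp [Nat.centralBinom]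
  | succ n hn ih =>
    have h := Nat.succ_mul_centralBinom_succ n
    have key : 16 ^ (n + 1) * (n + 1) ≤ 4 * (n + 1) * Nat.centralBinom (n + 1) ^ 2 * (n + 1) := by
      calc 16 ^ (n + 1) * (n + 1) = 16 * (n + 1) * 16 ^ n := by ring
        _ ≤ 16 * (n + 1) * (4 * n * Nat.centralBinom n ^ 2) := by gcongr
        _ = 16 * (4 * n * (n + 1)) * Nat.centralBinom n ^ 2 := by ring
        _ ≤ 16 * ((2 * n + 1) ^ 2) * Nat.centralBinom n ^ 2 := by gcongr; nlinarith
        _ = 4 * (2 * (2 * n + 1) * Nat.centralBinom n) ^ 2 := by ring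
        _ = 4 * (n + 1) * Nat.centralBinom (n + 1) ^ 2 * (n + 1) := by rw [← h]; ring
    exact Nat.le_of_mul_le_mul_right key (by omega)

end Pool.Agent.P.MP_ac2766_co
end

-- part Pool.Agent.P.MP_ac2766_co.Supersat
section

namespace Pool.Agent.P.MP_ac2766_co

open Finset

lemma cauchy {α : Type*} (s : Finset α) (a b : α → ℝ) {x y w : ℝ} (hx : 0 ≤ x) (hy : 0 ≤ y)
    (hw : 0 ≤ w) (ha : ∑ i ∈ s, a i ^ 2 ≤ x ^ 2 * w) (hb : ∑ i ∈ s, b i ^ 2 ≤ y ^ 2 * w) :
    ∑ i ∈ s, |a i| * |b i| ≤ x * y * w := by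
  have h := sum_mul_sq_le_sq_mul_sq s (fun i => |a i|) (fun i => |b i|)
  simp only [sq_abs] at h
  apply le_of_sq_le_sq _ (by positivity) |>.trans le_rfl
  calc (∑ i ∈ s, |a i| * |b i|) ^ 2 ≤ (∑ i ∈ s, a i ^ 2) * ∑ i ∈ s, b i ^ 2 := h
    _ ≤ (x ^ 2 * w) * (y ^ 2 * w) :=
        mul_le_mul ha hb (sum_nonneg fun i _ => sq_nonneg _) (by positivity)
    _ = (x * y * w) ^ 2 := by ring

lemma geom_bound (J : ℕ) : ∑ j ∈ Ico 1 J, (3 / 8 : ℝ) ^ j ≤ 3 / 5 := by
  have : ∀ J : ℕ, ∑ j ∈ Ico 1 (J + 1), (3 / 8 : ℝ) ^ j = 3 / 5 * (1 - (3 / 8) ^ J) := by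
    intro J
    induction J with
    | zero => simp
    | succ J ih => rw [sum_Ico_succ_top (by omega), ih]; ring
  rcases J with _ | J
  · simp; norm_num
  · rw [this]
    have : (0 : ℝ) ≤ (3 / 8) ^ J := by positivity
    linarith

variable {ι : Type*} [DecidableEq ι] [Fintype ι]

lemma sum_ge_of_compl (F : Finset ι → ℝ) (hF : ∀ S, F Sᶜ = F S) (hm : 0 < Fintype.card ι) :
    2 * F ∅ - 2 * ∑ S with (0 < S.card ∧ 2 * S.card ≤ Fintype.card ι), |F S| ≤ ∑ S, F S := by
  have key : ∀ T : Finset (Finset ι), ∅ ∈ T → (∀ S ∈ T, 2 * S.card ≤ Fintype.card ι) →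
      F ∅ - ∑ S with (0 < S.card ∧ 2 * S.card ≤ Fintype.card ι), |F S| ≤ ∑ S ∈ T, F S := by
    intro T hT hT2
    rw [← add_sum_erase T F hT]
    have h1 : ∑ S ∈ T.erase ∅, |F S| ≤
        ∑ S with (0 < S.card ∧ 2 * S.card ≤ Fintype.card ι), |F S| := by
      refine sum_le_sum_of_subset_of_nonneg (fun S hS => ?_) fun _ _ _ => abs_nonneg _
      rw [mem_erase] at hS
      exact mem_filter.2 ⟨mem_univ _, card_pos.2 (nonempty_iff_ne_empty.2 hS.1), hT2 S hS.2⟩
    have h2 : -∑ S ∈ T.erase ∅, |F S| ≤ ∑ S ∈ T.erase ∅, F S := by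
      rw [← sum_neg_distrib]
      exact sum_le_sum fun S _ => neg_abs_le _
    linarith
  rw [← sum_filter_add_sum_filter_not univ (fun S : Finset ι => 2 * S.card ≤ Fintype.card ι)]
  have h1 := key (univ.filter fun S : Finset ι => 2 * S.card ≤ Fintype.card ι) (by simp)
    (fun S hS => (mem_filter.1 hS).2)
  have h2 := key (univ.filter fun S : Finset ι => 2 * S.card < Fintype.card ι) (by simpa)
    (fun S hS => (mem_filter.1 hS).2.le)
  have h3 : ∑ S with (2 * S.card < Fintype.card ι), F S =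
      ∑ S with ¬ (2 * S.card ≤ Fintype.card ι), F S := by
    refine sum_bijective (fun S => Sᶜ) compl_bijective (fun S => ?_) (fun S _ => (hF S).symm)
    simp only [mem_filter, mem_univ, true_and, card_compl]
    have := card_le_univ S
    omega
  linarith

theorem supersat {L : ℕ} (hL : 1 ≤ L) (hm : Fintype.card ι = 1024 * L ^ 2)
    (A B : Finset (Finset ι)) (hA : ∀ x ∈ A, chi univ x = 1) (hB : ∀ x ∈ B, chi univ x = 1)
    (hA' : (2 : ℝ) ^ Fintype.card ι ≤ 2 ^ L * A.card)
    (hB' : (2 : ℝ) ^ Fintype.card ι ≤ 2 ^ L * B.card) :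
    (A.card : ℝ) * B.card ≤ 128 * L * pairs A B := by
  have hm2 : Fintype.card ι = 2 * (2 * (256 * L ^ 2)) := by rw [hm]; ring
  have hLpos : (0 : ℝ) < L := by exact_mod_cast hL
  have hL1 : (1 : ℝ) ≤ L := by exact_mod_cast hL
  have hmR : (Fintype.card ι : ℝ) = 1024 * L ^ 2 := by rw [hm]; push_cast; ring
  set c0 : ℝ := ((bal ι).card : ℝ) with hc0
  set a : ℝ := (A.card : ℝ) with ha
  set b : ℝ := (B.card : ℝ) with hb
  have hc0n : 0 ≤ c0 := Nat.cast_nonneg _
  have han : 0 ≤ a := Nat.cast_nonneg _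
  have hbn : 0 ≤ b := Nat.cast_nonneg _
  set F : Finset ι → ℝ := fun S => hat (bal ι) S * hat A S * hat B S with hF
  have hFc : ∀ S, F Sᶜ = F S := fun S => by
    simp only [hF, hat_compl hA, hat_compl hB, hat_compl (chi_univ_bal hm2)]
  have hF0 : F ∅ = c0 * a * b := by simp only [hF, hat_empty, hc0, ha, hb]
  have hFabs : ∀ S, |F S| = |hat (bal ι) S| * (|hat A S| * |hat B S|) := fun S => by
    simp only [hF, abs_mul, mul_assoc]
  have hlow : ∀ j ∈ Ico 1 (2 * L), ∑ S with S.card = j, |F S| ≤ c0 * a * b * (3 / 8) ^ j := by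
    intro j hj
    rw [mem_Ico] at hj
    rcases Nat.even_or_odd' j with ⟨i, rfl | rfl⟩
    · have hi : 1 ≤ i := by omega
      set r := L / (2 * i) + 1 with hr
      have hr1 : L ≤ 2 * i * r := by
        have := Nat.div_add_mod L (2 * i)
        have h2 := Nat.mod_lt L (show 0 < 2 * i by omega)
        rw [hr, mul_add]
        omega
      have hr2 : 2 * i * r ≤ 3 * L := by
        have := Nat.mul_div_le L (2 * i)
        rw [hr, mul_add]
        omega
      have h1 := level_bound A (r := r) (j := 2 * i) (Nat.le_add_left 1 _) hr1 hA'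
      have h2 := level_bound B (r := r) (j := 2 * i) (Nat.le_add_left 1 _) hr1 hB'
      have h3 := cauchy _ _ _ han hbn (by positivity) h1 h2
      have h4 : ∀ S ∈ univ.filter (fun S : Finset ι => S.card = 2 * i),
          |F S| ≤ c0 * (4 * i / Fintype.card ι : ℝ) ^ i * (|hat A S| * |hat B S|) := by
        intro S hS
        rw [hFabs]
        apply mul_le_mul_of_nonneg_right _ (by positivity)
        exact hat_bal_even i S (mem_filter.1 hS).2 (by rw [hm]; nlinarith) i le_rfl
      have h5 : (4 * i / Fintype.card ι : ℝ) * (4 * r) ^ 2 ≤ (3 / 8) ^ 2 := by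
        have hr2' : (2 * i * r : ℝ) ≤ 3 * L := by exact_mod_cast hr2
        have hi' : (1 : ℝ) ≤ i := by exact_mod_cast hi
        have hr0 : (0 : ℝ) ≤ r := Nat.cast_nonneg _
        rw [hmR, div_mul_eq_mul_div, div_le_iff₀ (by positivity)]
        have h6 : (2 * i * r : ℝ) ^ 2 ≤ (3 * L) ^ 2 := by gcongr
        have h7 : (i : ℝ) * r ^ 2 ≤ i * (i * r ^ 2) := by
          apply mul_le_mul_of_nonneg_left _ (by linarith)
          nlinarith [sq_nonneg (r : ℝ)]
        nlinarith
      calc ∑ S with S.card = 2 * i, |F S|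
          ≤ ∑ S with S.card = 2 * i,
            c0 * (4 * i / Fintype.card ι : ℝ) ^ i * (|hat A S| * |hat B S|) := sum_le_sum h4
        _ = c0 * (4 * i / Fintype.card ι : ℝ) ^ i *
            ∑ S with S.card = 2 * i, |hat A S| * |hat B S| := by rw [mul_sum]
        _ ≤ c0 * (4 * i / Fintype.card ι : ℝ) ^ i * (a * b * (4 * r) ^ (2 * i)) := by
            gcongr
        _ = c0 * a * b * ((4 * i / Fintype.card ι : ℝ) * (4 * r) ^ 2) ^ i := by
            rw [mul_pow _ ((4 * r : ℝ) ^ 2), pow_mul]; ring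
        _ ≤ c0 * a * b * ((3 / 8) ^ 2) ^ i := by gcongr
        _ = c0 * a * b * (3 / 8) ^ (2 * i) := by rw [pow_mul]
    · rw [sum_eq_zero]
      · positivity
      · intro S hS
        rw [hFabs, hat_bal_odd i S (mem_filter.1 hS).2]
        simp
  have hlow' : ∑ S with (0 < S.card ∧ S.card < 2 * L), |F S| ≤ c0 * a * b * (3 / 5) := by
    rw [← sum_fiberwise_of_maps_to (g := fun S : Finset ι => S.card) (t := Ico 1 (2 * L))
      (s := univ.filter fun S : Finset ι => 0 < S.card ∧ S.card < 2 * L)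
      (fun S hS => mem_Ico.2 (mem_filter.1 hS).2)]
    calc _ ≤ ∑ j ∈ Ico 1 (2 * L), c0 * a * b * (3 / 8) ^ j := by
          refine sum_le_sum fun j hj => le_trans ?_ (hlow j hj)
          refine sum_le_sum_of_subset_of_nonneg (fun S hS => ?_) fun _ _ _ => abs_nonneg _
          exact mem_filter.2 ⟨mem_univ _, (mem_filter.1 hS).2⟩
      _ ≤ c0 * a * b * (3 / 5) := by
          rw [← mul_sum]
          exact mul_le_mul_of_nonneg_left (geom_bound _) (by positivity)
  have hhigh : ∑ S with (2 * L ≤ S.card ∧ 2 * S.card ≤ Fintype.card ι), |F S| ≤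
      c0 * a * b * (1 / 128) := by
    have h1 : ∑ S, hat A S ^ 2 ≤ a ^ 2 * 2 ^ L := by
      rw [parseval]; nlinarith
    have h2 : ∑ S, hat B S ^ 2 ≤ b ^ 2 * 2 ^ L := by
      rw [parseval]; nlinarith
    have h3 := cauchy _ _ _ han hbn (by positivity) h1 h2
    have h4 : ∀ S ∈ univ.filter
        (fun S : Finset ι => 2 * L ≤ S.card ∧ 2 * S.card ≤ Fintype.card ι),
        |F S| ≤ c0 * (4 * L / Fintype.card ι : ℝ) ^ L * (|hat A S| * |hat B S|) := by
      intro S hS
      have hS' := (mem_filter.1 hS).2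
      rw [hFabs]
      apply mul_le_mul_of_nonneg_right _ (by positivity)
      rcases Nat.even_or_odd' S.card with ⟨i, hi | hi⟩
      · exact hat_bal_even i S hi (by omega) L (by omega)
      · rw [hat_bal_odd i S hi, abs_zero]
        positivity
    have h5 : (4 * L / Fintype.card ι : ℝ) * 2 ≤ 1 / 128 := by
      rw [hmR, div_mul_eq_mul_div, div_le_iff₀ (by positivity)]
      nlinarith
    calc _ ≤ ∑ S with (2 * L ≤ S.card ∧ 2 * S.card ≤ Fintype.card ι),
            c0 * (4 * L / Fintype.card ι : ℝ) ^ L * (|hat A S| * |hat B S|) := sum_le_sum h4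
      _ ≤ ∑ S, c0 * (4 * L / Fintype.card ι : ℝ) ^ L * (|hat A S| * |hat B S|) :=
          sum_le_sum_of_subset_of_nonneg (subset_univ _) fun _ _ _ => by positivity
      _ ≤ c0 * (4 * L / Fintype.card ι : ℝ) ^ L * (a * b * 2 ^ L) := by
          rw [← mul_sum]
          gcongr
      _ = c0 * a * b * ((4 * L / Fintype.card ι : ℝ) * 2) ^ L := by
          rw [mul_pow]; ring
      _ ≤ c0 * a * b * (1 / 128) ^ L := by gcongr
      _ ≤ c0 * a * b * (1 / 128) ^ 1 := by
          apply mul_le_mul_of_nonneg_left _ (by positivity)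
          exact pow_le_pow_of_le_one (by norm_num) (by norm_num) hL
      _ = _ := by rw [pow_one]
  have hG : ∑ S with (0 < S.card ∧ 2 * S.card ≤ Fintype.card ι), |F S| ≤
      c0 * a * b * (3 / 5) + c0 * a * b * (1 / 128) := by
    rw [← sum_filter_add_sum_filter_not _ (fun S : Finset ι => S.card < 2 * L)]
    apply add_le_add
    · refine le_trans (sum_le_sum_of_subset_of_nonneg (fun S hS => ?_)
        fun _ _ _ => abs_nonneg _) hlow'
      simp only [mem_filter, mem_univ, true_and] at hS ⊢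
      exact ⟨hS.1.1, hS.2⟩
    · refine le_trans (sum_le_sum_of_subset_of_nonneg (fun S hS => ?_)
        fun _ _ _ => abs_nonneg _) hhigh
      simp only [mem_filter, mem_univ, true_and] at hS ⊢
      exact ⟨not_lt.1 hS.2, hS.1.2⟩
  have hmain := sum_ge_of_compl F hFc (by rw [hm]; positivity)
  rw [hF0, ← pairs_eq] at hmain
  have hcab : 0 ≤ c0 * a * b := by positivity
  have h1 : c0 * a * b ≤ 2 * (2 ^ Fintype.card ι * pairs A B) := by linarith
  have h2 : (2 : ℝ) ^ Fintype.card ι ≤ 64 * L * c0 := by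
    have h3 := centralBinom_sq (2 * (256 * L ^ 2)) (by nlinarith)
    rw [← card_bal hm2] at h3
    have h4 : (16 : ℝ) ^ (2 * (256 * L ^ 2)) ≤ 4 * (2 * (256 * L ^ 2)) * c0 ^ 2 := by
      rw [hc0]; exact_mod_cast h3
    apply le_of_sq_le_sq _ (by positivity)
    calc ((2 : ℝ) ^ Fintype.card ι) ^ 2 = 16 ^ (2 * (256 * L ^ 2)) := by
          rw [hm2, ← pow_mul, show (16 : ℝ) = 2 ^ 4 by norm_num, ← pow_mul]
          congr 1
          ring
      _ ≤ 4 * (2 * (256 * L ^ 2)) * c0 ^ 2 := h4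
      _ ≤ (64 * L * c0) ^ 2 := by nlinarith [sq_nonneg (L * c0)]
  have hp : 0 ≤ pairs A B := sum_nonneg fun _ _ => Nat.cast_nonneg _
  have hc0pos : 0 < c0 := by
    by_contra hneg
    have : c0 = 0 := le_antisymm (not_lt.1 hneg) hc0n
    rw [this, mul_zero] at h2
    exact absurd h2 (not_le.2 (by positivity))
  apply le_of_mul_le_mul_left _ hc0pos
  calc c0 * (a * b) = c0 * a * b := by ring
    _ ≤ 2 * (2 ^ Fintype.card ι * pairs A B) := h1
    _ ≤ 2 * (64 * L * c0 * pairs A B) := by gcongr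
    _ = c0 * (128 * L * pairs A B) := by ring

end Pool.Agent.P.MP_ac2766_co
end

-- part Pool.Agent.P.MP_ac2766_co.Count
section

namespace Pool.Agent.P.MP_ac2766_co

open Finset

variable {ι : Type*} [DecidableEq ι] [Fintype ι]

/-- tuples of points of `A` that are pairwise non-orthogonal. -/
noncomputable def cliq (A : Finset (Finset ι)) (j : ℕ) : Finset (Fin j → Finset ι) :=
  (Fintype.piFinset fun _ => A).filter fun w => ∀ i i', i ≠ i' → ip (w i) (w i') ≠ 0

lemma mem_cliq {A : Finset (Finset ι)} {j : ℕ} {w : Fin j → Finset ι} :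
    w ∈ cliq A j ↔ (∀ i, w i ∈ A) ∧ ∀ i i', i ≠ i' → ip (w i) (w i') ≠ 0 := by
  simp [cliq]

lemma card_cliq_succ (A : Finset (Finset ι)) (j : ℕ) :
    (cliq A (j + 1)).card ≤ ∑ x ∈ A, (cliq (A.filter fun y => ip x y ≠ 0) j).card := by
  rw [← card_sigma]
  refine card_le_card_of_injOn (fun w => ⟨w 0, Fin.tail w⟩) (fun w hw => ?_) ?_
  · rw [mem_coe, mem_cliq] at hw
    rw [mem_coe, mem_sigma, mem_cliq]
    refine ⟨hw.1 0, fun i => mem_filter.2 ⟨hw.1 _, hw.2 _ _ (Fin.succ_ne_zero i).symm⟩,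
      fun i i' h => hw.2 _ _ fun h' => h (Fin.succ_injective _ h')⟩
  · intro w _ w' _ h
    simp only [Sigma.mk.injEq, heq_eq_eq] at h
    rw [← Fin.cons_self_tail w, ← Fin.cons_self_tail w', h.1, h.2]

lemma one_sub_pow_le {L : ℕ} (hL : 1 ≤ L) :
    (1 - 1 / (128 * L) : ℝ) ^ (128 * L ^ 2) * 2 ^ L ≤ 1 := by
  have hL1 : (1 : ℝ) ≤ L := by exact_mod_cast hL
  have h0 : (0 : ℝ) ≤ 1 - 1 / (128 * L) := by
    rw [sub_nonneg, div_le_one (by positivity)]
    linarith
  have h1 : (1 - 1 / (128 * L) : ℝ) ^ (128 * L) ≤ 1 / 2 := by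
    calc (1 - 1 / (128 * L) : ℝ) ^ (128 * L) ≤ Real.exp (-(1 / (128 * L))) ^ (128 * L) := by
          gcongr
          have := Real.add_one_le_exp (-(1 / (128 * L) : ℝ))
          linarith
      _ = Real.exp (-1) := by
          rw [← Real.exp_nat_mul]
          congr 1
          push_cast
          field_simp
      _ ≤ 1 / 2 := by
          have := Real.exp_neg_one_lt_d9
          linarith
  rw [show 128 * L ^ 2 = 128 * L * L by ring, pow_mul, ← mul_pow]
  apply pow_le_one₀ (by positivity)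
  linarith

theorem card_cliq_le {L : ℕ} (hL : 1 ≤ L) (hm : Fintype.card ι = 1024 * L ^ 2) (j : ℕ) :
    ∀ A : Finset (Finset ι), (∀ x ∈ A, chi univ x = 1) →
      ((cliq A j).card : ℝ) ≤ (3 * (2 ^ Fintype.card ι / 2 ^ L)) ^ j *
        (1 + (A.card / (2 ^ Fintype.card ι / 2 ^ L)) ^ (128 * L ^ 2)) := by
  set M : ℝ := 2 ^ Fintype.card ι / 2 ^ L with hM
  have hMpos : 0 < M := by positivity
  have hL1 : (1 : ℝ) ≤ L := by exact_mod_cast hL
  set γ := 128 * L ^ 2 with hγ
  have hγ1 : 1 ≤ γ := by nlinarith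
  induction j with
  | zero =>
    intro A _
    have h1 : (cliq A 0).card ≤ 1 := card_le_one_iff_subsingleton.2 (Set.subsingleton_of_subsingleton)
    have h2 : ((cliq A 0).card : ℝ) ≤ 1 := by exact_mod_cast h1
    have h3 : (0 : ℝ) ≤ (A.card / M) ^ γ := by positivity
    rw [pow_zero, one_mul]
    linarith
  | succ j ih =>
    intro A hA
    set a : ℝ := (A.card : ℝ) with ha
    have ha0 : 0 ≤ a := Nat.cast_nonneg _
    have haN : a ≤ 2 ^ Fintype.card ι := by
      have := card_le_univ A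
      rw [Fintype.card_finset] at this
      rw [ha]
      exact_mod_cast this
    set Φ : ℝ := 1 + (a / M) ^ γ with hΦ
    have hpow0 : 0 ≤ (a / M) ^ γ := by positivity
    set deg : Finset ι → ℝ := fun x => ((A.filter fun y => ip x y = 0).card : ℝ) with hdeg
    set Low := A.filter fun x => 128 * L * deg x < a with hLow
    have hLowM : (Low.card : ℝ) ≤ M := by
      by_contra hc
      push Not at hc
      have h1 : (2 : ℝ) ^ Fintype.card ι ≤ 2 ^ L * Low.card := by
        rw [hM, div_lt_iff₀ (by positivity)] at hc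
        linarith
      have h2 : (Low.card : ℝ) ≤ a := by
        rw [ha]; exact_mod_cast card_filter_le _ _
      have h3 := supersat hL hm Low A (fun x hx => hA x (mem_filter.1 hx).1) hA h1
        (h1.trans (by gcongr))
      have hne : Low.Nonempty := by
        rw [← card_pos]
        have : (0 : ℝ) < Low.card := hMpos.trans hc
        exact_mod_cast this
      have h4 : 128 * L * pairs Low A < ∑ x ∈ Low, a := by
        rw [pairs, mul_sum]
        exact sum_lt_sum_of_nonempty hne fun x hx => (mem_filter.1 hx).2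
      rw [sum_const, nsmul_eq_mul] at h4
      linarith
    have hcardA' : ∀ x, ((A.filter fun y => ip x y ≠ 0).card : ℝ) = a - deg x := by
      intro x
      have := card_filter_add_card_filter_not (s := A) (fun y => ip x y = 0)
      rw [ha, ← this]
      push_cast
      simp only [hdeg]
      ring
    have hih : ∀ x, ((cliq (A.filter fun y => ip x y ≠ 0) j).card : ℝ) ≤
        (3 * M) ^ j * (1 + ((a - deg x) / M) ^ γ) := by
      intro x
      rw [← hcardA']
      exact ih _ fun y hy => hA y (mem_filter.1 hy).1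
    have hdeg0 : ∀ x, 0 ≤ deg x := fun x => Nat.cast_nonneg _
    have hdeg1 : ∀ x, 0 ≤ a - deg x := fun x => by rw [← hcardA']; exact Nat.cast_nonneg _
    have h1 : ∑ x ∈ Low, ((cliq (A.filter fun y => ip x y ≠ 0) j).card : ℝ) ≤
        M * ((3 * M) ^ j * Φ) := by
      calc _ ≤ ∑ x ∈ Low, (3 * M) ^ j * Φ := by
            refine sum_le_sum fun x _ => (hih x).trans ?_
            rw [hΦ]
            have := hdeg1 x
            have := hdeg0 x
            gcongr
            linarith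
        _ = Low.card * ((3 * M) ^ j * Φ) := by rw [sum_const, nsmul_eq_mul]
        _ ≤ M * ((3 * M) ^ j * Φ) := by gcongr
    have h2 : ∑ x ∈ A.filter (fun x => ¬ 128 * L * deg x < a),
        ((cliq (A.filter fun y => ip x y ≠ 0) j).card : ℝ) ≤
        a * ((3 * M) ^ j * (1 + (1 - 1 / (128 * L)) ^ γ * (a / M) ^ γ)) := by
      have h0 : (0 : ℝ) ≤ 1 - 1 / (128 * L) := by
        rw [sub_nonneg, div_le_one (by positivity)]
        linarith
      calc _ ≤ ∑ x ∈ A.filter (fun x => ¬ 128 * L * deg x < a),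
            (3 * M) ^ j * (1 + (1 - 1 / (128 * L)) ^ γ * (a / M) ^ γ) := by
            refine sum_le_sum fun x hx => (hih x).trans ?_
            have h3 : a ≤ 128 * L * deg x := not_lt.1 (mem_filter.1 hx).2
            have h4 : a - deg x ≤ (1 - 1 / (128 * L)) * a := by
              have : a / (128 * L) ≤ deg x := by
                rw [div_le_iff₀ (by positivity)]; linarith
              have h5 : (1 - 1 / (128 * L)) * a = a - a / (128 * L) := by ring
              linarith
            rw [← mul_pow, ← mul_div_assoc (1 - 1 / (128 * L) : ℝ) a M]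
            have := hdeg1 x
            gcongr
        _ = (A.filter (fun x => ¬ 128 * L * deg x < a)).card *
            ((3 * M) ^ j * (1 + (1 - 1 / (128 * L)) ^ γ * (a / M) ^ γ)) := by
            rw [sum_const, nsmul_eq_mul]
        _ ≤ _ := by
            apply mul_le_mul_of_nonneg_right _ (by positivity)
            rw [ha]; exact_mod_cast card_filter_le _ _
    have h3 : a ≤ M * Φ := by
      rcases le_or_gt a M with h | h
      · nlinarith
      · have h4 : 1 ≤ a / M := by rw [le_div_iff₀ hMpos]; linarith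
        have h5 : a / M ≤ (a / M) ^ γ := le_self_pow₀ h4 (by omega)
        rw [div_le_iff₀ hMpos] at h5
        nlinarith
    have h4 : a * (1 - 1 / (128 * L)) ^ γ ≤ M := by
      have h0 : (0 : ℝ) ≤ 1 - 1 / (128 * L) := by
        rw [sub_nonneg, div_le_one (by positivity)]
        linarith
      have h5 := one_sub_pow_le hL
      rw [hM, le_div_iff₀ (by positivity)]
      calc a * (1 - 1 / (128 * L)) ^ γ * 2 ^ L = a * ((1 - 1 / (128 * L)) ^ γ * 2 ^ L) := by ring
        _ ≤ 2 ^ Fintype.card ι * 1 := by gcongr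
        _ = _ := mul_one _
    have h5 : a * (1 + (1 - 1 / (128 * L)) ^ γ * (a / M) ^ γ) ≤ 2 * (M * Φ) := by
      have h6 : a * (1 - 1 / (128 * L)) ^ γ * (a / M) ^ γ ≤ M * Φ := by
        apply mul_le_mul h4 _ hpow0 hMpos.le
        linarith
      nlinarith
    have h6 : ((cliq A (j + 1)).card : ℝ) ≤
        ∑ x ∈ A, ((cliq (A.filter fun y => ip x y ≠ 0) j).card : ℝ) := by
      exact_mod_cast card_cliq_succ A j
    rw [← sum_filter_add_sum_filter_not A (fun x => 128 * L * deg x < a)] at h6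
    have h7 : 0 ≤ (3 * M) ^ j := by positivity
    calc ((cliq A (j + 1)).card : ℝ) ≤ M * ((3 * M) ^ j * Φ) +
          a * ((3 * M) ^ j * (1 + (1 - 1 / (128 * L)) ^ γ * (a / M) ^ γ)) :=
          h6.trans (add_le_add h1 h2)
      _ = (3 * M) ^ j * (M * Φ + a * (1 + (1 - 1 / (128 * L)) ^ γ * (a / M) ^ γ)) := by ring
      _ ≤ (3 * M) ^ j * (M * Φ + 2 * (M * Φ)) := by gcongr
      _ = (3 * M) ^ (j + 1) * Φ := by ring

/-- points of even weight. -/
noncomputable def evens (ι : Type*) [DecidableEq ι] [Fintype ι] : Finset (Finset ι) :=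
  univ.filter fun x => chi univ x = 1

lemma card_evens (hm : 0 < Fintype.card ι) :
    (2 : ℝ) ^ Fintype.card ι = 2 * (evens ι).card := by
  have h1 := sum_chi_mul (univ : Finset ι) ∅
  have hne : (univ : Finset ι) ≠ ∅ := by
    rw [← nonempty_iff_ne_empty, ← card_pos, card_univ]; exact hm
  rw [if_neg hne] at h1
  have h2 : ∀ x : Finset ι, chi x univ * chi x ∅ = 2 * (if chi univ x = 1 then 1 else 0) - 1 := by
    intro x
    rw [chi_comm x ∅, chi_empty, mul_one, chi_comm x univ]
    split_ifs with h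
    · rw [h]; norm_num
    · have := chi_mul_self univ x
      rcases mul_self_eq_one_iff.1 this with h' | h'
      · exact absurd h' h
      · rw [h']; norm_num
  simp only [h2] at h1
  rw [sum_sub_distrib, ← mul_sum, sum_boole, sum_const, card_univ, Fintype.card_finset,
    nsmul_eq_mul, mul_one] at h1
  push_cast at h1
  unfold evens
  linarith

theorem card_cliq_evens {l k : ℕ} (hl : 4 ≤ l) (hm : Fintype.card ι = 16384 * l ^ 2)
    (hk : 8192 * l ^ 2 ≤ k) :
    (cliq (evens ι) k).card * 2 ^ ((l + 1) * k) ≤ (evens ι).card ^ k := by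
  have hm' : Fintype.card ι = 1024 * (4 * l) ^ 2 := by rw [hm]; ring
  have h1 := card_cliq_le (L := 4 * l) (by omega) hm' k (evens ι)
    (fun x hx => (mem_filter.1 hx).2)
  have hE := card_evens (ι := ι) (by rw [hm]; positivity)
  set E : ℝ := ((evens ι).card : ℝ) with hEdef
  have hEpos : 0 < E := by
    have : (0 : ℝ) < 2 ^ Fintype.card ι := by positivity
    linarith
  rw [hE] at h1
  have h2 : E / (2 * E / 2 ^ (4 * l)) ≤ 2 ^ (4 * l) := by
    rw [div_le_iff₀ (by positivity)]
    field_simp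
    norm_num
  have h3 : (1 : ℝ) + (E / (2 * E / 2 ^ (4 * l))) ^ (128 * (4 * l) ^ 2) ≤ 2 ^ (2 * l * k) := by
    have h4 : 4 * l * (128 * (4 * l) ^ 2) + 1 ≤ 2 * l * k := by
      have : 2 * l * (8192 * l ^ 2) ≤ 2 * l * k := Nat.mul_le_mul_left _ hk
      nlinarith [pow_pos (show 0 < l by omega) 3]
    calc (1 : ℝ) + (E / (2 * E / 2 ^ (4 * l))) ^ (128 * (4 * l) ^ 2)
        ≤ 2 ^ (4 * l * (128 * (4 * l) ^ 2)) + (2 ^ (4 * l)) ^ (128 * (4 * l) ^ 2) := by
          gcongr
          exact one_le_pow₀ (by norm_num)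
      _ = 2 ^ (4 * l * (128 * (4 * l) ^ 2) + 1) := by rw [← pow_mul, pow_succ]; ring
      _ ≤ 2 ^ (2 * l * k) := pow_le_pow_right₀ (by norm_num) h4
  have h4 : 3 * (2 * E / 2 ^ (4 * l)) * 2 ^ (2 * l) * 2 ^ (l + 1) ≤ E := by
    have h5 : (2 : ℝ) ^ (3 * l + 4) ≤ 2 ^ (4 * l) := pow_le_pow_right₀ (by norm_num) (by omega)
    have h6 : (2 : ℝ) ^ (3 * l + 4) = 8 * (2 ^ (2 * l) * 2 ^ (l + 1)) := by ring
    have h7 : 3 * (2 * E / 2 ^ (4 * l)) * 2 ^ (2 * l) * 2 ^ (l + 1) =
        E * (6 * (2 ^ (2 * l) * 2 ^ (l + 1)) / 2 ^ (4 * l)) := by ring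
    rw [h7]
    apply mul_le_of_le_one_right hEpos.le
    rw [div_le_one (by positivity)]
    have : (0 : ℝ) ≤ 2 ^ (2 * l) * 2 ^ (l + 1) := by positivity
    linarith
  have h5 : ((cliq (evens ι) k).card : ℝ) * 2 ^ ((l + 1) * k) ≤ E ^ k := by
    calc ((cliq (evens ι) k).card : ℝ) * 2 ^ ((l + 1) * k)
        ≤ (3 * (2 * E / 2 ^ (4 * l))) ^ k * 2 ^ (2 * l * k) * 2 ^ ((l + 1) * k) := by
          gcongr
          exact h1.trans (by gcongr)
      _ = (3 * (2 * E / 2 ^ (4 * l)) * 2 ^ (2 * l) * 2 ^ (l + 1)) ^ k := by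
          rw [mul_pow _ (2 ^ (l + 1) : ℝ), mul_pow _ (2 ^ (2 * l) : ℝ), ← pow_mul, ← pow_mul]
      _ ≤ E ^ k := by gcongr
  rw [hEdef] at h5
  exact_mod_cast h5

end Pool.Agent.P.MP_ac2766_co
end

-- part Pool.Agent.P.MP_ac2766_co.Main
section

namespace Pool.Agent.P.MP_ac2766_co

open Finset

lemma union_bound {Y : Type*} [Fintype Y] [DecidableEq Y] {n k : ℕ} (C : Finset (Fin k → Y))
    (hY : 0 < Fintype.card Y) (h : n ^ k * C.card < Fintype.card Y ^ k) :
    ∃ v : Fin n → Y, ∀ e : Fin k → Fin n, Function.Injective e → v ∘ e ∉ C := by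
  classical
  by_cases hkn : k ≤ n
  swap
  · obtain ⟨y⟩ := Fintype.card_pos_iff.1 hY
    refine ⟨fun _ => y, fun e he => absurd ?_ hkn⟩
    simpa using Fintype.card_le_of_injective e he
  have h1 : ∀ e : Fin k → Fin n, Function.Injective e →
      (univ.filter fun v : Fin n → Y => v ∘ e ∈ C).card ≤ C.card * Fintype.card Y ^ (n - k) := by
    intro e he
    have h2 : Fintype.card ({b : Fin n // b ∉ Set.range e} → Y) = Fintype.card Y ^ (n - k) := by
      rw [Fintype.card_fun, Fintype.card_subtype_compl, Fintype.card_fin,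
        Set.card_range_of_injective he, Fintype.card_fin]
    rw [← h2, ← card_univ, ← card_product]
    refine card_le_card_of_injOn (fun v => (v ∘ e, fun b => v b.1)) (fun v hv => ?_) ?_
    · simpa using hv
    · intro v _ v' _ hvv
      simp only [Prod.mk.injEq] at hvv
      funext b
      by_cases hb : b ∈ Set.range e
      · obtain ⟨a, rfl⟩ := hb
        exact congrFun hvv.1 a
      · exact congrFun hvv.2 ⟨b, hb⟩
  by_contra hc
  push Not at hc
  have h3 : (univ : Finset (Fin n → Y)) ⊆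
      (univ.filter fun e : Fin k → Fin n => Function.Injective e).biUnion
        fun e => univ.filter fun v : Fin n → Y => v ∘ e ∈ C := by
    intro v _
    obtain ⟨e, he1, he2⟩ := hc v
    simp only [mem_biUnion, mem_filter, mem_univ, true_and]
    exact ⟨e, he1, he2⟩
  have h4 := (card_le_card h3).trans (card_biUnion_le_card_mul _ _ _
    fun e he => h1 e (mem_filter.1 he).2)
  have h5 : (univ.filter fun e : Fin k → Fin n => Function.Injective e).card ≤ n ^ k := by
    refine (card_filter_le _ _).trans ?_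
    simp
  rw [card_univ, Fintype.card_fun, Fintype.card_fin] at h4
  have h6 : Fintype.card Y ^ n = Fintype.card Y ^ k * Fintype.card Y ^ (n - k) := by
    rw [← pow_add, Nat.add_sub_cancel' hkn]
  have h7 : n ^ k * (C.card * Fintype.card Y ^ (n - k)) <
      Fintype.card Y ^ k * Fintype.card Y ^ (n - k) := by
    rw [← mul_assoc]
    exact Nat.mul_lt_mul_of_pos_right h (by positivity)
  have h8 := Nat.mul_le_mul_right (C.card * Fintype.card Y ^ (n - k)) h5
  omega

variable {ι : Type*} [DecidableEq ι] [Fintype ι]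

lemma exists_points {l k t n : ℕ} (hl : 4 ≤ l) (hm : Fintype.card ι = 16384 * l ^ 2)
    (hk : 8192 * l ^ 2 ≤ k) (ht : 1 ≤ t) (hn : n ≤ 2 ^ (l * t)) :
    ∃ y : Fin n → Fin t → Finset ι, ∀ I : Finset (Fin n), I.card = k →
      ∃ i ∈ I, ∃ j ∈ I, i ≠ j ∧ ∃ s, ip (y i s) (y j s) = 0 := by
  classical
  have hc := card_cliq_evens hl hm hk
  have hE : 0 < (evens ι).card := card_pos.2 ⟨∅, by simp [evens, chi, sg]⟩
  let C : Finset (Fin k → Fin t → evens ι) :=
    univ.filter fun w => ∀ s, (fun i => (w i s : Finset ι)) ∈ cliq (evens ι) k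
  have hC : C.card ≤ (cliq (evens ι) k).card ^ t := by
    have h1 : (Fintype.piFinset fun _ : Fin t => cliq (evens ι) k).card =
        (cliq (evens ι) k).card ^ t := by simp
    rw [← h1]
    refine card_le_card_of_injOn (fun w s i => (w i s : Finset ι)) (fun w hw => ?_) ?_
    · simpa [C] using hw
    · intro w _ w' _ h
      funext i s
      exact Subtype.ext (congrFun (congrFun h s) i)
  have hY : Fintype.card (Fin t → evens ι) = (evens ι).card ^ t := by simp
  have hk1 : 1 ≤ k := le_trans (by nlinarith) hk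
  obtain ⟨v, hv⟩ := union_bound (n := n) C (by rw [hY]; positivity) (by
    rw [hY]
    have h1 : n ^ k * C.card * 2 ^ (t * k) ≤ ((evens ι).card ^ t) ^ k := by
      calc n ^ k * C.card * 2 ^ (t * k)
          ≤ (2 ^ (l * t)) ^ k * (cliq (evens ι) k).card ^ t * 2 ^ (t * k) := by gcongr
        _ = ((cliq (evens ι) k).card * 2 ^ ((l + 1) * k)) ^ t := by
            rw [mul_pow, ← pow_mul, ← pow_mul]; ring
        _ ≤ ((evens ι).card ^ k) ^ t := by gcongr
        _ = _ := by rw [← pow_mul, ← pow_mul, mul_comm]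
    have h2 : 2 ≤ 2 ^ (t * k) := le_self_pow₀ (by norm_num) (by positivity)
    have h3 : 0 < ((evens ι).card ^ t) ^ k := by positivity
    nlinarith)
  refine ⟨fun i s => v i s, fun I hI => ?_⟩
  have h1 := hv (I.orderEmbOfFin hI) (I.orderEmbOfFin hI).injective
  simp only [C, mem_filter, mem_univ, true_and, mem_cliq, Function.comp_apply, not_forall,
    not_and, coe_mem, forall_const, ne_eq, not_not] at h1
  obtain ⟨s, i, j, hij, h⟩ := h1
  exact ⟨_, I.orderEmbOfFin_mem hI i, _, I.orderEmbOfFin_mem hI j,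
    fun h' => hij ((I.orderEmbOfFin hI).injective h'), s, h⟩

/-- coordinates of the tensor vector. -/
noncomputable def tens {t : ℕ} (y : Fin t → Finset ι) (p : Fin t → ι × ι) : ℝ :=
  ∏ s, (sg (y s) (p s).1 * sg (y s) (p s).2 / Fintype.card ι)

lemma sum_tens_mul {t : ℕ} (y y' : Fin t → Finset ι) :
    ∑ p, tens y p * tens y' p = ∏ s, (ip (y s) (y' s) / Fintype.card ι) ^ 2 := by
  have h1 : ∀ s, (ip (y s) (y' s) / Fintype.card ι) ^ 2 =
      ∑ q : ι × ι, (sg (y s) q.1 * sg (y s) q.2 / Fintype.card ι) *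
        (sg (y' s) q.1 * sg (y' s) q.2 / Fintype.card ι) := by
    intro s
    rw [div_pow, sq, ip, sum_mul_sum, Fintype.sum_prod_type, sum_div]
    refine sum_congr rfl fun a _ => ?_
    rw [sum_div]
    refine sum_congr rfl fun b _ => ?_
    ring
  simp only [h1]
  rw [prod_univ_sum, Fintype.piFinset_univ]
  refine sum_congr rfl fun p _ => ?_
  rw [tens, tens, ← prod_mul_distrib]

lemma exists_vectors {l k t n : ℕ} (hl : 4 ≤ l) (hk : 8192 * l ^ 2 ≤ k) (ht : 1 ≤ t)
    (hn : n ≤ 2 ^ (l * t)) :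
    ∃ (d : ℕ) (v : Fin n → EuclideanSpace ℝ (Fin d)), (∀ i, ‖v i‖ = 1) ∧
      (∀ I : Finset (Fin n), I.card = k → ∃ i ∈ I, ∃ j ∈ I, i ≠ j ∧ inner ℝ (v i) (v j) = 0) ∧
      (n : ℝ) ^ 2 ≤ (16384 * l ^ 2) ^ t * ‖∑ i, v i‖ ^ 2 := by
  classical
  set m := 16384 * l ^ 2 with hmdef
  have hm : Fintype.card (Fin m) = 16384 * l ^ 2 := Fintype.card_fin m
  have hmpos : (0 : ℝ) < Fintype.card (Fin m) := by rw [hm]; positivity
  obtain ⟨y, hy⟩ := exists_points hl hm hk ht hn
  let e := (Fintype.equivFin (Fin t → Fin m × Fin m)).symm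
  let v : Fin n → EuclideanSpace ℝ (Fin (Fintype.card (Fin t → Fin m × Fin m))) :=
    fun i => WithLp.toLp 2 fun c => tens (y i) (e c)
  have hinner : ∀ i j, inner ℝ (v i) (v j) =
      ∏ s, (ip (y j s) (y i s) / Fintype.card (Fin m)) ^ 2 := by
    intro i j
    rw [← sum_tens_mul, ← Equiv.sum_comp e]
    simp [v, PiLp.inner_apply]
  refine ⟨_, v, fun i => ?_, fun I hI => ?_, ?_⟩
  · have h1 : ‖v i‖ ^ 2 = 1 := by
      rw [← real_inner_self_eq_norm_sq, hinner]
      refine prod_eq_one fun s _ => ?_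
      rw [ip_self, div_self hmpos.ne', one_pow]
    exact (pow_eq_one_iff_of_nonneg (norm_nonneg _) two_ne_zero).1 h1
  · obtain ⟨i, hi, j, hj, hij, s, hs⟩ := hy I hI
    refine ⟨i, hi, j, hj, hij, ?_⟩
    rw [hinner]
    refine prod_eq_zero (mem_univ s) ?_
    rw [ip_comm, hs]
    simp
  · have h1 : ‖∑ i, v i‖ ^ 2 = ∑ p, (∑ i, tens (y i) p) ^ 2 := by
      rw [EuclideanSpace.real_norm_sq_eq, ← Equiv.sum_comp e]
      refine sum_congr rfl fun c _ => ?_
      simp [v]
    have h2 : ∀ q : Fin t → Fin m, ∑ i, tens (y i) (fun s => (q s, q s)) =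
        n * (1 / Fintype.card (Fin m)) ^ t := by
      intro q
      simp [tens, sg_mul_self]
    have h3 : ∑ q : Fin t → Fin m, (∑ i, tens (y i) (fun s => (q s, q s))) ^ 2 ≤
        ∑ p, (∑ i, tens (y i) p) ^ 2 := by
      rw [← sum_image (s := univ) (g := fun (q : Fin t → Fin m) s => (q s, q s))
        (f := fun p => (∑ i, tens (y i) p) ^ 2)]
      · exact sum_le_sum_of_subset_of_nonneg (subset_univ _) fun _ _ _ => sq_nonneg _
      · intro q _ q' _ h
        funext s
        exact congrArg Prod.fst (congrFun h s)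
    simp only [h2] at h3
    rw [sum_const, card_univ, Fintype.card_fun, Fintype.card_fin t, nsmul_eq_mul] at h3
    rw [h1]
    have h4 : (16384 * l ^ 2 : ℝ) = Fintype.card (Fin m) := by rw [hm]; push_cast; ring
    rw [h4]
    refine le_trans (le_of_eq ?_) (mul_le_mul_of_nonneg_left h3 (by positivity))
    push_cast
    rw [one_div, inv_pow]
    field_simp

lemma exists_orthonormal {k n : ℕ} (hk : 2 ≤ k) (hn : 1 ≤ n) :
    ∃ (d : ℕ) (v : Fin n → EuclideanSpace ℝ (Fin d)), (∀ i, ‖v i‖ = 1) ∧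
      (∀ I : Finset (Fin n), I.card = k → ∃ i ∈ I, ∃ j ∈ I, i ≠ j ∧ inner ℝ (v i) (v j) = 0) ∧
      1 ≤ ‖∑ i, v i‖ := by
  have ho := EuclideanSpace.orthonormal_single (𝕜 := ℝ) (ι := Fin n)
  refine ⟨n, fun i => EuclideanSpace.single i 1, ho.1, fun I hI => ?_, ?_⟩
  · obtain ⟨i, hi, j, hj, hij⟩ := one_lt_card.1 (show 1 < I.card by omega)
    exact ⟨i, hi, j, hj, hij, ho.2 hij⟩
  · have h := EuclideanSpace.norm_eq (∑ i : Fin n, EuclideanSpace.single i (1 : ℝ))
    have h2 := PiLp.norm_apply_le (∑ i : Fin n, EuclideanSpace.single i (1 : ℝ)) ⟨0, hn⟩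
    refine le_trans (le_of_eq ?_) h2
    simp [Pi.single_apply]

theorem main : ∃ C : ℝ, ∀ k : ℕ, 2 ≤ k → ∃ n₀ : ℕ, ∀ n : ℕ, n₀ ≤ n →
    ∃ (d : ℕ) (v : Fin n → EuclideanSpace ℝ (Fin d)), (∀ i, ‖v i‖ = 1) ∧
      (∀ I : Finset (Fin n), I.card = k → ∃ i ∈ I, ∃ j ∈ I, i ≠ j ∧ inner ℝ (v i) (v j) = 0) ∧
      (n : ℝ) ^ (1 - C * Real.log k / Real.sqrt k) ≤ ‖∑ i, v i‖ := by
  refine ⟨1000, fun k hk => ?_⟩
  have hk0 : (0 : ℝ) < k := by positivity
  have hsq : 0 < Real.sqrt k := Real.sqrt_pos.2 hk0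
  have hlog2 := Real.log_two_gt_d9
  have hlogk : Real.log 2 ≤ Real.log k := Real.log_le_log (by norm_num) (by exact_mod_cast hk)
  by_cases hsmall : k < 131072
  · refine ⟨1, fun n hn => ?_⟩
    obtain ⟨d, v, h1, h2, h3⟩ := exists_orthonormal hk hn
    refine ⟨d, v, h1, h2, le_trans ?_ h3⟩
    apply Real.rpow_le_one_of_one_le_of_nonpos (by exact_mod_cast hn)
    rw [sub_nonpos, le_div_iff₀ hsq]
    have : Real.sqrt k ≤ 400 := by
      rw [Real.sqrt_le_left (by norm_num)]
      have : (k : ℝ) ≤ 131072 := by exact_mod_cast hsmall.le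
      linarith
    linarith
  · push Not at hsmall
    set l := Nat.sqrt (k / 8192) with hl
    have hl4 : 4 ≤ l := Nat.le_sqrt.2 (by omega)
    have hl1 : 8192 * l ^ 2 ≤ k := by
      have := Nat.sqrt_le' (k / 8192)
      rw [← hl] at this
      omega
    have hl2 : k ≤ (128 * l) ^ 2 := by
      have := Nat.lt_succ_sqrt' (k / 8192)
      rw [← hl] at this
      have h2 : k < 8192 * (l + 1) ^ 2 := by
        rw [Nat.succ_eq_add_one] at this
        omega
      nlinarith
    refine ⟨2 ^ l, fun n hn => ?_⟩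
    have hex : ∃ t, n ≤ 2 ^ (l * t) :=
      ⟨n, (Nat.lt_two_pow_self).le.trans (Nat.pow_le_pow_right (by norm_num) (by nlinarith))⟩
    set t := Nat.find hex with ht
    have ht1 : n ≤ 2 ^ (l * t) := Nat.find_spec hex
    have hn1 : 1 < n := lt_of_lt_of_le (Nat.one_lt_two_pow (by omega)) hn
    have ht0 : 1 ≤ t := by
      by_contra h
      have h0 : t = 0 := by omega
      rw [h0] at ht1
      simp at ht1
      omega
    have ht2 : 2 ^ (l * (t - 1)) < n := not_le.1 (Nat.find_min hex (by omega))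
    have ht3 : 2 ^ (l * t) ≤ n ^ 2 := by
      calc 2 ^ (l * t) = 2 ^ (l * (t - 1)) * 2 ^ l := by
            rw [← pow_add, ← Nat.mul_succ]
            congr 2
            omega
        _ ≤ n * n := Nat.mul_le_mul ht2.le hn
        _ = n ^ 2 := by ring
    obtain ⟨d, v, h1, h2, h3⟩ := exists_vectors hl4 hl1 ht0 ht1
    refine ⟨d, v, h1, h2, ?_⟩
    have hn0 : (0 : ℝ) < n := by positivity
    have hlogn : 0 ≤ Real.log n := Real.log_nonneg (by exact_mod_cast hn1.le)
    have hl0 : (0 : ℝ) < l := by positivity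
    have ha : (l * t : ℝ) * Real.log 2 ≤ 2 * Real.log n := by
      have h4 : ((2 : ℝ)) ^ (l * t) ≤ (n : ℝ) ^ 2 := by exact_mod_cast ht3
      have h5 := Real.log_le_log (by positivity) h4
      rw [Real.log_pow, Real.log_pow] at h5
      exact_mod_cast h5
    have hb : Real.log (16384 * l ^ 2) ≤ 2 * Real.log k := by
      have h4 : (16384 * l ^ 2 : ℝ) ≤ (k : ℝ) ^ 2 := by
        have h5 : 16384 * l ^ 2 ≤ k ^ 2 := by nlinarith
        exact_mod_cast h5
      have h5 := Real.log_le_log (by positivity) h4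
      rwa [Real.log_pow] at h5
    have hc : Real.sqrt k ≤ 128 * l := by
      rw [Real.sqrt_le_left (by positivity)]
      exact_mod_cast hl2
    set δ : ℝ := 1000 * Real.log k / Real.sqrt k with hδ
    have hd : (t : ℝ) * Real.log (16384 * l ^ 2) ≤ Real.log n * (2 * δ) := by
      have hlk : 0 ≤ Real.log k := by linarith
      have h4 : (t : ℝ) * l ≤ 4 * Real.log n := by
        have : (0 : ℝ) ≤ l * t := by positivity
        nlinarith
      have h5 : 1000 * Real.log k / (128 * l) ≤ δ := by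
        rw [hδ]
        gcongr
      calc (t : ℝ) * Real.log (16384 * l ^ 2) ≤ t * (2 * Real.log k) := by gcongr
        _ = (t * l) * (2 * Real.log k / l) := by field_simp
        _ ≤ (4 * Real.log n) * (2 * Real.log k / l) := by gcongr
        _ = Real.log n * (2 * (512 * Real.log k / (128 * l))) := by field_simp; ring
        _ ≤ Real.log n * (2 * (1000 * Real.log k / (128 * l))) := by gcongr; norm_num
        _ ≤ Real.log n * (2 * δ) := by gcongr
    have he : (16384 * l ^ 2 : ℝ) ^ t ≤ (n : ℝ) ^ (2 * δ) := by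
      rw [Real.rpow_def_of_pos hn0, ← Real.exp_log (show (0 : ℝ) < (16384 * l ^ 2 : ℝ) ^ t by
        positivity), Real.log_pow]
      exact Real.exp_le_exp.2 hd
    apply le_of_sq_le_sq _ (norm_nonneg _)
    have hpos : 0 < (n : ℝ) ^ (2 * δ) := Real.rpow_pos_of_pos hn0 _
    apply le_of_mul_le_mul_left _ hpos
    calc (n : ℝ) ^ (2 * δ) * ((n : ℝ) ^ (1 - δ)) ^ 2 = (n : ℝ) ^ 2 := by
          rw [← Real.rpow_natCast, ← Real.rpow_natCast, ← Real.rpow_mul hn0.le,
            ← Real.rpow_add hn0]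
          congr 1
          push_cast
          ring
      _ ≤ (16384 * l ^ 2) ^ t * ‖∑ i, v i‖ ^ 2 := h3
      _ ≤ _ := by gcongr

end Pool.Agent.P.MP_ac2766_co
end
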