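import Mathlib

-- part Pool.Agent.P.MP_ac2766_co.UpKer
section

/-! Positive semidefinite kernels on a finite set, spectral data, Cauchy-Schwarz helpers. -/

set_option autoImplicit false

namespace Pool.Agent.P.MP_ac2766_co.Up

open Finset

variable {X : Type*} [Fintype X] [DecidableEq X]

/-- Positive semidefinite kernels. -/
def Psd (A : X → X → ℝ) : Prop :=
  (∀ x y, A x y = A y x) ∧ ∀ f : X → ℝ, 0 ≤ ∑ x, ∑ y, f x * A x y * f y

/-- Spectral data of a kernel. -/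
structure Spec (A : X → X → ℝ) (lam : X → ℝ) (e : X → X → ℝ) : Prop where
  nn : ∀ a, 0 ≤ lam a
  on : ∀ a b, ∑ x, e a x * e b x = if a = b then 1 else 0
  co : ∀ x y, ∑ a, e a x * e a y = if x = y then 1 else 0
  eq : ∀ x y, A x y = ∑ a, lam a * (e a x * e a y)

/-- A spectral cut. -/
def cut (lam : X → ℝ) (e : X → X → ℝ) (I : Finset X) (x y : X) : ℝ :=
  ∑ a ∈ I, lam a * (e a x * e a y)

lemma rot3 {α β γ : Type*} (s : Finset α) (t : Finset β) (u : Finset γ) (f : α → β → γ → ℝ) :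
    ∑ a ∈ s, ∑ b ∈ t, ∑ c ∈ u, f a b c = ∑ b ∈ t, ∑ c ∈ u, ∑ a ∈ s, f a b c := by
  rw [sum_comm]
  exact sum_congr rfl fun _ _ => sum_comm

lemma swap22 {α β γ δ : Type*} (s : Finset α) (t : Finset β) (u : Finset γ) (v : Finset δ)
    (f : α → β → γ → δ → ℝ) :
    ∑ a ∈ s, ∑ b ∈ t, ∑ c ∈ u, ∑ d ∈ v, f a b c d =
      ∑ c ∈ u, ∑ d ∈ v, ∑ a ∈ s, ∑ b ∈ t, f a b c d := by
  rw [← rot3 u s t]
  exact sum_congr rfl fun _ _ => (rot3 v s t _).symm

omit [DecidableEq X] in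
lemma feat_mul {ι : Type*} (s : Finset ι) (w : ι → ℝ) (φ : ι → X → ℝ) (f h : X → ℝ) :
    ∑ i ∈ s, w i * ((∑ x, f x * φ i x) * ∑ y, h y * φ i y) =
      ∑ x, ∑ y, f x * (∑ i ∈ s, w i * (φ i x * φ i y)) * h y := by
  simp only [sum_mul_sum]
  simp only [mul_sum, sum_mul]
  rw [rot3]
  exact sum_congr rfl fun x _ => sum_congr rfl fun y _ => sum_congr rfl fun i _ => by ring

omit [DecidableEq X] in
lemma psd_feat {ι : Type*} (s : Finset ι) (w : ι → ℝ) (hw : ∀ i ∈ s, 0 ≤ w i) (φ : ι → X → ℝ) :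
    Psd fun x y => ∑ i ∈ s, w i * (φ i x * φ i y) :=
  ⟨fun x y => sum_congr rfl fun i _ => by ring, fun f => by
    rw [← feat_mul]
    exact sum_nonneg fun i hi => mul_nonneg (hw i hi) (mul_self_nonneg _)⟩

lemma Psd.spec {A : X → X → ℝ} (h : Psd A) : ∃ lam e, Spec A lam e := by
  have hA : (Matrix.of A).IsHermitian := by
    ext x y
    simp [h.1 x y]
  set U : Matrix X X ℝ := (hA.eigenvectorUnitary : Matrix X X ℝ) with hU
  have h1 : U * star U = 1 := Matrix.mem_unitaryGroup_iff.1 hA.eigenvectorUnitary.2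
  have h2 : star U * U = 1 := Matrix.mem_unitaryGroup_iff'.1 hA.eigenvectorUnitary.2
  have hon : ∀ a b, ∑ x, U x a * U x b = if a = b then 1 else 0 := fun a b => by
    have := congrFun (congrFun h2 a) b
    simpa [Matrix.mul_apply, Matrix.one_apply] using this
  have heq : ∀ x y, A x y = ∑ a, hA.eigenvalues a * (U x a * U y a) := fun x y => by
    have := congrFun (congrFun hA.spectral_theorem x) y
    rw [Matrix.of_apply] at this
    rw [this, Unitary.conjStarAlgAut_apply, Matrix.mul_apply]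
    refine sum_congr rfl fun a _ => ?_
    rw [Matrix.mul_diagonal]
    simp [hU]
    ring
  refine ⟨hA.eigenvalues, fun a x => U x a, fun a => ?_, hon, fun x y => ?_, heq⟩
  · have h3 := h.2 fun x => U x a
    simp only [heq] at h3
    rw [← feat_mul univ hA.eigenvalues fun a x => U x a] at h3
    simpa [hon] using h3
  · have := congrFun (congrFun h1 x) y
    simpa [Matrix.mul_apply, Matrix.one_apply] using this

variable {A B : X → X → ℝ} {lam : X → ℝ} {e : X → X → ℝ}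

lemma Spec.mul (h : Spec A lam e) (f k : X → ℝ) :
    ∑ a, lam a * ((∑ x, f x * e a x) * ∑ y, k y * e a y) = ∑ x, ∑ y, f x * A x y * k y := by
  rw [feat_mul]
  simp only [← h.eq]

lemma Spec.sq (h : Spec A lam e) (f : X → ℝ) :
    ∑ a, lam a * (∑ x, f x * e a x) ^ 2 = ∑ x, ∑ y, f x * A x y * f y := by
  rw [← h.mul]
  simp only [_root_.sq]

lemma Spec.pars (h : Spec A lam e) (f k : X → ℝ) :
    ∑ a, (∑ x, f x * e a x) * ∑ y, k y * e a y = ∑ x, f x * k x := by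
  have := feat_mul univ (fun _ => 1) e f k
  simp only [one_mul, h.co] at this
  rw [this]
  simp

lemma Spec.pars_sq (h : Spec A lam e) (f : X → ℝ) :
    ∑ a, (∑ x, f x * e a x) ^ 2 = ∑ x, f x ^ 2 := by
  simp only [_root_.sq]
  exact h.pars f f

lemma Spec.norm (h : Spec A lam e) (a : X) : ∑ x, e a x ^ 2 = 1 := by
  simpa [_root_.sq] using h.on a a

lemma Spec.eig (h : Spec A lam e) (a x : X) : ∑ y, A x y * e a y = lam a * e a x := by
  have : ∀ y, A x y * e a y = ∑ b, lam b * e b x * (e b y * e a y) := fun y => by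
    rw [h.eq, sum_mul]
    exact sum_congr rfl fun b _ => by ring
  simp only [this]
  rw [sum_comm]
  simp only [← mul_sum, h.on]
  simp

lemma Spec.trace (h : Spec A lam e) : ∑ a, lam a = ∑ x, A x x := by
  simp only [h.eq]
  rw [sum_comm]
  simp only [← mul_sum, h.on]
  simp

lemma Spec.symm (h : Spec A lam e) (x y : X) : A x y = A y x := by
  rw [h.eq, h.eq]
  exact sum_congr rfl fun a _ => by ring

lemma Spec.frob (h : Spec A lam e) (R : X → X → ℝ) :
    ∑ a, ∑ x, (∑ y, R x y * e a y) ^ 2 = ∑ x, ∑ y, R x y ^ 2 := by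
  rw [sum_comm]
  exact sum_congr rfl fun x _ => h.pars_sq (R x)

lemma Spec.sum_sq (h : Spec A lam e) : ∑ a, lam a ^ 2 = ∑ x, ∑ y, A x y ^ 2 := by
  rw [← h.frob]
  refine sum_congr rfl fun a _ => ?_
  simp only [h.eig, mul_pow, ← mul_sum, h.norm, mul_one]

lemma Spec.psd_cut (h : Spec A lam e) (I : Finset X) : Psd (cut lam e I) :=
  psd_feat I lam (fun a _ => h.nn a) e

lemma Spec.cut_add (h : Spec A lam e) (I : Finset X) (x y : X) :
    cut lam e I x y + cut lam e Iᶜ x y = A x y := by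
  rw [h.eq, cut, cut, sum_add_sum_compl]

lemma Psd.mul (hA : Psd A) (hB : Psd B) : Psd fun x y => A x y * B x y := by
  obtain ⟨lam, e, h⟩ := hA.spec
  refine ⟨fun x y => by beta_reduce; rw [hA.1 x y, hB.1 x y], fun f => ?_⟩
  have : ∑ x, ∑ y, f x * (A x y * B x y) * f y =
      ∑ a, lam a * ∑ x, ∑ y, (f x * e a x) * B x y * (f y * e a y) := by
    simp only [h.eq, sum_mul, mul_sum]
    symm
    rw [rot3]
    exact sum_congr rfl fun x _ => sum_congr rfl fun y _ => sum_congr rfl fun a _ => by ring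
  rw [this]
  exact sum_nonneg fun a _ => mul_nonneg (h.nn a) (hB.2 _)

omit [DecidableEq X] in
lemma Psd.sum_nonneg (hA : Psd A) : 0 ≤ ∑ x, ∑ y, A x y := by
  simpa using hA.2 fun _ => 1

lemma Psd.pow (hA : Psd A) (m : ℕ) : Psd fun x y => A x y ^ m := by
  induction m with
  | zero =>
    simpa using psd_feat (X := X) (univ : Finset Unit) (fun _ => 1) (fun _ _ => zero_le_one)
      fun _ _ => 1
  | succ m ih => simpa only [pow_succ] using ih.mul hA

omit [DecidableEq X] in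
lemma Psd.conj (hA : Psd A) (d : X → ℝ) : Psd fun x y => d x * A x y * d y :=
  ⟨fun x y => by beta_reduce; rw [hA.1 x y]; ring, fun f => by
    have := hA.2 fun x => f x * d x
    refine this.trans_eq (sum_congr rfl fun x _ => sum_congr rfl fun y _ => by ring)⟩

lemma cs_step {ι : Type*} (s : Finset ι) (w r a b : ι → ℝ) (hw : ∀ i ∈ s, 0 ≤ w i)
    (ha : ∀ i ∈ s, 0 ≤ a i) (hb : ∀ i ∈ s, 0 ≤ b i) (h : ∀ i ∈ s, r i ^ 2 ≤ a i * b i) :
    (∑ i ∈ s, w i * r i) ^ 2 ≤ (∑ i ∈ s, w i * a i) * ∑ i ∈ s, w i * b i :=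
  sum_sq_le_sum_mul_sum_of_sq_le_mul s (fun i hi => mul_nonneg (hw i hi) (ha i hi))
    (fun i hi => mul_nonneg (hw i hi) (hb i hi)) fun i hi => by
      have := mul_le_mul_of_nonneg_left (h i hi) (sq_nonneg (w i))
      linarith

lemma cs_w {ι : Type*} (s : Finset ι) (w u v : ι → ℝ) (hw : ∀ i ∈ s, 0 ≤ w i) :
    (∑ i ∈ s, w i * (u i * v i)) ^ 2 ≤ (∑ i ∈ s, w i * u i ^ 2) * ∑ i ∈ s, w i * v i ^ 2 :=
  cs_step s w _ _ _ hw (fun _ _ => sq_nonneg _) (fun _ _ => sq_nonneg _) fun _ _ =>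
    (mul_pow _ _ _).le

lemma cs_step' {ι : Type*} (s : Finset ι) (r a b : ι → ℝ)
    (ha : ∀ i ∈ s, 0 ≤ a i) (hb : ∀ i ∈ s, 0 ≤ b i) (h : ∀ i ∈ s, r i ^ 2 ≤ a i * b i) :
    (∑ i ∈ s, r i) ^ 2 ≤ (∑ i ∈ s, a i) * ∑ i ∈ s, b i :=
  sum_sq_le_sum_mul_sum_of_sq_le_mul s ha hb h

lemma Psd.cs (hA : Psd A) (f k : X → ℝ) :
    (∑ x, ∑ y, f x * A x y * k y) ^ 2 ≤
      (∑ x, ∑ y, f x * A x y * f y) * ∑ x, ∑ y, k x * A x y * k y := by
  obtain ⟨lam, e, h⟩ := hA.spec
  rw [← h.mul, ← h.sq, ← h.sq]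
  exact cs_w _ _ _ _ fun a _ => h.nn a

lemma cut_quad_le (h : Spec A lam e) {I : Finset X} {l : ℝ} (hl : 0 ≤ l)
    (hI : ∀ a ∈ I, lam a ≤ l) (f : X → ℝ) :
    ∑ x, ∑ y, f x * cut lam e I x y * f y ≤ l * ∑ x, f x ^ 2 := by
  simp only [cut]
  rw [← feat_mul, ← h.pars_sq, mul_sum]
  calc ∑ i ∈ I, lam i * ((∑ x, f x * e i x) * ∑ y, f y * e i y)
      ≤ ∑ i ∈ I, l * (∑ x, f x * e i x) ^ 2 := sum_le_sum fun i hi => by
        rw [← _root_.sq]
        exact mul_le_mul_of_nonneg_right (hI i hi) (sq_nonneg _)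
    _ ≤ _ := sum_le_sum_of_subset_of_nonneg (subset_univ _) fun i _ _ => by positivity

/-- Trace of a product of three kernels. -/
def tr3 (A B C : X → X → ℝ) : ℝ := ∑ x, ∑ y, ∑ z, A x y * B y z * C z x

omit [DecidableEq X] in
lemma tr3_cyc (A B C : X → X → ℝ) : tr3 A B C = tr3 B C A := by
  simp only [tr3]
  rw [rot3]
  exact sum_congr rfl fun y _ => sum_congr rfl fun z _ => sum_congr rfl fun x _ => by ring

omit [DecidableEq X] in
lemma tr3_nonneg (hA : ∀ x y, A x y = A y x) (hB : Psd B) : 0 ≤ tr3 A B A :=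
  sum_nonneg fun x _ => (hB.2 (A x)).trans_eq
    (sum_congr rfl fun y _ => sum_congr rfl fun z _ => by rw [hA z x])

omit [DecidableEq X] in
lemma tr3_le {P P' L : X → X → ℝ} (hP : Psd P) (hP' : Psd P') (hL : ∀ x y, L x y = P x y + P' x y) :
    tr3 P L P ≤ tr3 L L L := by
  have e1 : tr3 L L L = tr3 P L P + (tr3 P P P' + tr3 P P' P' + tr3 P' P P + tr3 P' P' P +
      tr3 P' P P' + tr3 P' P' P') := by
    simp only [tr3, ← sum_add_distrib, hL]
    exact sum_congr rfl fun x _ => sum_congr rfl fun y _ => sum_congr rfl fun z _ => by ring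
  have h1 := tr3_nonneg hP.1 hP'
  have h2 := tr3_nonneg hP'.1 hP
  have h3 := tr3_nonneg hP'.1 hP'
  have c1 := tr3_cyc P P P'
  have c2 := tr3_cyc P P' P
  have c3 := tr3_cyc P P' P'
  have c4 := tr3_cyc P' P' P
  linarith

end Pool.Agent.P.MP_ac2766_co.Up
end

-- part Pool.Agent.P.MP_ac2766_co.UpMain
section

/-! The main term and the low spectral parts. -/

set_option autoImplicit false

namespace Pool.Agent.P.MP_ac2766_co.Up

open Finset

variable {X : Type*} [Fintype X] [DecidableEq X]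
  {g : X → X → ℝ} {lam sg ro : X → ℝ} {e ch ka : X → X → ℝ}

/-- Entrywise moments. -/
def sm (g : X → X → ℝ) (m : ℕ) : ℝ := ∑ x, ∑ y, g x y ^ m

/-- The kernel localised at `y`. -/
def loc (g A : X → X → ℝ) (y a b : X) : ℝ := g y a * A a b * g y b

/-- Four points, the three edges at one of them doubled. -/
def TT (g : X → X → ℝ) : ℝ := ∑ y, tr3 (loc g g y) (loc g g y) (loc g g y)

/-- Four points, one edge of multiplicity four, the opposite one doubled. -/
def NN (g : X → X → ℝ) : ℝ :=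
  ∑ y, ∑ z, g y z ^ 4 * ∑ u, ∑ u', g u y * g u z * g u u' ^ 2 * (g u' y * g u' z)

/-- The main term with two of its edges cut. -/
def FF (g P Q M : X → X → ℝ) : ℝ :=
  ∑ y, ∑ a, ∑ b, g y a * Q y a * P a b * (g y b ^ 2 * M y b)

lemma Spec.tr3_eq (h : Spec g lam e) : tr3 g g g = ∑ a, lam a ^ 3 := by
  have : ∀ x, ∑ y, ∑ z, g x y * g y z * g z x = ∑ a, lam a ^ 3 * e a x ^ 2 := fun x => by
    have h1 := h.sq (g x)
    simp only [h.eig] at h1
    simp only [h.symm _ x, ← h1]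
    exact sum_congr rfl fun a _ => by ring
  simp only [tr3, this]
  rw [sum_comm]
  simp only [← mul_sum, h.norm, mul_one]

lemma main_lower (h : Spec g lam e) (hd : ∀ x, g x x = 1) {l : ℝ} (hl : 0 < l)
    (h4 : 4 * (tr3 g g g * sm g 6) ≤ l * sm g 4 ^ 2) :
    sm g 4 ^ 2 ≤ 4 * (Fintype.card X *
      FF g (cut lam e (univ.filter fun a => lam a ≤ l)) (fun x y => g x y ^ 2) g) := by
  set I := univ.filter fun a => lam a ≤ l with hI
  set u : X → X → ℝ := fun a y => ∑ z, g y z ^ 3 * e a z with hu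
  set r : X → ℝ := fun a => ∑ y, e a y * u a y with hr
  have hU : ∀ a, r a ^ 2 ≤ 1 * ∑ y, u a y ^ 2 := fun a => by
    rw [← h.norm a]
    exact sum_mul_sq_le_sq_mul_sq _ _ _
  have e4 : sm g 4 = ∑ a ∈ I, lam a * r a + ∑ a ∈ Iᶜ, lam a * r a := by
    rw [sum_add_sum_compl]
    simp only [hr, hu, mul_sum]
    rw [rot3]
    refine sum_congr rfl fun x _ => sum_congr rfl fun y _ => ?_
    rw [pow_succ, h.eq x y, mul_sum, ← h.eq x y]
    exact sum_congr rfl fun a _ => by ring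
  have eM : FF g (cut lam e I) (fun x y => g x y ^ 2) g = ∑ a ∈ I, lam a * ∑ y, u a y ^ 2 := by
    simp only [mul_sum]
    rw [sum_comm]
    refine sum_congr rfl fun y _ => ?_
    have := feat_mul I lam e (fun z => g y z ^ 3) fun z => g y z ^ 3
    simp only [← sq] at this
    rw [this]
    exact sum_congr rfl fun a _ => sum_congr rfl fun b _ => by rw [cut]; ring
  have hn : ∑ a ∈ I, lam a * 1 ≤ Fintype.card X := by
    simp only [mul_one]
    refine (sum_le_sum_of_subset_of_nonneg (subset_univ _) fun a _ _ => h.nn a).trans ?_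
    simp [h.trace, hd]
  have hM : 0 ≤ ∑ a ∈ I, lam a * ∑ y, u a y ^ 2 :=
    sum_nonneg fun a _ => mul_nonneg (h.nn a) (by positivity)
  have c1 := (cs_step I lam r (fun _ => 1) (fun a => ∑ y, u a y ^ 2) (fun a _ => h.nn a)
    (fun _ _ => zero_le_one) (fun _ _ => by positivity) fun a _ => hU a).trans
    (mul_le_mul_of_nonneg_right hn hM)
  have c2 := cs_step' Iᶜ (fun a => lam a * r a) (fun a => lam a ^ 2) (fun a => ∑ y, u a y ^ 2)
    (fun _ _ => sq_nonneg _) (fun _ _ => by positivity) fun a _ => by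
      rw [mul_pow]
      exact mul_le_mul_of_nonneg_left ((hU a).trans_eq (one_mul _)) (sq_nonneg _)
  have c3 : ∑ a ∈ Iᶜ, ∑ y, u a y ^ 2 ≤ sm g 6 := by
    refine (sum_le_sum_of_subset_of_nonneg (subset_univ _) fun a _ _ => by positivity).trans ?_
    rw [h.frob fun x y => g x y ^ 3]
    simp only [sm, ← pow_mul, le_refl]
  have c4 : l * ∑ a ∈ Iᶜ, lam a ^ 2 ≤ tr3 g g g := by
    rw [h.tr3_eq, mul_sum]
    refine (sum_le_sum fun a ha => ?_).trans
      (sum_le_sum_of_subset_of_nonneg (subset_univ _) fun a _ _ => pow_nonneg (h.nn a) 3)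
    have : l ≤ lam a := by
      simp only [hI, mem_compl, mem_filter, mem_univ, true_and, not_le] at ha
      exact ha.le
    nlinarith [sq_nonneg (lam a)]
  have p1 : 0 ≤ ∑ a ∈ Iᶜ, lam a ^ 2 := by positivity
  have p2 : 0 ≤ ∑ a ∈ Iᶜ, ∑ y, u a y ^ 2 := by positivity
  have p3 : 0 ≤ sm g 4 := sum_nonneg fun x _ => sum_nonneg fun y _ => by positivity
  rw [eM]
  set α := ∑ a ∈ I, lam a * r a
  set β := ∑ a ∈ Iᶜ, lam a * r a
  have c5 : l * β ^ 2 ≤ tr3 g g g * sm g 6 := by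
    refine (mul_le_mul_of_nonneg_left c2 hl.le).trans ?_
    rw [← mul_assoc]
    exact mul_le_mul c4 c3 p2 ((mul_nonneg hl.le p1).trans c4)
  have c6 : (2 * β) ^ 2 ≤ sm g 4 ^ 2 := le_of_mul_le_mul_left (by linarith) hl
  have c7 : 2 * β ≤ sm g 4 := (abs_le_of_sq_le_sq' c6 p3).2
  have c8 : sm g 4 ^ 2 ≤ (2 * α) ^ 2 := pow_le_pow_left₀ p3 (by linarith) 2
  linarith

lemma low_lam (h : Spec g lam e) {I : Finset X} {l : ℝ} (hl : 0 ≤ l) (hI : ∀ a ∈ I, lam a ≤ l)
    (M : X → X → ℝ) :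
    FF g (cut lam e I) (fun x y => g x y ^ 2) M ^ 2 ≤
      FF g (cut lam e I) (fun x y => g x y ^ 2) g * (l * ∑ x, ∑ y, (g x y ^ 2 * M x y) ^ 2) := by
  rw [mul_sum]
  refine cs_step' _ _ _ _ (fun y _ => ?_) (fun y _ => by positivity) fun y _ => ?_
  · exact ((h.psd_cut I).2 fun a => g y a * g y a ^ 2).trans_eq
      (sum_congr rfl fun a _ => sum_congr rfl fun b _ => by ring)
  · refine ((h.psd_cut I).cs _ _).trans (mul_le_mul (le_of_eq ?_) (cut_quad_le h hl hI _)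
      ((h.psd_cut I).2 _) ?_)
    · exact sum_congr rfl fun a _ => sum_congr rfl fun b _ => by ring
    · exact ((h.psd_cut I).2 fun a => g y a * g y a ^ 2).trans_eq
        (sum_congr rfl fun a _ => sum_congr rfl fun b _ => by ring)

lemma cut_eig (h : Spec g lam e) (I : Finset X) (a x : X) :
    ∑ y, cut lam e I x y * e a y = if a ∈ I then lam a * e a x else 0 := by
  have : ∀ y, cut lam e I x y * e a y = ∑ b ∈ I, lam b * e b x * (e b y * e a y) := fun y => by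
    rw [cut, sum_mul]
    exact sum_congr rfl fun b _ => by ring
  simp only [this]
  rw [sum_comm]
  simp only [← mul_sum, h.on]
  simp

lemma cut_frob (h : Spec g lam e) (hd : ∀ x, g x x = 1) {I : Finset X} {l : ℝ} (hl : 0 ≤ l)
    (hI : ∀ a ∈ I, lam a ≤ l) : ∑ x, ∑ y, cut lam e I x y ^ 2 ≤ l * Fintype.card X := by
  have hn : (Fintype.card X : ℝ) = ∑ a, lam a := by simp [h.trace, hd]
  rw [← h.frob, hn, mul_sum]
  refine sum_le_sum fun a _ => ?_
  simp only [cut_eig h]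
  split_ifs with ha
  · simp only [mul_pow, ← mul_sum, h.norm, mul_one]
    nlinarith [hI a ha, h.nn a]
  · simpa using mul_nonneg hl (h.nn a)

lemma rho_pt {a m A t : ℝ} (hA : 0 < A) (ht : 0 < t) :
    (a ^ 2 * m) ^ 2 ≤ A ^ 4 * m ^ 2 + t / (2 * A) * |a| ^ 7 + 1 / (2 * t) * (a ^ 2 * m ^ 4) := by
  have e2 : a ^ 2 = |a| ^ 2 := (sq_abs a).symm
  rw [e2]
  have hb := abs_nonneg a
  set b := |a|
  rcases le_total b A with h | h
  · have h1 : b ^ 4 ≤ A ^ 4 := pow_le_pow_left₀ hb h 4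
    have h2 : 0 ≤ t / (2 * A) * b ^ 7 + 1 / (2 * t) * (b ^ 2 * m ^ 4) := by positivity
    nlinarith [sq_nonneg m]
  · have h1 : t / 2 * b ^ 6 ≤ t / (2 * A) * b ^ 7 := by
      rw [div_mul_eq_mul_div, div_mul_eq_mul_div, div_le_div_iff₀ (by positivity) (by positivity)]
      have : 0 ≤ t * b ^ 6 := by positivity
      nlinarith
    have h2 : (b ^ 2 * m) ^ 2 ≤ t / 2 * b ^ 6 + 1 / (2 * t) * (b ^ 2 * m ^ 4) := by
      have : t / 2 * b ^ 6 + 1 / (2 * t) * (b ^ 2 * m ^ 4) - (b ^ 2 * m) ^ 2 =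
          (t * b ^ 3 - b * m ^ 2) ^ 2 / (2 * t) := by
        field_simp
        ring
      have h3 : 0 ≤ (t * b ^ 3 - b * m ^ 2) ^ 2 / (2 * t) := by positivity
      linarith
    have h4 : 0 ≤ A ^ 4 * m ^ 2 := by positivity
    linarith

lemma rho_le (hg : Psd g) (h : Spec g lam e) (hd : ∀ x, g x x = 1) {I : Finset X} {l A t : ℝ}
    (hl : 0 ≤ l) (hI : ∀ a ∈ I, lam a ≤ l) (hA : 0 < A) (ht : 0 < t) :
    ∑ x, ∑ y, (g x y ^ 2 * cut lam e I x y) ^ 2 ≤ A ^ 4 * (l * Fintype.card X) +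
      t / (2 * A) * (∑ x, ∑ y, |g x y| ^ 7) + 1 / (2 * t) * sm g 6 := by
  have h1 : ∑ x, ∑ y, g x y ^ 2 * cut lam e I x y ^ 4 ≤ sm g 6 := by
    have hM := h.psd_cut I
    have hM' := h.psd_cut Iᶜ
    have a1 := (((hg.pow 5).mul hM').mul (hM.pow 0)).sum_nonneg
    have a2 := (((hg.pow 4).mul hM').mul (hM.pow 1)).sum_nonneg
    have a3 := (((hg.pow 3).mul hM').mul (hM.pow 2)).sum_nonneg
    have a4 := (((hg.pow 2).mul hM').mul (hM.pow 3)).sum_nonneg
    refine le_trans (le_add_of_nonneg_right (add_nonneg (add_nonneg a1 a2) (add_nonneg a3 a4)))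
      (le_of_eq ?_)
    simp only [sm, ← sum_add_distrib]
    refine sum_congr rfl fun x _ => sum_congr rfl fun y _ => ?_
    rw [← eq_sub_iff_add_eq'.2 (h.cut_add I x y) |>.symm]
    ring
  have h2 := cut_frob h hd hl hI
  refine (sum_le_sum fun x _ => sum_le_sum fun y _ => rho_pt hA ht).trans ?_
  simp only [sum_add_distrib, ← mul_sum]
  gcongr

end Pool.Agent.P.MP_ac2766_co.Up
end

-- part Pool.Agent.P.MP_ac2766_co.UpSwap
section

/-! The swapped tensor: high and low parts. -/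

set_option autoImplicit false

namespace Pool.Agent.P.MP_ac2766_co.Up

open Finset

variable {X : Type*} [Fintype X] [DecidableEq X]
  {g P P' : X → X → ℝ} {lam sg ro : X → ℝ} {e ch ka : X → X → ℝ}

/-- Coefficients of the swapped tensor. -/
def Psi (g P e ch : X → X → ℝ) (j i y : X) : ℝ :=
  ∑ a, ∑ b, g y a * ch j a * P a b * (g y b ^ 2 * e i b)

/-- Captured mass. -/
def Cap (lam sg : X → ℝ) (e ch ka : X → X → ℝ) (J I L : Finset X) : ℝ :=
  ∑ j ∈ J, sg j * ∑ i ∈ I, lam i * ∑ l ∈ L, (∑ y, ch j y * e i y * ka l y) ^ 2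

omit [DecidableEq X] in
lemma FF_cut (J I : Finset X) : FF g P (cut sg ch J) (cut lam e I) =
    ∑ j ∈ J, sg j * ∑ i ∈ I, lam i * ∑ y, Psi g P e ch j i y * (ch j y * e i y) := by
  simp only [FF, cut, Psi, mul_sum, sum_mul]
  symm
  rw [rot3 J I univ, rot3 I univ J]
  refine sum_congr rfl fun y _ => ?_
  rw [swap22]
  refine sum_congr rfl fun a _ => sum_congr rfl fun b _ => ?_
  rw [sum_comm]
  exact sum_congr rfl fun i _ => sum_congr rfl fun j _ => by ring

lemma psi_le (h : Spec g lam e) (hq : Spec (fun x y => g x y ^ 2) sg ch) (hP : Psd P)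
    (hP' : Psd P') (hPP : ∀ x y, P x y + P' x y = g x y) {J : Finset X} (I : Finset X) {s : ℝ}
    (hs : 0 ≤ s) (hJ : ∀ j ∈ J, sg j ≤ s) :
    ∑ j ∈ J, sg j * ∑ i ∈ I, lam i * ∑ y, Psi g P e ch j i y ^ 2 ≤ s * TT g := by
  set f : X → X → X → ℝ := fun y i a => g y a * ∑ b, P a b * (g y b ^ 2 * e i b) with hf
  have e1 : ∀ j i y, Psi g P e ch j i y = ∑ a, f y i a * ch j a := fun j i y => by
    simp only [Psi, hf, mul_sum, sum_mul]
    exact sum_congr rfl fun a _ => sum_congr rfl fun b _ => by ring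
  have h1 : ∑ j ∈ J, sg j * ∑ i ∈ I, lam i * ∑ y, Psi g P e ch j i y ^ 2 ≤
      ∑ j, s * ∑ i, lam i * ∑ y, Psi g P e ch j i y ^ 2 := by
    have p : ∀ j i, 0 ≤ lam i * ∑ y, Psi g P e ch j i y ^ 2 := fun j i =>
      mul_nonneg (h.nn i) (by positivity)
    refine (sum_le_sum fun j hj => mul_le_mul (hJ j hj)
      (sum_le_sum_of_subset_of_nonneg (subset_univ _) fun i _ _ => p j i)
      (sum_nonneg fun i _ => p j i) hs).trans ?_
    exact sum_le_sum_of_subset_of_nonneg (subset_univ _) fun j _ _ =>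
      mul_nonneg hs (sum_nonneg fun i _ => p j i)
  refine h1.trans ?_
  rw [← mul_sum]
  refine mul_le_mul_of_nonneg_left ?_ hs
  have e2 : ∑ j, ∑ i, lam i * ∑ y, Psi g P e ch j i y ^ 2 =
      ∑ y, ∑ a, ∑ i, lam i * f y i a ^ 2 := by
    simp only [e1, mul_sum]
    rw [rot3]
    simp only [← mul_sum, hq.pars_sq]
    simp only [mul_sum]
    rw [rot3]
  rw [e2]
  refine sum_le_sum fun y _ => le_trans (le_of_eq ?_)
    (tr3_le (hP.conj (g y)) (hP'.conj (g y)) (L := loc g g y) fun a b => by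
      rw [loc, ← hPP a b]; ring)
  refine sum_congr rfl fun a _ => ?_
  have h2 := h.sq fun b => g y a * (P a b * g y b ^ 2)
  have e3 : ∀ i, f y i a = ∑ b, g y a * (P a b * g y b ^ 2) * e i b := fun i => by
    simp only [hf, mul_sum]
    exact sum_congr rfl fun b _ => by ring
  simp only [e3, h2, loc]
  exact sum_congr rfl fun b _ => sum_congr rfl fun c _ => by rw [hP.1 c a]; ring

lemma wt_le (h : Spec g lam e) (hq : Spec (fun x y => g x y ^ 2) sg ch) (hd : ∀ x, g x x = 1)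
    (J I : Finset X) :
    ∑ j ∈ J, sg j * ∑ i ∈ I, lam i * ∑ y, (ch j y * e i y) ^ 2 ≤ ∑ j ∈ J, sg j := by
  refine sum_le_sum fun j _ => mul_le_of_le_one_right (hq.nn j) ?_
  refine (sum_le_sum_of_subset_of_nonneg (subset_univ _) fun i _ _ =>
    mul_nonneg (h.nn i) (by positivity)).trans (le_of_eq ?_)
  simp only [mul_sum]
  rw [sum_comm, ← hq.norm j]
  refine sum_congr rfl fun y _ => ?_
  rw [← mul_one (ch j y ^ 2), ← hd y, h.eq, mul_sum]
  exact sum_congr rfl fun i _ => by ring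

omit [DecidableEq X] [Fintype X] in
lemma cs2 {J I : Finset X} (hs : ∀ j, 0 ≤ sg j) (hl : ∀ i, 0 ≤ lam i) (r a b : X → X → ℝ)
    (ha : ∀ j i, 0 ≤ a j i) (hb : ∀ j i, 0 ≤ b j i) (h : ∀ j i, r j i ^ 2 ≤ a j i * b j i) :
    (∑ j ∈ J, sg j * ∑ i ∈ I, lam i * r j i) ^ 2 ≤
      (∑ j ∈ J, sg j * ∑ i ∈ I, lam i * a j i) * ∑ j ∈ J, sg j * ∑ i ∈ I, lam i * b j i :=
  cs_step J sg _ _ _ (fun j _ => hs j) (fun j _ => sum_nonneg fun i _ => mul_nonneg (hl i) (ha j i))
    (fun j _ => sum_nonneg fun i _ => mul_nonneg (hl i) (hb j i)) fun j _ =>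
    cs_step I lam _ _ _ (fun i _ => hl i) (fun i _ => ha j i) (fun i _ => hb j i) fun i _ => h j i

lemma low_sg (h : Spec g lam e) (hq : Spec (fun x y => g x y ^ 2) sg ch) (hd : ∀ x, g x x = 1)
    (hP : Psd P) (hP' : Psd P') (hPP : ∀ x y, P x y + P' x y = g x y) {J : Finset X}
    (I : Finset X) {s : ℝ} (hs : 0 ≤ s) (hJ : ∀ j ∈ J, sg j ≤ s) (hT : 0 ≤ TT g) :
    FF g P (cut sg ch J) (cut lam e I) ^ 2 ≤ s * TT g * Fintype.card X := by
  rw [FF_cut]
  refine (cs2 hq.nn h.nn _ (fun j i => ∑ y, Psi g P e ch j i y ^ 2)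
    (fun j i => ∑ y, (ch j y * e i y) ^ 2) (fun _ _ => by positivity) (fun _ _ => by positivity)
    fun j i => sum_mul_sq_le_sq_mul_sq _ _ _).trans ?_
  refine mul_le_mul (psi_le h hq hP hP' hPP I hs hJ) ((wt_le h hq hd J I).trans ?_)
    (sum_nonneg fun j _ => mul_nonneg (hq.nn j) (sum_nonneg fun i _ =>
      mul_nonneg (h.nn i) (by positivity))) (mul_nonneg hs hT)
  refine (sum_le_sum_of_subset_of_nonneg (subset_univ _) fun j _ _ => hq.nn j).trans ?_
  simp [hq.trace, hd]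

lemma feat2 (h : Spec g lam e) (hq : Spec (fun x y => g x y ^ 2) sg ch) (f k : X → ℝ) :
    ∑ j, sg j * ∑ i, lam i * ((∑ x, f x * (ch j x * e i x)) * ∑ y, k y * (ch j y * e i y)) =
      ∑ x, ∑ y, f x * g x y ^ 3 * k y := by
  have e1 : ∀ j, ∑ i, lam i * ((∑ x, f x * (ch j x * e i x)) * ∑ y, k y * (ch j y * e i y)) =
      ∑ x, ∑ y, f x * ch j x * g x y * (k y * ch j y) := fun j => by
    rw [← h.mul]
    simp only [mul_assoc]
  simp only [e1]
  simp only [mul_sum]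
  rw [rot3]
  refine sum_congr rfl fun x _ => sum_congr rfl fun y _ => ?_
  rw [pow_succ, hq.eq x y]
  simp only [mul_sum, sum_mul]
  exact sum_congr rfl fun j _ => by ring

lemma quad4 (h : Spec g lam e) {I : Finset X} {l : ℝ} (hl : 0 ≤ l) (hI : ∀ a ∈ I, lam a ≤ l)
    (R : X → X → ℝ) :
    ∑ x, ∑ y, R x y * ∑ z, ∑ w, cut lam e I x z * R z w * cut lam e I y w ≤
      l ^ 2 * ∑ x, ∑ y, R x y ^ 2 := by
  set r : X → X → ℝ := fun a b => ∑ x, (∑ y, R x y * e b y) * e a x with hr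
  have e1 : ∀ x y, ∑ z, ∑ w, cut lam e I x z * R z w * cut lam e I y w =
      ∑ a ∈ I, ∑ b ∈ I, lam a * lam b * r a b * (e a x * e b y) := fun x y => by
    simp only [cut, hr, mul_sum, sum_mul]
    rw [swap22, sum_comm]
    exact sum_congr rfl fun a _ => sum_congr rfl fun b _ => sum_congr rfl fun z _ =>
      sum_congr rfl fun w _ => by ring
  have e2 : ∑ x, ∑ y, R x y * ∑ z, ∑ w, cut lam e I x z * R z w * cut lam e I y w =
      ∑ a ∈ I, ∑ b ∈ I, lam a * lam b * r a b ^ 2 := by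
    simp only [e1, mul_sum]
    rw [swap22]
    refine sum_congr rfl fun a _ => sum_congr rfl fun b _ => ?_
    rw [sq, ← mul_assoc]
    nth_rewrite 2 [hr]
    simp only [mul_sum, sum_mul]
    exact sum_congr rfl fun x _ => sum_congr rfl fun y _ => by ring
  have e3 : ∑ x, ∑ y, R x y ^ 2 = ∑ a, ∑ b, r a b ^ 2 := by
    rw [← h.frob, sum_comm (f := fun a b => r a b ^ 2)]
    exact sum_congr rfl fun b _ => (h.pars_sq _).symm
  rw [e2, e3, mul_sum]
  refine (sum_le_sum fun a ha => ?_).trans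
    (sum_le_sum_of_subset_of_nonneg (subset_univ I) fun a _ _ => by positivity)
  rw [mul_sum]
  refine (sum_le_sum fun b hb => ?_).trans
    (sum_le_sum_of_subset_of_nonneg (subset_univ I) fun a _ _ => by positivity)
  rw [sq l]
  exact mul_le_mul_of_nonneg_right (mul_le_mul (hI a ha) (hI b hb) (h.nn b) hl) (sq_nonneg _)

lemma alpha_le (h : Spec g lam e) (hq : Spec (fun x y => g x y ^ 2) sg ch) {I : Finset X} {l : ℝ}
    (hl : 0 ≤ l) (hI : ∀ a ∈ I, lam a ≤ l) :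
    ∑ j, sg j * ∑ i, lam i * ∑ m, sg m * ∑ a, lam a *
      (∑ x, (∑ z, cut lam e I x z * (ch m z * e i z)) * (ch j x * e a x)) ^ 2 ≤ l ^ 2 * sm g 6 := by
  set k : X → X → X → ℝ := fun m i x => ∑ z, cut lam e I x z * (ch m z * e i z) with hk
  have e1 : ∑ j, sg j * ∑ i, lam i * ∑ m, sg m * ∑ a, lam a *
      (∑ x, k m i x * (ch j x * e a x)) ^ 2 =
      ∑ m, sg m * ∑ i, lam i * ∑ j, sg j * ∑ a, lam a *
        ((∑ x, k m i x * (ch j x * e a x)) * ∑ x, k m i x * (ch j x * e a x)) := by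
    simp only [← sq]
    generalize (fun m i j a => (∑ x, k m i x * (ch j x * e a x)) ^ 2) = F
    simp only [mul_sum]
    rw [rot3 univ univ univ fun j i m => ∑ a, _, sum_comm]
    exact sum_congr rfl fun m _ => sum_congr rfl fun i _ => sum_congr rfl fun j _ =>
      sum_congr rfl fun a _ => by ring
  have e2 : ∑ m, sg m * ∑ i, lam i * ∑ x, ∑ y, k m i x * g x y ^ 3 * k m i y =
      ∑ x, ∑ y, g x y ^ 3 * ∑ m, sg m * ∑ i, lam i * (k m i x * k m i y) := by
    simp only [mul_sum]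
    rw [swap22]
    exact sum_congr rfl fun x _ => sum_congr rfl fun y _ => sum_congr rfl fun m _ =>
      sum_congr rfl fun i _ => by ring
  refine (e1.trans ?_).trans_le ((quad4 h hl hI fun x y => g x y ^ 3).trans_eq ?_)
  · simp only [feat2 h hq]
    rw [e2]
    simp only [hk, feat2 h hq]
  · simp only [sm, ← pow_mul]

lemma hi_part (h : Spec g lam e) (hq : Spec (fun x y => g x y ^ 2) sg ch)
    (hr : Spec (fun x y => g x y ^ 3) ro ka) (hP : Psd P) (hP' : Psd P')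
    (hPP : ∀ x y, P x y + P' x y = g x y) {J : Finset X} (I L : Finset X) {s : ℝ} (hs : 0 ≤ s)
    (hJ : ∀ j ∈ J, sg j ≤ s) :
    (∑ j ∈ J, sg j * ∑ i ∈ I, lam i * ∑ l ∈ L, (∑ y, Psi g P e ch j i y * ka l y) *
      ∑ y, ch j y * e i y * ka l y) ^ 2 ≤ s * TT g * Cap lam sg e ch ka J I L := by
  refine (cs2 hq.nn h.nn _ (fun j i => ∑ y, Psi g P e ch j i y ^ 2)
    (fun j i => ∑ l ∈ L, (∑ y, ch j y * e i y * ka l y) ^ 2) (fun _ _ => by positivity)
    (fun _ _ => by positivity) fun j i => (sum_mul_sq_le_sq_mul_sq _ _ _).trans ?_).trans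
    (mul_le_mul_of_nonneg_right (psi_le h hq hP hP' hPP I hs hJ) ?_)
  · refine mul_le_mul_of_nonneg_right ?_ (by positivity)
    rw [← hr.pars_sq]
    exact sum_le_sum_of_subset_of_nonneg (subset_univ _) fun _ _ _ => sq_nonneg _
  · exact sum_nonneg fun j _ => mul_nonneg (hq.nn j) (sum_nonneg fun i _ =>
      mul_nonneg (h.nn i) (by positivity))

lemma lo_part (h : Spec g lam e) (hq : Spec (fun x y => g x y ^ 2) sg ch)
    (hr : Spec (fun x y => g x y ^ 3) ro ka) (hd : ∀ x, g x x = 1) {I' : Finset X} {l : ℝ}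
    (hl : 0 ≤ l) (hI : ∀ a ∈ I', lam a ≤ l) (J I : Finset X) {L : Finset X} {τ : ℝ} (hτ : 0 ≤ τ)
    (hL : ∀ b ∈ L, ro b ≤ τ) :
    (∑ j ∈ J, sg j * ∑ i ∈ I, lam i * ∑ b ∈ L, (∑ y, Psi g (cut lam e I') e ch j i y * ka b y) *
      ∑ y, ch j y * e i y * ka b y) ^ 2 ≤ l ^ 2 * sm g 6 * (τ * ∑ j ∈ J, sg j) := by
  set α : X → X → X → X → ℝ := fun j i m a =>
    ∑ x, (∑ z, cut lam e I' x z * (ch m z * e i z)) * (ch j x * e a x) with hα
  set c : X → X → X → ℝ := fun j i b => ∑ y, ch j y * e i y * ka b y with hc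
  set v : X → X → X → ℝ := fun j i y => ∑ b ∈ L, c j i b * ka b y with hv
  have e1 : ∀ j i y, Psi g (cut lam e I') e ch j i y =
      ∑ m, sg m * ∑ a, lam a * (α j i m a * (ch m y * e a y)) := fun j i y => by
    simp only [hα, Psi, mul_sum, sum_mul]
    rw [swap22]
    refine sum_congr rfl fun x _ => sum_congr rfl fun z _ => ?_
    rw [hq.eq y z, h.eq y x]
    simp only [mul_sum, sum_mul]
    exact sum_congr rfl fun m _ => sum_congr rfl fun a _ => by ring
  have e2 : ∀ j i, ∑ b ∈ L, (∑ y, Psi g (cut lam e I') e ch j i y * ka b y) * c j i b =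
      ∑ m, sg m * ∑ a, lam a * (α j i m a * ∑ y, v j i y * (ch m y * e a y)) := fun j i => by
    simp only [e1, hv, mul_sum, sum_mul]
    rw [swap22]
    refine sum_congr rfl fun m _ => sum_congr rfl fun a _ => ?_
    rw [sum_comm]
    exact sum_congr rfl fun y _ => sum_congr rfl fun b _ => by ring
  have e3 : ∀ j i b, ∑ y, v j i y * ka b y = if b ∈ L then c j i b else 0 := fun j i b => by
    simp only [hv, sum_mul]
    rw [sum_comm]
    simp only [mul_assoc, ← mul_sum, hr.on]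
    simp
  have h4 : ∀ j i, ∑ m, sg m * ∑ a, lam a * (∑ y, v j i y * (ch m y * e a y)) ^ 2 ≤
      τ * ∑ y, (ch j y * e i y) ^ 2 := fun j i => by
    simp only [sq (∑ y, v j i y * _)]
    rw [feat2 h hq, ← hr.sq, ← hr.pars_sq, mul_sum]
    refine sum_le_sum fun b _ => ?_
    rw [e3]
    split_ifs with hb
    · exact mul_le_mul_of_nonneg_right (hL b hb) (sq_nonneg _)
    · simp only [ne_eq, OfNat.ofNat_ne_zero, not_false_eq_true, zero_pow, mul_zero]
      positivity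
  have p : ∀ j i, 0 ≤ ∑ m, sg m * ∑ a, lam a * α j i m a ^ 2 := fun j i =>
    sum_nonneg fun m _ => mul_nonneg (hq.nn m) (sum_nonneg fun a _ =>
      mul_nonneg (h.nn a) (sq_nonneg _))
  refine (cs2 hq.nn h.nn _ (fun j i => ∑ m, sg m * ∑ a, lam a * α j i m a ^ 2)
    (fun j i => τ * ∑ y, (ch j y * e i y) ^ 2) p (fun _ _ => by positivity) fun j i => ?_).trans ?_
  · rw [e2]
    exact (cs2 hq.nn h.nn _ _ _ (fun _ _ => sq_nonneg _) (fun _ _ => sq_nonneg _) fun _ _ =>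
      (mul_pow _ _ _).le).trans (mul_le_mul_of_nonneg_left (h4 j i) (p j i))
  · refine mul_le_mul (le_trans ?_ (alpha_le h hq hl hI)) ?_
      (sum_nonneg fun j _ => mul_nonneg (hq.nn j) (sum_nonneg fun i _ =>
        mul_nonneg (h.nn i) (by positivity)))
      (mul_nonneg (sq_nonneg _) (sum_nonneg fun _ _ => sum_nonneg fun _ _ => by positivity))
    · refine (sum_le_sum fun j _ => mul_le_mul_of_nonneg_left
        (sum_le_sum_of_subset_of_nonneg (subset_univ I) fun i _ _ => mul_nonneg (h.nn i) (p j i))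
        (hq.nn j)).trans ?_
      exact sum_le_sum_of_subset_of_nonneg (subset_univ J) fun j _ _ =>
        mul_nonneg (hq.nn j) (sum_nonneg fun i _ => mul_nonneg (h.nn i) (p j i))
    · refine le_trans (le_of_eq ?_) (mul_le_mul_of_nonneg_left (wt_le h hq hd J I) hτ)
      simp only [mul_sum]
      exact sum_congr rfl fun j _ => sum_congr rfl fun i _ => sum_congr rfl fun y _ => by ring

lemma FF_split (hr : Spec (fun x y => g x y ^ 3) ro ka) (J I L : Finset X) :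
    FF g P (cut sg ch J) (cut lam e I) =
      (∑ j ∈ J, sg j * ∑ i ∈ I, lam i * ∑ b ∈ L, (∑ y, Psi g P e ch j i y * ka b y) *
        ∑ y, ch j y * e i y * ka b y) +
      ∑ j ∈ J, sg j * ∑ i ∈ I, lam i * ∑ b ∈ Lᶜ, (∑ y, Psi g P e ch j i y * ka b y) *
        ∑ y, ch j y * e i y * ka b y := by
  rw [FF_cut]
  simp only [← sum_add_distrib, ← mul_add, sum_add_sum_compl, hr.pars]

end Pool.Agent.P.MP_ac2766_co.Up
end

-- part Pool.Agent.P.MP_ac2766_co.UpDual
section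

/-! Two-sided bounds for the pairing with the popular part. -/

set_option autoImplicit false

namespace Pool.Agent.P.MP_ac2766_co.Up

open Finset

variable {X : Type*} [Fintype X] [DecidableEq X]
  {g : X → X → ℝ} {lam sg ro : X → ℝ} {e ch ka : X → X → ℝ}

/-- The pairing. -/
def II (g : X → X → ℝ) (sg : X → ℝ) (ch K : X → X → ℝ) : ℝ :=
  ∑ w, ∑ u, g u w ^ 2 * ∑ j, sg j * (∑ y, K w y * g u y * ch j y) ^ 2

lemma II_lower (h : Spec g lam e) (hq : Spec (fun x y => g x y ^ 2) sg ch) (J L : Finset X)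
    {I : Finset X} {l d : ℝ} (hl : 0 ≤ l) (hI : ∀ i ∈ I, l ≤ lam i)
    (hd : ∀ w, ((univ.filter fun u => g u w ≠ 0).card : ℝ) ≤ d) (hd0 : 0 ≤ d) :
    (l * Cap lam sg e ch ka J I L) ^ 2 ≤
      d * II g sg ch (cut (fun _ => 1) ka L) * ∑ j ∈ J, sg j := by
  set K := cut (fun _ => (1 : ℝ)) ka L with hK
  set s : X → X → X → ℝ := fun j w u => ∑ y, K w y * g u y * ch j y with hs
  set t : X → X → ℝ := fun j w => ∑ u, g u w * s j w u with ht
  have h1 : ∀ j w, t j w ^ 2 ≤ d * ∑ u, g u w ^ 2 * s j w u ^ 2 := fun j w => by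
    have e1 : t j w = ∑ u ∈ univ.filter fun u => g u w ≠ 0, g u w * s j w u := by
      refine (sum_filter_of_ne fun u _ hu => ?_).symm
      exact left_ne_zero_of_mul hu
    rw [e1]
    refine sq_sum_le_card_mul_sum_sq.trans (mul_le_mul (hd w) ?_ (by positivity) hd0)
    simp only [mul_pow]
    exact sum_le_sum_of_subset_of_nonneg (subset_univ _) fun _ _ _ => by positivity
  have e2 : ∀ w y, ∑ u, g u w * g u y = ∑ a, lam a ^ 2 * (e a w * e a y) := fun w y => by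
    have := h.pars (g w) (g y)
    simp only [h.eig] at this
    simp only [h.symm _ w, h.symm _ y, ← this]
    exact sum_congr rfl fun a _ => by ring
  have e3 : ∀ j, ∑ w, t j w * ch j w =
      ∑ a, lam a ^ 2 * ∑ b ∈ L, (∑ y, ch j y * e a y * ka b y) ^ 2 := fun j => by
    have e4 : ∀ a, ∑ b ∈ L, (∑ y, ch j y * e a y * ka b y) ^ 2 =
        ∑ w, ∑ y, ch j w * e a w * K w y * (ch j y * e a y) := fun a => by
      have := feat_mul L (fun _ => 1) ka (fun y => ch j y * e a y) fun y => ch j y * e a y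
      simp only [one_mul, ← sq] at this
      simp only [this, hK, cut, one_mul]
    have e5 : ∀ w, t j w = ∑ y, K w y * ch j y * ∑ u, g u w * g u y := fun w => by
      simp only [ht, hs, mul_sum]
      rw [sum_comm]
      exact sum_congr rfl fun y _ => sum_congr rfl fun u _ => by ring
    simp only [e4, e5, e2, mul_sum, sum_mul]
    symm
    rw [rot3]
    exact sum_congr rfl fun w _ => sum_congr rfl fun y _ => sum_congr rfl fun a _ => by ring
  have h6 : l * Cap lam sg e ch ka J I L ≤ ∑ j ∈ J, sg j * ∑ w, t j w * ch j w := by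
    rw [Cap, mul_sum]
    refine sum_le_sum fun j _ => ?_
    rw [mul_left_comm, e3, mul_sum]
    refine mul_le_mul_of_nonneg_left ((sum_le_sum fun i hi => ?_).trans
      (sum_le_sum_of_subset_of_nonneg (subset_univ I) fun _ _ _ => by positivity)) (hq.nn j)
    rw [← mul_assoc, sq (lam i)]
    exact mul_le_mul_of_nonneg_right (mul_le_mul_of_nonneg_right (hI i hi) (h.nn i))
      (by positivity)
  have h7 : 0 ≤ l * Cap lam sg e ch ka J I L := mul_nonneg hl
    (sum_nonneg fun j _ => mul_nonneg (hq.nn j) (sum_nonneg fun i _ =>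
      mul_nonneg (h.nn i) (by positivity)))
  refine (pow_le_pow_left₀ h7 h6 2).trans ((cs_step J sg _ (fun j => ∑ w, t j w ^ 2) (fun _ => 1)
    (fun j _ => hq.nn j) (fun _ _ => by positivity) (fun _ _ => zero_le_one) fun j _ => ?_).trans
    ?_)
  · rw [← hq.norm j]
    exact sum_mul_sq_le_sq_mul_sq _ _ _
  · simp only [mul_one]
    refine mul_le_mul_of_nonneg_right ?_ (sum_nonneg fun j _ => hq.nn j)
    refine (sum_le_sum_of_subset_of_nonneg (subset_univ J) fun j _ _ =>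
      mul_nonneg (hq.nn j) (by positivity)).trans ?_
    refine (sum_le_sum fun j _ => mul_le_mul_of_nonneg_left (sum_le_sum fun w _ => h1 j w)
      (hq.nn j)).trans (le_of_eq ?_)
    simp only [II, mul_sum]
    rw [rot3]
    exact sum_congr rfl fun w _ => sum_congr rfl fun u _ => sum_congr rfl fun j _ => by ring

lemma II_upper (hg : Psd g) (hq : Spec (fun x y => g x y ^ 2) sg ch)
    (hr : Spec (fun x y => g x y ^ 3) ro ka) {L : Finset X} {τ : ℝ} (hτ : 0 ≤ τ)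
    (hL : ∀ b ∈ L, τ ≤ ro b) :
    (II g sg ch (cut (fun _ => 1) ka L) * τ) ^ 2 ≤ NN g * sm g 8 := by
  set K := cut (fun _ => (1 : ℝ)) ka L with hK
  have hKp : Psd K := psd_feat L _ (fun _ _ => zero_le_one) ka
  have hKK : ∀ w w', ∑ y, K w y * K w' y = K w w' := fun w w' => by
    have e1 : ∀ w b, ∑ y, K w y * ka b y = if b ∈ L then ka b w else 0 := fun w b => by
      simp only [hK, cut, one_mul, sum_mul]
      rw [sum_comm]
      simp only [mul_assoc, ← mul_sum, hr.on]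
      simp
    rw [← hr.pars]
    simp only [e1]
    simp only [hK, cut, one_mul]
    rw [← sum_add_sum_compl L, sum_eq_zero (s := Lᶜ) fun b hb => by simp [mem_compl.1 hb],
      add_zero]
    exact sum_congr rfl fun b hb => by simp [hb]
  have hD : Psd fun x y => g x y ^ 3 - τ * K x y := by
    have := psd_feat univ (fun b => ro b - if b ∈ L then τ else 0)
      (fun b _ => by
        split_ifs with hb
        · exact sub_nonneg.2 (hL b hb)
        · simpa using hr.nn b) ka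
    convert this using 3 with x y
    simp only [sub_mul, sum_sub_distrib, ← hr.eq x y, hK, cut, one_mul, mul_sum, ite_mul, zero_mul,
      sum_ite_mem, univ_inter]
  have hW : τ ^ 2 * ∑ w, ∑ w', g w w' ^ 2 * K w w' ^ 2 ≤ sm g 8 := by
    have a1 := ((hg.pow 5).mul hD).sum_nonneg
    have a2 := mul_nonneg hτ (((hg.pow 2).mul hKp).mul hD).sum_nonneg
    refine le_trans (le_add_of_nonneg_right (add_nonneg a1 a2)) (le_of_eq ?_)
    simp only [sm, mul_sum, ← sum_add_distrib]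
    exact sum_congr rfl fun x _ => sum_congr rfl fun y _ => by ring
  set A : X → X → X → ℝ := fun y z j => g y z ^ 2 * ∑ u, g u y * g u z * ch j u with hA
  set B : X → X → X → ℝ := fun y z j => ∑ w, K w y * K w z * ch j w with hB
  have e2 : II g sg ch K = ∑ y, ∑ z, ∑ j, sg j * (A y z j * B y z j) := by
    have e3 : ∀ y z, ∑ j, sg j * (A y z j * B y z j) =
        ∑ w, ∑ u, g y z ^ 2 * (g u y * g u z * g u w ^ 2 * (K w y * K w z)) := fun y z => by
      rw [sum_comm]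
      simp only [← mul_sum, ← hq.mul]
      rw [mul_sum]
      exact sum_congr rfl fun j _ => by ring
    have e4 : ∀ w u, ∑ j, sg j * (∑ y, K w y * g u y * ch j y) ^ 2 =
        ∑ y, ∑ z, K w y * g u y * g y z ^ 2 * (K w z * g u z) := fun w u => hq.sq _
    simp only [II, e3, e4, mul_sum]
    rw [swap22]
    exact sum_congr rfl fun y _ => sum_congr rfl fun z _ => sum_congr rfl fun w _ =>
      sum_congr rfl fun u _ => by ring
  have e5 : ∑ y, ∑ z, ∑ j, sg j * A y z j ^ 2 = NN g := by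
    refine sum_congr rfl fun y _ => sum_congr rfl fun z _ => ?_
    rw [← hq.sq, mul_sum]
    exact sum_congr rfl fun j _ => by ring
  have e6 : ∑ y, ∑ z, ∑ j, sg j * B y z j ^ 2 = ∑ w, ∑ w', g w w' ^ 2 * K w w' ^ 2 := by
    simp only [hB, hq.sq]
    rw [swap22]
    refine sum_congr rfl fun w _ => sum_congr rfl fun w' _ => ?_
    rw [← hKK w w', sq (∑ y, _), sum_mul_sum, mul_sum]
    refine sum_congr rfl fun y _ => ?_
    rw [mul_sum]
    exact sum_congr rfl fun z _ => by ring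
  have p : ∀ (C : X → X → X → ℝ) y z, 0 ≤ ∑ j, sg j * C y z j ^ 2 := fun C y z =>
    sum_nonneg fun j _ => mul_nonneg (hq.nn j) (sq_nonneg _)
  have c := cs_step' univ _ _ _ (fun y _ => sum_nonneg fun z _ => p A y z)
    (fun y _ => sum_nonneg fun z _ => p B y z) fun y _ =>
      cs_step' univ _ _ _ (fun z _ => p A y z) (fun z _ => p B y z) fun z _ =>
        cs_w univ sg (A y z) (B y z) fun j _ => hq.nn j
  rw [← e2, e5, e6] at c
  have hN : 0 ≤ NN g := e5 ▸ sum_nonneg fun y _ => sum_nonneg fun z _ => p A y z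
  rw [mul_pow]
  nlinarith [mul_le_mul_of_nonneg_right c (sq_nonneg τ), mul_le_mul_of_nonneg_left hW hN]

end Pool.Agent.P.MP_ac2766_co.Up
end

-- part Pool.Agent.P.MP_ac2766_co.UpCore
section

/-! The numerical assembly: a kernel with all moments nearly extremal does not exist. -/

set_option autoImplicit false

namespace Pool.Agent.P.MP_ac2766_co.Up

open Finset

variable {X : Type*} [Fintype X] [DecidableEq X]
  {g : X → X → ℝ} {lam sg : X → ℝ} {e ch : X → X → ℝ}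

lemma level (hg : Psd g) (h : Spec g lam e) (hq : Spec (fun x y => g x y ^ 2) sg ch)
    (hd : ∀ x, g x x = 1) {I I' J : Finset X} {l0 l1 σ p H d S4 S6 T R : ℝ} (hl0 : 0 < l0)
    (hl1 : 0 < l1) (hσ : 0 < σ) (hp : 0 < p) (hH : 0 < H) (hd0 : 0 < d) (hS4 : 0 < S4)
    (hS6 : 0 < S6) (hT0 : 0 < T) (hR0 : 0 < R) (hI : ∀ i ∈ I, l0 ≤ lam i)
    (hI' : ∀ a ∈ I', lam a ≤ l1) (hJ : ∀ j ∈ J, σ ≤ sg j) (hJ' : ∀ j ∈ J, sg j ≤ σ / p)
    (hdeg : ∀ w, ((univ.filter fun u => g u w ≠ 0).card : ℝ) ≤ d) (h4 : sm g 4 ≤ S4)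
    (h6 : sm g 6 ≤ S6) (hT : TT g ≤ T) (hR : NN g * sm g 8 ≤ R ^ 2)
    (hF : 2 * H ≤ FF g (cut lam e I') (cut sg ch J) (cut lam e I)) :
    l0 ^ 2 * H ^ 6 * p ^ 2 ≤ d * S4 ^ 2 * S6 * l1 ^ 2 * T ^ 2 * R := by
  obtain ⟨ro, ka, hr⟩ := (hg.pow 3).spec
  set τ := H ^ 2 * σ / (l1 ^ 2 * S6 * S4) with hτ
  have hτ0 : 0 < τ := by positivity
  have eτ : τ * (l1 ^ 2 * S6 * S4) = H ^ 2 * σ := by rw [hτ]; field_simp
  set L := univ.filter fun b => τ ≤ ro b with hL
  set m := ∑ j ∈ J, sg j with hm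
  have hm0 : 0 ≤ m := sum_nonneg fun j _ => hq.nn j
  have hm1 : σ * m ≤ S4 := by
    refine le_trans ?_ h4
    have e1 : sm g 4 = ∑ j, sg j ^ 2 := by
      rw [hq.sum_sq]
      simp only [sm, ← pow_mul]
    rw [e1, hm, mul_sum]
    refine (sum_le_sum fun j hj => ?_).trans
      (sum_le_sum_of_subset_of_nonneg (subset_univ J) fun _ _ _ => sq_nonneg _)
    rw [sq]
    exact mul_le_mul_of_nonneg_right (hJ j hj) (hq.nn j)
  have hlo := lo_part h hq hr hd hl1.le hI' J I (L := Lᶜ) hτ0.le fun b hb => by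
    simp only [hL, mem_compl, mem_filter, mem_univ, true_and, not_le] at hb
    exact hb.le
  have hhi := hi_part h hq hr (h.psd_cut I') (h.psd_cut I'ᶜ) (h.cut_add I') I L
    (div_pos hσ hp).le hJ'
  have hII := II_lower (ka := ka) h hq J L hl0.le hI hdeg hd0.le
  have hIU := II_upper hg hq hr (L := L) hτ0.le fun b hb => by
    simpa only [hL, mem_filter, mem_univ, true_and] using hb
  rw [FF_split hr J I L] at hF
  have hC : 0 ≤ Cap lam sg e ch ka J I L :=
    sum_nonneg fun j _ => mul_nonneg (hq.nn j) (sum_nonneg fun i _ =>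
      mul_nonneg (h.nn i) (by positivity))
  have hI0 : 0 ≤ II g sg ch (cut (fun _ => 1) ka L) :=
    sum_nonneg fun w _ => sum_nonneg fun u _ => mul_nonneg (sq_nonneg _)
      (sum_nonneg fun j _ => mul_nonneg (hq.nn j) (sq_nonneg _))
  rw [← hm] at hlo hII
  generalize Cap lam sg e ch ka J I L = C at *
  generalize II g sg ch (cut (fun _ => 1) ka L) = Y at *
  generalize (∑ j ∈ J, sg j * ∑ i ∈ I, lam i * ∑ b ∈ L, _) = hi at *
  generalize (∑ j ∈ J, sg j * ∑ i ∈ I, lam i * ∑ b ∈ Lᶜ, _) = lo at *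
  have a1 : lo ^ 2 ≤ H ^ 2 := by
    refine hlo.trans (le_of_mul_le_mul_right ?_ hσ)
    rw [← eτ]
    calc l1 ^ 2 * sm g 6 * (τ * m) * σ = τ * (l1 ^ 2 * sm g 6 * (σ * m)) := by ring
      _ ≤ _ := by gcongr
  have a2 : H ≤ hi := by linarith [(abs_le_of_sq_le_sq' a1 hH.le).2]
  have a3 : p * H ^ 2 ≤ σ * T * C := by
    have b1 : H ^ 2 ≤ σ / p * T * C :=
      (pow_le_pow_left₀ hH.le a2 2).trans (hhi.trans (by gcongr))
    calc p * H ^ 2 ≤ p * (σ / p * T * C) := by gcongr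
      _ = _ := by field_simp
  have a4 : Y * τ ≤ R := (abs_le_of_sq_le_sq' (hIU.trans hR) hR0.le).2
  calc l0 ^ 2 * H ^ 6 * p ^ 2 = l0 ^ 2 * (p * H ^ 2) ^ 2 * H ^ 2 := by ring
    _ ≤ l0 ^ 2 * (σ * T * C) ^ 2 * H ^ 2 := by gcongr
    _ = σ * T ^ 2 * (l0 * C) ^ 2 * (H ^ 2 * σ) := by ring
    _ ≤ σ * T ^ 2 * (d * Y * m) * (H ^ 2 * σ) := by gcongr
    _ = d * (σ * m) * S4 * S6 * l1 ^ 2 * T ^ 2 * (Y * τ) := by rw [← eτ]; ring
    _ ≤ d * S4 * S4 * S6 * l1 ^ 2 * T ^ 2 * R := by gcongr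
    _ = _ := by ring

lemma FF_add (h : Spec g lam e) (P Q : X → X → ℝ) (I : Finset X) :
    FF g P Q (cut lam e I) + FF g P Q (cut lam e Iᶜ) = FF g P Q g := by
  simp only [FF, ← sum_add_distrib, ← mul_add, h.cut_add]

lemma pick (hq : Spec (fun x y => g x y ^ 2) sg ch) (hd : ∀ x, g x x = 1)
    (P : X → X → ℝ) (I : Finset X) {p H : ℝ} (hp : 0 < p) (hp1 : p ≤ 1) {N : ℕ} (hN : 0 < N)
    (hF : N * H + FF g P (cut sg ch (univ.filter fun j => sg j ≤ Fintype.card X * p ^ N))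
      (cut lam e I) ≤ FF g P (fun x y => g x y ^ 2) (cut lam e I)) :
    ∃ (r : ℕ) (J : Finset X), (∀ j ∈ J, Fintype.card X * p ^ (r + 1) ≤ sg j) ∧
      (∀ j ∈ J, sg j ≤ Fintype.card X * p ^ (r + 1) / p) ∧
      H ≤ FF g P (cut sg ch J) (cut lam e I) := by
  set T : ℕ → Finset X := fun r => univ.filter fun j => sg j ≤ Fintype.card X * p ^ r with hT
  have h0 : T 0 = univ := by
    refine filter_true_of_mem fun j _ => ?_
    refine (single_le_sum (fun j _ => hq.nn j) (mem_univ j)).trans ?_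
    simp [hq.trace, hd]
  have h1 : (fun x y => g x y ^ 2) = cut sg ch (T 0) := by
    funext x y
    rw [h0, hq.eq x y, cut]
  have h2 : ∀ r, T (r + 1) ⊆ T r := fun r j hj => by
    simp only [hT, mem_filter, mem_univ, true_and] at hj ⊢
    refine hj.trans (mul_le_mul_of_nonneg_left ?_ (Nat.cast_nonneg _))
    exact pow_le_pow_of_le_one hp.le hp1 (Nat.le_succ r)
  have h3 : ∑ r ∈ range N, FF g P (cut sg ch (T r \ T (r + 1))) (cut lam e I) =
      FF g P (cut sg ch (T 0)) (cut lam e I) - FF g P (cut sg ch (T N)) (cut lam e I) := by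
    rw [← sum_range_sub' fun r => FF g P (cut sg ch (T r)) (cut lam e I)]
    refine sum_congr rfl fun r _ => ?_
    simp only [FF_cut]
    exact sum_sdiff_eq_sub (h2 r)
  have h4 : ∑ _r ∈ range N, H ≤
      ∑ r ∈ range N, FF g P (cut sg ch (T r \ T (r + 1))) (cut lam e I) := by
    rw [h3, ← h1, sum_const, card_range, nsmul_eq_mul]
    linarith
  obtain ⟨r, -, hr⟩ := exists_le_of_sum_le (nonempty_range_iff.2 hN.ne') h4
  refine ⟨r, T r \ T (r + 1), fun j hj => ?_, fun j hj => ?_, hr⟩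
  · simp only [hT, mem_sdiff, mem_filter, mem_univ, true_and, not_le] at hj
    exact hj.2.le
  · simp only [hT, mem_sdiff, mem_filter, mem_univ, true_and, not_le] at hj
    refine hj.1.trans (le_of_eq ?_)
    rw [pow_succ, ← mul_assoc, mul_div_cancel_right₀ _ hp.ne']

theorem core (hg : Psd g) (hd : ∀ x, g x x = 1) {n p q D : ℝ} (hn : n = Fintype.card X)
    (hn0 : 0 < n) (hp : 0 < p) (hp1 : p ≤ 1) (hpq : q = p ^ 8) (hD : 64 ≤ D)
    (hdeg : ∀ w, ((univ.filter fun u => g u w ≠ 0).card : ℝ) ≤ n * q)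
    (h4l : n ^ 2 * q ^ 5 ≤ D * sm g 4) (h4 : sm g 4 ≤ n ^ 2 * q ^ 5)
    (h6 : sm g 6 ≤ n ^ 2 * q ^ 7) (h7 : ∑ x, ∑ y, |g x y| ^ 7 ≤ n ^ 2 * q ^ 8)
    (h8 : sm g 8 ≤ n ^ 2 * q ^ 9) (h3 : tr3 g g g ≤ D * n ^ 3 * q ^ 6)
    (hT : TT g ≤ D * n ^ 4 * q ^ 15) (hN : NN g ≤ D * n ^ 4 * q ^ 16) :
    1 ≤ D ^ 185 * p ^ 2 := by
  by_contra hcon
  rw [not_le] at hcon
  have hq0 : 0 < q := by rw [hpq]; positivity
  have hD0 : 0 < D := by linarith
  have hD1 : 1 ≤ D := by linarith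
  obtain ⟨lam, e, h⟩ := hg.spec
  obtain ⟨sg, ch, hq⟩ := (hg.pow 2).spec
  have p6 : 0 ≤ sm g 6 := sum_nonneg fun x _ => sum_nonneg fun y _ => by positivity
  have p8 : 0 ≤ sm g 8 := sum_nonneg fun x _ => sum_nonneg fun y _ => by positivity
  have hT0 : 0 ≤ TT g := sum_nonneg fun y _ => tr3_nonneg (hg.conj (g y)).1 (hg.conj (g y))
  have s4 : (n ^ 2 * q ^ 5) ^ 2 ≤ (D * sm g 4) ^ 2 := by gcongr
  obtain ⟨l1, hl1⟩ : ∃ l1, l1 = D ^ 4 * n * q ^ 3 := ⟨_, rfl⟩
  obtain ⟨l0, hl0⟩ : ∃ l0, l0 = n * q ^ 3 / D ^ 72 := ⟨_, rfl⟩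
  obtain ⟨H, hH⟩ : ∃ H, H = n ^ 3 * q ^ 10 / D ^ 5 := ⟨_, rfl⟩
  have l1p : 0 < l1 := by rw [hl1]; positivity
  have l0p : 0 < l0 := by rw [hl0]; positivity
  have Hp : 0 < H := by rw [hH]; positivity
  have eH : H * D ^ 5 = n ^ 3 * q ^ 10 := by rw [hH]; field_simp
  have hM := main_lower h hd l1p (by
    calc 4 * (tr3 g g g * sm g 6) ≤ D * (D * n ^ 3 * q ^ 6 * (n ^ 2 * q ^ 7)) := by
          refine mul_le_mul (by linarith) (mul_le_mul h3 h6 p6 (by positivity))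
            (mul_nonneg (tr3_nonneg hg.1 hg) p6) hD0.le
      _ = D ^ 2 * n * q ^ 3 * (n ^ 2 * q ^ 5) ^ 2 := by ring
      _ ≤ D ^ 2 * n * q ^ 3 * (D * sm g 4) ^ 2 := by gcongr
      _ = _ := by rw [hl1]; ring)
  rw [← hn] at hM
  set I' := univ.filter fun a => lam a ≤ l1 with hI'
  have hI1 : ∀ a ∈ I', lam a ≤ l1 := fun a ha => (mem_filter.1 ha).2
  set I := univ.filter fun a => l0 ≤ lam a with hI
  have hI0 : ∀ a ∈ I, l0 ≤ lam a := fun a ha => (mem_filter.1 ha).2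
  have hI0' : ∀ a ∈ Iᶜ, lam a ≤ l0 := fun a ha => by
    simp only [hI, mem_compl, mem_filter, mem_univ, true_and, not_le] at ha
    exact ha.le
  have hlow := low_lam h l1p.le hI1 (cut lam e Iᶜ)
  have hρ := rho_le hg h hd l0p.le hI0' (A := q * D ^ 16) (t := D ^ 8) (by positivity)
    (by positivity)
  have hadd := FF_add h (cut lam e I') (fun x y => g x y ^ 2) I
  have hsg := low_sg h hq hd (h.psd_cut I') (h.psd_cut I'ᶜ) (h.cut_add I')
    (J := univ.filter fun j => sg j ≤ Fintype.card X * p ^ 48) I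
    (s := Fintype.card X * p ^ 48) (by positivity) (fun j hj => (mem_filter.1 hj).2) hT0
  generalize FF g (cut lam e I') (fun x y => g x y ^ 2) g = M at hM hlow hadd
  have b1 : D ^ 2 * H ≤ M := by
    refine le_of_mul_le_mul_left ?_ (show 0 < D ^ 3 * n by positivity)
    have : 0 ≤ n * M := by nlinarith [sq_nonneg (sm g 4)]
    calc D ^ 3 * n * (D ^ 2 * H) = n * (H * D ^ 5) := by ring
      _ = (n ^ 2 * q ^ 5) ^ 2 := by rw [eH]; ring
      _ ≤ D ^ 2 * sm g 4 ^ 2 := by rw [← mul_pow]; exact s4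
      _ ≤ D ^ 2 * (4 * (n * M)) := by gcongr
      _ ≤ D ^ 2 * (D * (n * M)) := by gcongr; linarith
      _ = _ := by ring
  have Mp : 0 < M := lt_of_lt_of_le (by positivity) b1
  have b2 : ∑ x, ∑ y, (g x y ^ 2 * cut lam e Iᶜ x y) ^ 2 ≤ 2 * (n ^ 2 * q ^ 7) / D ^ 8 := by
    refine hρ.trans ?_
    rw [← hn]
    calc _ ≤ (q * D ^ 16) ^ 4 * (l0 * n) + D ^ 8 / (2 * (q * D ^ 16)) * (n ^ 2 * q ^ 8) +
          1 / (2 * D ^ 8) * (n ^ 2 * q ^ 7) := by gcongr
      _ = _ := by rw [hl0]; field_simp; ring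
  have b3 : FF g (cut lam e I') (fun x y => g x y ^ 2) (cut lam e Iᶜ) ≤ M / 4 := by
    refine (abs_le_of_sq_le_sq' (hlow.trans ?_) (by positivity)).2
    calc _ ≤ M * (l1 * (2 * (n ^ 2 * q ^ 7) / D ^ 8)) := by gcongr
      _ = M * (2 * (D * H)) := by rw [hl1, hH]; field_simp
      _ ≤ M * (M / 16) := by
          gcongr
          nlinarith [mul_pos hD0 Hp]
      _ = _ := by ring
  have b4 : FF g (cut lam e I') (cut sg ch (univ.filter fun j => sg j ≤ Fintype.card X * p ^ 48))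
      (cut lam e I) ≤ H := by
    refine (abs_le_of_sq_le_sq' (hsg.trans ?_) Hp.le).2
    rw [← hn]
    have c1 : D ^ 11 * q ≤ 1 := by
      refine le_trans ?_ hcon.le
      rw [hpq]
      exact mul_le_mul (pow_le_pow_right₀ hD1 (by norm_num))
        (pow_le_pow_of_le_one hp.le hp1 (by norm_num)) (by positivity) (by positivity)
    calc n * p ^ 48 * TT g * n ≤ n * p ^ 48 * (D * n ^ 4 * q ^ 15) * n := by gcongr
      _ = H ^ 2 * (D ^ 11 * q) := by rw [hH, hpq]; field_simp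
      _ ≤ H ^ 2 := mul_le_of_le_one_right (sq_nonneg _) c1
  obtain ⟨r, J, hJ, hJ', hF⟩ := pick hq hd (cut lam e I') I hp hp1 (N := 48) (H := 2 * H)
    (by norm_num) (by
      have : 4096 * H ≤ D ^ 2 * H := by gcongr; nlinarith
      push_cast
      linarith)
  have hlev := level hg h hq hd l0p l1p (by rw [← hn]; positivity) hp Hp
    (show 0 < n * q by positivity) (show 0 < n ^ 2 * q ^ 5 by positivity)
    (show 0 < n ^ 2 * q ^ 7 by positivity) (show 0 < D * n ^ 4 * q ^ 15 by positivity)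
    (show 0 < D * n ^ 3 * q ^ 12 * p ^ 4 by positivity) hI0 hI1 hJ hJ' hdeg h4 h6 hT (by
      calc NN g * sm g 8 ≤ D * n ^ 4 * q ^ 16 * (n ^ 2 * q ^ 9) :=
            mul_le_mul hN h8 p8 (by positivity)
        _ = 1 * (D * n ^ 6 * q ^ 24 * q) := by ring
        _ ≤ D * (D * n ^ 6 * q ^ 24 * q) := by gcongr
        _ = _ := by
          nth_rewrite 2 [hpq]
          ring) hF
  refine hcon.not_ge (le_of_mul_le_mul_left ?_
    (show 0 < n ^ 20 * q ^ 66 * p ^ 2 / D ^ 174 by positivity))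
  refine le_trans (le_of_eq ?_) (hlev.trans (le_of_eq ?_))
  · rw [hl0, hH]
    field_simp
  · rw [hl1]
    field_simp

end Pool.Agent.P.MP_ac2766_co.Up
end

-- part Pool.Agent.P.MP_ac2766_co.UpLink
section

/-! From moment bounds in links to the hypotheses of the core inequality. -/

set_option autoImplicit false

namespace Pool.Agent.P.MP_ac2766_co.Up

open Finset

variable {X : Type*} [DecidableEq X] {g : X → X → ℝ} {q a b : ℝ} {M : ℕ} {S S' : Finset X}

/-- The link of `x` in `S`. -/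
noncomputable def Lk (g : X → X → ℝ) (S : Finset X) (x : X) : Finset X :=
  S.filter fun z => z ≠ x ∧ g x z ≠ 0

/-- Moment bounds on `S`. -/
def Bd (g : X → X → ℝ) (q : ℝ) (M : ℕ) (S : Finset X) (a : ℝ) : Prop :=
  ∀ u, ∀ m ≤ M, ∑ z ∈ S, |g u z| ^ m ≤ q ^ m * a

lemma Lk_sub (x : X) : Lk g S x ⊆ S := filter_subset _ _

lemma Lk_mono (h : S' ⊆ S) (x : X) : Lk g S' x ⊆ Lk g S x := filter_subset_filter _ h

omit [DecidableEq X] in
lemma Bd.mono (h : Bd g q M S a) (hS : S' ⊆ S) : Bd g q M S' a := fun u m hm =>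
  (sum_le_sum_of_subset_of_nonneg hS fun _ _ _ => by positivity).trans (h u m hm)

lemma split (f : X → ℝ) (S : Finset X) (x : X) (hf : ∀ z, 0 ≤ f z)
    (h0 : ∀ z, g x z = 0 → f z = 0) : ∑ z ∈ S, f z ≤ f x + ∑ z ∈ Lk g S x, f z := by
  have hx : x ∉ Lk g S x := by simp [Lk]
  rw [← sum_insert hx, ← sum_filter_ne_zero S]
  refine sum_le_sum_of_subset_of_nonneg (fun z hz => ?_) fun z _ _ => hf z
  rw [mem_filter] at hz
  by_cases h : z = x
  · simp [h]
  · exact mem_insert_of_mem (mem_filter.2 ⟨hz.1, h, fun h1 => hz.2 (h0 z h1)⟩)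

lemma pw3 {s t u : ℝ} (hs : 0 ≤ s) (ht : 0 ≤ t) (hu : 0 ≤ u) (i j k : ℕ) :
    s ^ i * t ^ j * u ^ k ≤ s ^ (i + j + k) + t ^ (i + j + k) + u ^ (i + j + k) := by
  have key : ∀ m, s ≤ m → t ≤ m → u ≤ m → s ^ i * t ^ j * u ^ k ≤ m ^ (i + j + k) :=
    fun m h1 h2 h3 => by
      have : 0 ≤ m := hs.trans h1
      rw [pow_add, pow_add]
      gcongr
  have p1 := pow_nonneg hs (i + j + k)
  have p2 := pow_nonneg ht (i + j + k)
  have p3 := pow_nonneg hu (i + j + k)
  rcases le_total s t with h1 | h1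
  · rcases le_total t u with h2 | h2
    · linarith [key u (h1.trans h2) h2 le_rfl]
    · linarith [key t h1 le_rfl h2]
  · rcases le_total s u with h2 | h2
    · linarith [key u h2 (h1.trans h2) le_rfl]
    · linarith [key s le_rfl h1 h2]

omit [DecidableEq X] in
lemma Bd.three (h : Bd g q M S a) (x y z : X) {i j k : ℕ} (hm : i + j + k ≤ M) :
    ∑ w ∈ S, |g x w| ^ i * |g y w| ^ j * |g z w| ^ k ≤ 3 * (q ^ (i + j + k) * a) := by
  refine (sum_le_sum fun w _ => pw3 (abs_nonneg _) (abs_nonneg _) (abs_nonneg _) i j k).trans ?_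
  rw [sum_add_distrib, sum_add_distrib]
  linarith [h x _ hm, h y _ hm, h z _ hm]

lemma one_le_pw (hq : 0 < q) (hq1 : q ≤ 1) (h : 1 ≤ q ^ M * a) {m : ℕ} (hm : m ≤ M) :
    1 ≤ q ^ m * a := by
  have : 0 < a := pos_of_mul_pos_left (b := q ^ M) (by linarith) (pow_pos hq M).le
  exact h.trans (mul_le_mul_of_nonneg_right (pow_le_pow_of_le_one hq.le hq1 hm) this.le)

variable [Fintype X]

lemma step1 (ha : ∀ x y, |g x y| ≤ 1) {x : X} (h : Bd g q M (Lk g univ x) a) {i : ℕ} (hi : i ≠ 0)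
    (hm : i ≤ M) {F : X → ℝ} (hF : ∀ z, 0 ≤ F z) {B : ℝ} (hB : 0 ≤ B)
    (h1 : ∀ z ∈ Lk g univ x, F z ≤ B) : ∑ z, |g x z| ^ i * F z ≤ F x + q ^ i * a * B := by
  refine (split (g := g) _ univ x (fun z => mul_nonneg (by positivity) (hF z)) fun z hz => by
    simp [hz, hi]).trans (add_le_add (mul_le_of_le_one_left (hF x)
      (pow_le_one₀ (abs_nonneg _) (ha _ _))) ?_)
  refine (sum_le_sum fun z hz => mul_le_mul_of_nonneg_left (h1 z hz) (by positivity)).trans ?_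
  rw [← sum_mul]
  exact mul_le_mul_of_nonneg_right (h x i hm) hB

lemma step2 (ha : ∀ x y, |g x y| ≤ 1) {x y : X} (h : Bd g q M (Lk g (Lk g univ x) y) a)
    {i j : ℕ} (hi : i ≠ 0) (hj : j ≠ 0) (hm : i + j ≤ M) {F : X → ℝ} (hF : ∀ z, 0 ≤ F z) {B : ℝ}
    (hB : 0 ≤ B) (h1 : ∀ z ∈ Lk g (Lk g univ x) y, F z ≤ B) :
    ∑ z, |g x z| ^ i * |g y z| ^ j * F z ≤ F x + F y + 3 * (q ^ (i + j) * a) * B := by
  have p : ∀ z, 0 ≤ |g x z| ^ i * |g y z| ^ j * F z := fun z => mul_nonneg (by positivity) (hF z)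
  have p1 : ∀ z, |g x z| ^ i * |g y z| ^ j * F z ≤ F z := fun z => mul_le_of_le_one_left (hF z)
    (mul_le_one₀ (pow_le_one₀ (abs_nonneg _) (ha _ _)) (by positivity)
      (pow_le_one₀ (abs_nonneg _) (ha _ _)))
  have s1 := split (g := g) _ univ x p fun z hz => by simp [hz, hi]
  have s2 := split (g := g) _ (Lk g univ x) y p fun z hz => by simp [hz, hj]
  have s3 : ∑ z ∈ Lk g (Lk g univ x) y, |g x z| ^ i * |g y z| ^ j * F z ≤
      3 * (q ^ (i + j) * a) * B := by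
    refine (sum_le_sum fun z hz => mul_le_mul_of_nonneg_left (h1 z hz) (by positivity)).trans ?_
    rw [← sum_mul]
    simpa using mul_le_mul_of_nonneg_right (h.three x y x (k := 0) hm) hB
  linarith [p1 x, p1 y]

lemma step3 (ha : ∀ x y, |g x y| ≤ 1) (hq : 0 < q) (hq1 : q ≤ 1) {x y z : X}
    (h : Bd g q M (Lk g (Lk g (Lk g univ x) y) z) a) (h1 : 1 ≤ q ^ M * a) {i j k : ℕ}
    (hi : i ≠ 0) (hj : j ≠ 0) (hk : k ≠ 0) (hm : i + j + k ≤ M) :
    ∑ w, |g x w| ^ i * |g y w| ^ j * |g z w| ^ k ≤ 6 * (q ^ (i + j + k) * a) := by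
  have p : ∀ w, 0 ≤ |g x w| ^ i * |g y w| ^ j * |g z w| ^ k := fun w => by positivity
  have p0 : ∀ x w i, |g x w| ^ i ≤ 1 := fun x w i => pow_le_one₀ (abs_nonneg _) (ha _ _)
  have p1 : ∀ w, |g x w| ^ i * |g y w| ^ j * |g z w| ^ k ≤ 1 := fun w =>
    mul_le_one₀ (mul_le_one₀ (p0 _ _ _) (by positivity) (p0 _ _ _)) (by positivity) (p0 _ _ _)
  have s1 := split (g := g) _ univ x p fun z hz => by simp [hz, hi]
  have s2 := split (g := g) _ (Lk g univ x) y p fun z hz => by simp [hz, hj]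
  have s3 := split (g := g) _ (Lk g (Lk g univ x) y) z p fun z hz => by simp [hz, hk]
  linarith [p1 x, p1 y, p1 z, h.three x y z hm, one_le_pw hq hq1 h1 hm]

lemma mid (ha : ∀ x y, |g x y| ≤ 1) (hq : 0 < q) (hq1 : q ≤ 1) {x y : X}
    (h : Bd g q M (Lk g (Lk g univ x) y) a) (h1 : 1 ≤ q ^ M * a)
    (h' : ∀ z ∈ Lk g (Lk g univ x) y, Bd g q M (Lk g (Lk g (Lk g univ x) y) z) b)
    (h1' : 1 ≤ q ^ M * b) {i j k l m : ℕ} (hi : i ≠ 0) (hj : j ≠ 0) (hk : k ≠ 0) (hl : l ≠ 0)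
    (hm : m ≠ 0) (hij : i + j ≤ M) (hklm : k + l + m ≤ M) :
    ∑ z, |g x z| ^ i * |g y z| ^ j * ∑ w, |g x w| ^ k * |g y w| ^ l * |g z w| ^ m ≤
      30 * (q ^ (i + j) * q ^ (k + l + m) * (a * b)) := by
  have b1 := one_le_pw hq hq1 h1 hklm
  have b2 := one_le_pw hq hq1 h1' hklm
  have b3 := one_le_pw hq hq1 h1' hij
  have s := step2 ha h hi hj hij (F := fun z => ∑ w, |g x w| ^ k * |g y w| ^ l * |g z w| ^ m)
    (fun z => by positivity) (B := 6 * (q ^ (k + l + m) * b)) (by linarith)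
    fun z hz => step3 ha hq hq1 (h' z hz) h1' hk hl hm hklm
  have s1 := step3 ha hq hq1 (h.mono (Lk_sub x)) h1 hk hl hm hklm
  have s2 := step3 ha hq hq1 (h.mono (Lk_sub y)) h1 hk hl hm hklm
  have := mul_le_mul_of_nonneg_left b3 (show 0 ≤ q ^ (k + l + m) * a by linarith)
  nlinarith

lemma four {a1 a2 a3 : ℝ} (ha : ∀ x y, |g x y| ≤ 1) (hq : 0 < q) (hq1 : q ≤ 1)
    (H1 : ∀ x, Bd g q M (Lk g univ x) a1)
    (H2 : ∀ x, ∀ y ∈ Lk g univ x, Bd g q M (Lk g (Lk g univ x) y) a2)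
    (H3 : ∀ x, ∀ y ∈ Lk g univ x, ∀ z ∈ Lk g (Lk g univ x) y,
      Bd g q M (Lk g (Lk g (Lk g univ x) y) z) a3)
    (h1 : 1 ≤ q ^ M * a1) (h2 : 1 ≤ q ^ M * a2) (h3 : 1 ≤ q ^ M * a3) {r i j k l m : ℕ}
    (hr : r ≠ 0) (hi : i ≠ 0) (hj : j ≠ 0) (hk : k ≠ 0) (hl : l ≠ 0) (hm : m ≠ 0) (hrM : r ≤ M)
    (hij : i + j ≤ M) (hklm : k + l + m ≤ M) :
    ∑ x, ∑ y, |g x y| ^ r *
      ∑ z, |g x z| ^ i * |g y z| ^ j * ∑ w, |g x w| ^ k * |g y w| ^ l * |g z w| ^ m ≤
      Fintype.card X * (60 * (q ^ r * q ^ (i + j) * q ^ (k + l + m) * (a1 * a2 * a3))) := by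
  rw [← nsmul_eq_mul, ← card_univ]
  refine sum_le_card_nsmul _ _ _ fun x _ => ?_
  have p1 : 0 < a1 := pos_of_mul_pos_left (b := q ^ M) (by linarith) (pow_pos hq M).le
  have p2 : 0 < a2 := pos_of_mul_pos_left (b := q ^ M) (by linarith) (pow_pos hq M).le
  have p3 : 0 < a3 := pos_of_mul_pos_left (b := q ^ M) (by linarith) (pow_pos hq M).le
  have s := step1 ha (H1 x) hr hrM (F := fun y =>
      ∑ z, |g x z| ^ i * |g y z| ^ j * ∑ w, |g x w| ^ k * |g y w| ^ l * |g z w| ^ m)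
    (fun z => by positivity) (B := 30 * (q ^ (i + j) * q ^ (k + l + m) * (a2 * a3)))
    (by positivity) fun y hy => mid ha hq hq1 (H2 x y hy) h2 (H3 x y hy) h3 hi hj hk hl hm hij hklm
  have s1 := mid ha hq hq1 ((H1 x).mono (Lk_sub x)) h1
    (fun z hz => (H2 x z (Lk_sub x hz)).mono (Lk_mono (Lk_sub x) z)) h2 hi hj hk hl hm hij hklm
  have := mul_le_mul_of_nonneg_left (one_le_pw hq hq1 h3 hrM)
    (show 0 ≤ q ^ (i + j) * q ^ (k + l + m) * (a1 * a2) by positivity)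
  nlinarith

lemma tri {a1 a2 : ℝ} (ha : ∀ x y, |g x y| ≤ 1) (hq : 0 < q) (hq1 : q ≤ 1)
    (H1 : ∀ x, Bd g q M (Lk g univ x) a1)
    (H2 : ∀ x, ∀ y ∈ Lk g univ x, Bd g q M (Lk g (Lk g univ x) y) a2)
    (h1 : 1 ≤ q ^ M * a1) (h2 : 1 ≤ q ^ M * a2) (hM : 2 ≤ M) :
    ∑ x, ∑ y, |g x y| ^ 1 * ∑ z, |g x z| ^ 1 * |g y z| ^ 1 * 1 ≤
      Fintype.card X * (10 * (q ^ 3 * (a1 * a2))) := by
  rw [← nsmul_eq_mul, ← card_univ]
  refine sum_le_card_nsmul _ _ _ fun x _ => ?_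
  have k : ∀ y a, Bd g q M (Lk g (Lk g univ x) y) a → 1 ≤ q ^ M * a →
      ∑ z, |g x z| ^ 1 * |g y z| ^ 1 * 1 ≤ 5 * (q ^ 2 * a) := fun y a h h' => by
    have := step2 ha h one_ne_zero one_ne_zero hM (F := fun _ => 1) (fun _ => zero_le_one)
      zero_le_one fun _ _ => le_rfl
    rw [show 1 + 1 = 2 from rfl] at this
    linarith [one_le_pw hq hq1 h' hM]
  have b1 := one_le_pw hq hq1 h1 hM
  have b2 := one_le_pw hq hq1 h2 hM
  have s := step1 ha (H1 x) one_ne_zero (by omega) (F := fun y =>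
      ∑ z, |g x z| ^ 1 * |g y z| ^ 1 * 1) (fun z => by positivity) (B := 5 * (q ^ 2 * a2))
    (by linarith) fun y hy => k y a2 (H2 x y hy) h2
  have s1 := k x a1 ((H1 x).mono (Lk_sub x)) h1
  have := mul_le_mul_of_nonneg_left (one_le_pw hq hq1 h2 (show 1 ≤ M by omega))
    (show 0 ≤ q ^ 2 * a1 by linarith)
  nlinarith

omit [DecidableEq X] in
lemma supp_cs {d : ℝ} (hdeg : ∀ w, ((univ.filter fun u => g u w ≠ 0).card : ℝ) ≤ d) (hd : 0 ≤ d)
    {m : ℕ} (hm : m ≠ 0) : sm g m ^ 2 ≤ Fintype.card X * d * sm g (m * 2) := by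
  rw [sm, sm, sum_comm, sum_comm (f := fun x y => g x y ^ (m * 2)), ← nsmul_eq_mul, ← card_univ,
    ← sum_const]
  refine cs_step' _ _ _ _ (fun _ _ => hd) (fun _ _ => sum_nonneg fun _ _ => by
    rw [pow_mul]; positivity) fun w _ => ?_
  rw [← sum_filter_of_ne (p := fun u => g u w ≠ 0) fun u _ hu h => hu (by rw [h, zero_pow hm])]
  refine sq_sum_le_card_mul_sum_sq.trans (mul_le_mul (hdeg w) ?_ (by positivity) hd)
  simp only [pow_mul]
  exact sum_le_sum_of_subset_of_nonneg (subset_univ _) fun _ _ _ => by positivity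

theorem core2 (hg : Psd g) (hd : ∀ x, g x x = 1) (ha : ∀ x y, |g x y| ≤ 1) {n p q δ D : ℝ}
    (hn : n = Fintype.card X) (hp : 0 < p) (hp1 : p ≤ 1) (hpq : q = p ^ 8) (hD : 64 ≤ D)
    (hδ : 0 < δ) (hDq : q ^ 8 ≤ D * δ ^ 8) (hbig : 2 ≤ n * q ^ 9) (hs : (n * δ) ^ 2 ≤ sm g 1)
    (H1 : ∀ x, Bd g q 8 (Lk g univ x) (n * q / 2))
    (H2 : ∀ x, ∀ y ∈ Lk g univ x, Bd g q 4 (Lk g (Lk g univ x) y) (n * q ^ 2))
    (H3 : ∀ x, ∀ y ∈ Lk g univ x, ∀ z ∈ Lk g (Lk g univ x) y,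
      Bd g q 4 (Lk g (Lk g (Lk g univ x) y) z) (n * q ^ 3)) :
    1 ≤ D ^ 185 * p ^ 2 := by
  have hq : 0 < q := by rw [hpq]; positivity
  have hq1 : q ≤ 1 := by rw [hpq]; exact pow_le_one₀ hp.le hp1
  have hn0 : 0 < n := (pos_iff_pos_of_mul_pos (show 0 < n * q ^ 9 by linarith)).2 (pow_pos hq 9)
  have big : ∀ m ≤ 9, 2 ≤ n * q ^ m := fun m hm =>
    hbig.trans (mul_le_mul_of_nonneg_left (pow_le_pow_of_le_one hq.le hq1 hm) hn0.le)
  have H1' : ∀ x, Bd g q 4 (Lk g univ x) (n * q) := fun x u m hm =>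
    (H1 x u m (by omega)).trans (mul_le_mul_of_nonneg_left (by nlinarith) (by positivity))
  have hdeg : ∀ w, ((univ.filter fun u => g u w ≠ 0).card : ℝ) ≤ n * q := fun w => by
    have h1 := H1 w w 0 (by omega)
    have h2 := split (g := g) (fun u => if g u w ≠ 0 then (1 : ℝ) else 0) univ w
      (fun u => by positivity) fun u hu => by simp [hg.1 u w, hu]
    have h3 : ∑ u ∈ Lk g univ w, (if g u w ≠ 0 then (1 : ℝ) else 0) ≤
        ∑ u ∈ Lk g univ w, |g w u| ^ 0 := sum_le_sum fun u _ => by split_ifs <;> simp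
    have h4 := big 1 (by omega)
    rw [natCast_card_filter]
    simp only [hd, ne_eq, one_ne_zero, not_false_eq_true, if_true] at h2
    simp only [ne_eq] at h3 ⊢
    linarith
  have hS : ∀ m, m ≠ 0 → m ≤ 8 → ∑ x, ∑ y, |g x y| ^ m ≤ n ^ 2 * q ^ (m + 1) := fun m h0 hm => by
    have : n ^ 2 * q ^ (m + 1) = (univ : Finset X).card • (n * q ^ (m + 1)) := by
      rw [nsmul_eq_mul, card_univ, ← hn]; ring
    rw [this]
    refine sum_le_card_nsmul _ _ _ fun x _ => ?_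
    have h1 := step1 ha (H1 x) h0 hm (F := fun _ => 1) (fun _ => zero_le_one) zero_le_one
      fun _ _ => le_rfl
    have h2 := big (m + 1) (by omega)
    simp only [mul_one] at h1
    rw [pow_succ] at h2 ⊢
    linarith
  have hS' : ∀ m, m ≠ 0 → m ≤ 8 → sm g m ≤ n ^ 2 * q ^ (m + 1) := fun m h0 hm =>
    (sum_le_sum fun x _ => sum_le_sum fun y _ => (le_abs_self _).trans_eq (abs_pow _ _)).trans
      (hS m h0 hm)
  have o1 : 1 ≤ q ^ 4 * (n * q) := by linarith [big 5 (by omega)]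
  have o2 : 1 ≤ q ^ 4 * (n * q ^ 2) := by linarith [big 6 (by omega)]
  have o3 : 1 ≤ q ^ 4 * (n * q ^ 3) := by linarith [big 7 (by omega)]
  refine core hg hd hn hn0 hp hp1 hpq hD hdeg ?_ (hS' 4 (by omega) (by omega))
    (hS' 6 (by omega) (by omega)) (hS 7 (by omega) (by omega)) (hS' 8 (by omega) (by omega))
    ?_ ?_ ?_
  · have c1 := supp_cs hdeg (by positivity) one_ne_zero
    have c2 := supp_cs hdeg (by positivity) two_ne_zero
    rw [← hn] at c1 c2
    norm_num only at c1 c2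
    refine le_of_mul_le_mul_left ?_ (show 0 < (n * (n * q)) ^ 3 by positivity)
    calc (n * (n * q)) ^ 3 * (n ^ 2 * q ^ 5) = n ^ 8 * q ^ 8 := by ring
      _ ≤ n ^ 8 * (D * δ ^ 8) := by gcongr
      _ = D * (((n * δ) ^ 2) ^ 2) ^ 2 := by ring
      _ ≤ D * (sm g 1 ^ 2) ^ 2 := by gcongr
      _ ≤ D * (n * (n * q) * sm g 2) ^ 2 := by gcongr
      _ = D * (n * (n * q)) ^ 2 * sm g 2 ^ 2 := by ring
      _ ≤ D * (n * (n * q)) ^ 2 * (n * (n * q) * sm g 4) := by gcongr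
      _ = _ := by ring
  · refine le_trans ?_ ((tri ha hq hq1 H1' H2 o1 o2 (by omega)).trans ?_)
    · simp only [tr3, mul_sum]
      refine sum_le_sum fun x _ => sum_le_sum fun y _ => sum_le_sum fun z _ =>
        (le_abs_self _).trans_eq ?_
      rw [hg.1 z x, abs_mul, abs_mul]
      ring
    · rw [← hn]
      nlinarith [show 0 < n ^ 3 * q ^ 6 by positivity]
  · refine le_trans ?_ ((four ha hq hq1 H1' H2 H3 o1 o2 o3 (r := 2) (i := 2) (j := 1) (k := 2)
      (l := 1) (m := 1) (by omega) (by omega) (by omega) (by omega) (by omega) (by omega)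
      (by omega) (by omega) (by omega)).trans ?_)
    · simp only [TT, tr3, loc, mul_sum]
      refine sum_le_sum fun x _ => sum_le_sum fun y _ => sum_le_sum fun z _ =>
        sum_le_sum fun w _ => (le_abs_self _).trans_eq ?_
      rw [hg.1 w y]
      simp only [abs_mul]
      ring
    · rw [← hn]
      norm_num only
      nlinarith [show 0 < n ^ 4 * q ^ 15 by positivity]
  · refine le_trans ?_ ((four ha hq hq1 H1' H2 H3 o1 o2 o3 (r := 4) (i := 1) (j := 1) (k := 1)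
      (l := 1) (m := 2) (by omega) (by omega) (by omega) (by omega) (by omega) (by omega)
      (by omega) (by omega) (by omega)).trans ?_)
    · simp only [NN, mul_sum]
      refine sum_le_sum fun x _ => sum_le_sum fun y _ => sum_le_sum fun z _ =>
        sum_le_sum fun w _ => (le_abs_self _).trans_eq ?_
      rw [hg.1 z x, hg.1 z y, hg.1 w x, hg.1 w y]
      simp only [abs_mul, abs_pow]
      ring
    · rw [← hn]
      norm_num only
      nlinarith [show 0 < n ^ 4 * q ^ 16 by positivity]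

end Pool.Agent.P.MP_ac2766_co.Up
end

-- part Pool.Agent.P.MP_ac2766_co.UpComb
section

/-! The recursion on the clique number. -/

set_option autoImplicit false

namespace Pool.Agent.P.MP_ac2766_co.Up

open Finset

section vec

variable {V : Type*} [NormedAddCommGroup V] [InnerProductSpace ℝ V] {ι : Type*} {v : ι → V}
  {W : Finset ι} {c : V} {δ : ℝ} {k : ℕ}

/-- Any `k` members of `W` contain an orthogonal pair. -/
def Free (v : ι → V) (k : ℕ) (W : Finset ι) : Prop :=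
  ∀ I ⊆ W, I.card = k → ∃ i ∈ I, ∃ j ∈ I, i ≠ j ∧ inner ℝ (v i) (v j) = 0

/-- The Gram kernel. -/
noncomputable def gr (v : ι → V) (x y : ι) : ℝ := inner ℝ (v x) (v y)

lemma Free.mono (h : Free v k W) {S : Finset ι} (hS : S ⊆ W) : Free v k S :=
  fun I hI => h I (hI.trans hS)

lemma Free.link [DecidableEq ι] (h : Free v (k + 1) W) {x : ι} (hx : x ∈ W) :
    Free v k (Lk (gr v) W x) := fun I hI hc => by
  have h1 : ∀ z ∈ I, z ∈ W ∧ z ≠ x ∧ gr v x z ≠ 0 := fun z hz => mem_filter.1 (hI hz)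
  have hxI : x ∉ I := fun hz => (h1 x hz).2.1 rfl
  obtain ⟨i, hi, j, hj, hij, h0⟩ := h (insert x I)
    (insert_subset hx fun z hz => (h1 z hz).1) (by rw [card_insert_of_notMem hxI, hc])
  rcases mem_insert.1 hi with rfl | hi'
  · exact absurd h0 (h1 j ((mem_insert.1 hj).resolve_left hij.symm)).2.2
  · rcases mem_insert.1 hj with rfl | hj'
    · exact absurd ((real_inner_comm _ _).trans h0) (h1 i hi').2.2
    · exact ⟨i, hi', j, hj', hij, h0⟩

lemma abs_inner_le {x y : V} (hx : ‖x‖ = 1) (hy : ‖y‖ = 1) : |inner ℝ x y| ≤ 1 := by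
  simpa [hx, hy] using abs_real_inner_le_norm x y

lemma gr_self (hv : ∀ i, ‖v i‖ = 1) (x : ι) : gr v x x = 1 := by
  rw [gr, real_inner_self_eq_norm_sq, hv, one_pow]

lemma gr_psd [Fintype ι] (v : ι → V) : Psd (gr v) :=
  ⟨fun x y => real_inner_comm _ _, fun f => by
    refine (real_inner_self_nonneg (x := ∑ x, f x • v x)).trans_eq ?_
    rw [sum_inner]
    refine sum_congr rfl fun x _ => ?_
    rw [inner_sum]
    refine sum_congr rfl fun y _ => ?_
    rw [real_inner_smul_left, real_inner_smul_right, gr]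
    ring⟩

lemma handle_sq (hc : ‖c‖ = 1) (hδ : 0 < δ) (h : ∀ i ∈ W, δ ≤ inner ℝ c (v i)) :
    (W.card * δ) ^ 2 ≤ ∑ x ∈ W, ∑ y ∈ W, gr v x y := by
  have h1 : W.card * δ ≤ ‖∑ x ∈ W, v x‖ := by
    have := real_inner_le_norm c (∑ x ∈ W, v x)
    rw [hc, one_mul, inner_sum] at this
    rw [← nsmul_eq_mul]
    exact (card_nsmul_le_sum _ _ _ h).trans this
  refine (pow_le_pow_left₀ (by positivity) h1 2).trans_eq ?_
  rw [← real_inner_self_eq_norm_sq, sum_inner]
  exact sum_congr rfl fun x _ => inner_sum _ _ _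

lemma ak_core [DecidableEq ι] (hv : ∀ i, ‖v i‖ = 1) (hc : ‖c‖ = 1) (hδ : 0 < δ)
    (h : ∀ i ∈ W, δ ≤ inner ℝ c (v i)) {B : ℝ} (hB : 0 ≤ B)
    (hL : ∀ x ∈ W, ∑ z ∈ Lk (gr v) W x, |gr v x z| ≤ B) : W.card * δ ^ 2 ≤ 1 + B := by
  have h1 : (W.card * δ) ^ 2 ≤ W.card * (1 + B) := by
    refine (handle_sq hc hδ h).trans ?_
    rw [← nsmul_eq_mul]
    refine sum_le_card_nsmul _ _ _ fun x hx => (sum_le_sum fun y _ => le_abs_self _).trans ?_
    refine (split (g := gr v) _ W x (fun _ => abs_nonneg _) fun z hz => by simp [hz]).trans ?_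
    rw [gr_self hv, abs_one]
    linarith [hL x hx]
  rcases Nat.eq_zero_or_pos W.card with h0 | h0
  · rw [h0]
    simp only [Nat.cast_zero, zero_mul]
    linarith
  · exact le_of_mul_le_mul_left (by linarith) (show (0 : ℝ) < W.card by exact_mod_cast h0)

end vec

/-- The counting bound with exponent `E` for systems with a handle. -/
def PP (k : ℕ) (E : ℝ) : Prop :=
  ∃ C : ℝ, 0 < C ∧ ∀ (V : Type) [NormedAddCommGroup V] [InnerProductSpace ℝ V] (ι : Type)
    (v : ι → V) (W : Finset ι) (c : V) (δ : ℝ), (∀ i, ‖v i‖ = 1) → ‖c‖ = 1 → 0 < δ → δ ≤ 1 →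
    Free v k W → (∀ i ∈ W, δ ≤ inner ℝ c (v i)) → (W.card : ℝ) ≤ C * δ ^ (-E)

variable {k : ℕ} {E : ℝ}

lemma PP.mono (h : PP k E) {E' : ℝ} (hE : E ≤ E') : PP k E' := by
  obtain ⟨C, hC, h⟩ := h
  refine ⟨C, hC, fun V _ _ ι v W c δ hv hc h0 h1 hF hh => (h V ι v W c δ hv hc h0 h1 hF hh).trans ?_⟩
  exact mul_le_mul_of_nonneg_left (Real.rpow_le_rpow_of_exponent_ge h0 h1 (by linarith)) hC.le

lemma PP.mom (h : PP k E) {M : ℕ} (hM : (M : ℝ) < E) :
    ∃ C : ℝ, 0 < C ∧ ∀ (V : Type) [NormedAddCommGroup V] [InnerProductSpace ℝ V] (ι : Type)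
      (v : ι → V) (W : Finset ι) (x : V) (η : ℝ), (∀ i, ‖v i‖ = 1) → ‖x‖ = 1 → 0 < η →
      Free v k W → ∀ m ≤ M,
      ∑ z ∈ W, |inner ℝ x (v z)| ^ m ≤ η ^ m * W.card + η ^ m * (C * η ^ (-E)) := by
  obtain ⟨C, hC, h⟩ := h
  have hρ : (2 : ℝ) ^ M * 2 ^ (-E) < 1 := by
    rw [← Real.rpow_natCast, ← Real.rpow_add two_pos]
    exact Real.rpow_lt_one_of_one_lt_of_neg one_lt_two (by linarith)
  obtain ⟨C', hC', e'⟩ : ∃ C' : ℝ, 0 < C' ∧ 2 ^ M * (2 * C) + 2 ^ M * 2 ^ (-E) * C' = C' := by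
    have h1 := sub_pos.2 hρ
    refine ⟨2 ^ M * (2 * C) / (1 - 2 ^ M * 2 ^ (-E)), by positivity, ?_⟩
    field_simp
    ring
  refine ⟨C', hC', fun V _ _ ι v W x η hv hx hη hF m hm => ?_⟩
  set t : ι → ℝ := fun z => inner ℝ x (v z) with ht
  have z0 : ∀ η : ℝ, 0 < η → 1 ≤ η →
      ∑ z ∈ W with η < |t z|, |t z| ^ M ≤ η ^ M * (C' * η ^ (-E)) := fun η h0 h1 => by
    rw [filter_false_of_mem fun z _ => not_lt.2 ((abs_inner_le hx (hv z)).trans h1), sum_empty]
    positivity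
  have key : ∀ (j : ℕ) (η : ℝ), 0 < η → 1 ≤ 2 ^ j * η →
      ∑ z ∈ W with η < |t z|, |t z| ^ M ≤ η ^ M * (C' * η ^ (-E)) := by
    intro j
    induction j with
    | zero => exact fun η h0 h1 => z0 η h0 (by simpa using h1)
    | succ j ih =>
      intro η h0 h1
      rcases le_total 1 η with h2 | h2
      · exact z0 η h0 h2
      have i1 := ih (2 * η) (by positivity) (by rw [← mul_assoc, ← pow_succ]; exact h1)
      have c1 := h V ι v (W.filter fun z => η ≤ t z) x η hv hx h0 h2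
        (hF.mono (filter_subset _ _)) fun z hz => (mem_filter.1 hz).2
      have c2 := h V ι v (W.filter fun z => η ≤ -t z) (-x) η hv (by rw [norm_neg, hx]) h0 h2
        (hF.mono (filter_subset _ _)) fun z hz => by
          rw [inner_neg_left]
          exact (mem_filter.1 hz).2
      have s1 : ∑ z ∈ W with η < |t z|, |t z| ^ M ≤
          (2 * η) ^ M * ((W.filter fun z => η ≤ t z).card + (W.filter fun z => η ≤ -t z).card) +
            ∑ z ∈ W with 2 * η < |t z|, |t z| ^ M := by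
        rw [natCast_card_filter, natCast_card_filter, sum_filter, sum_filter, ← sum_add_distrib,
          mul_sum, ← sum_add_distrib]
        refine sum_le_sum fun z _ => ?_
        have p1 : 0 ≤ (2 * η) ^ M := by positivity
        have p2 : 0 ≤ |t z| ^ M := by positivity
        have p3 : (0 : ℝ) ≤ if η ≤ t z then 1 else 0 := by positivity
        have p4 : (0 : ℝ) ≤ if η ≤ -t z then 1 else 0 := by positivity
        by_cases a1 : 2 * η < |t z|
        · rw [if_pos a1, if_pos (by linarith)]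
          nlinarith
        · rw [if_neg a1]
          by_cases a2 : η < |t z|
          · have a3 : |t z| ^ M ≤ (2 * η) ^ M := pow_le_pow_left₀ (abs_nonneg _) (not_lt.1 a1) M
            rw [if_pos a2]
            rcases lt_abs.1 a2 with a4 | a4
            · rw [if_pos a4.le]
              nlinarith
            · rw [if_pos a4.le]
              nlinarith
          · rw [if_neg a2]
            positivity
      rw [Real.mul_rpow two_pos.le h0.le] at i1
      refine s1.trans ((add_le_add (mul_le_mul_of_nonneg_left (add_le_add c1 c2)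
        (by positivity)) i1).trans_eq ?_)
      nth_rewrite 2 [← e']
      ring
  obtain ⟨j, hj⟩ := pow_unbounded_of_one_lt (1 / η) (one_lt_two (α := ℝ))
  have k1 := key j η hη ((div_le_iff₀ hη).1 hj.le)
  obtain ⟨r, rfl⟩ := Nat.exists_eq_add_of_le hm
  have k2 : ∑ z ∈ W with η < |t z|, |t z| ^ m ≤ η ^ m * (C' * η ^ (-E)) := by
    refine le_of_mul_le_mul_right ?_ (pow_pos hη r)
    rw [sum_mul]
    refine (sum_le_sum fun z hz => ?_).trans (k1.trans_eq (by ring))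
    rw [pow_add]
    exact mul_le_mul_of_nonneg_left (pow_le_pow_left₀ hη.le (mem_filter.1 hz).2.le r)
      (by positivity)
  refine le_trans ?_ (add_le_add le_rfl k2)
  rw [sum_filter, mul_comm, ← nsmul_eq_mul, ← sum_const, ← sum_add_distrib]
  refine sum_le_sum fun z _ => ?_
  split_ifs with a
  · exact le_add_of_nonneg_left (by positivity)
  · rw [add_zero]
    exact pow_le_pow_left₀ (abs_nonneg _) (not_lt.1 a) m

lemma PP_two : PP 2 2 := by
  classical
  refine ⟨1, one_pos, fun V _ _ ι v W c δ hv hc h0 _ hF hh => ?_⟩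
  have := ak_core hv hc h0 hh le_rfl fun x hx => by
    rw [eq_empty_of_forall_notMem (s := Lk (gr v) W x) fun z hz => ?_, sum_empty]
    obtain ⟨i, hi, j, hj, hij, -⟩ := hF.link hx {z} (singleton_subset_iff.2 hz) (card_singleton z)
    exact hij ((mem_singleton.1 hi).trans (mem_singleton.1 hj).symm)
  rw [Real.rpow_neg h0.le, Real.rpow_two, ← div_eq_mul_inv, le_div_iff₀ (by positivity)]
  linarith

lemma PP.step (h : PP k E) (hE : 1 < E) : PP (k + 1) (E + 1) := by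
  classical
  obtain ⟨C', hC', hm⟩ := h.mom (M := 1) (by simpa using hE)
  obtain ⟨C, hC, h⟩ := h
  refine ⟨1 + C + C', by positivity, fun V _ _ ι v W c δ hv hc h0 h1 hF hh => ?_⟩
  have p : 0 < δ ^ (-E) := Real.rpow_pos_of_pos h0 _
  have a1 := ak_core hv hc h0 hh (B := δ * (C * δ ^ (-E)) + δ * (C' * δ ^ (-E))) (by positivity)
    fun x hx => by
      have b1 := hm V ι v _ (v x) δ hv (hv x) h0 (hF.link hx) 1 le_rfl
      have b2 := h V ι v _ c δ hv hc h0 h1 (hF.link hx) fun i hi => hh i (Lk_sub x hi)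
      simp only [pow_one] at b1
      exact b1.trans (add_le_add (mul_le_mul_of_nonneg_left b2 h0.le) le_rfl)
  have a2 : 1 ≤ δ * δ ^ (-E) := by
    rw [mul_comm, ← Real.rpow_add_one h0.ne']
    exact Real.one_le_rpow_of_pos_of_le_one_of_nonpos h0 h1 (by linarith)
  have a3 : δ ^ (-(E + 1)) * δ = δ ^ (-E) := by
    rw [← Real.rpow_add_one h0.ne']
    congr 1
    ring
  refine le_of_mul_le_mul_right (a1.trans ?_) (pow_pos h0 2)
  calc _ ≤ (1 + C + C') * (δ * δ ^ (-E)) := by linarith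
    _ = _ := by rw [← a3]; ring

lemma PP_self (j : ℕ) : PP (j + 2) (j + 2) := by
  induction j with
  | zero => simpa using PP_two
  | succ j ih =>
    refine (ih.step (by linarith [Nat.cast_nonneg (α := ℝ) j])).mono (le_of_eq ?_)
    push_cast
    ring

lemma PP.bd (h : PP k E) {M : ℕ} (hM : (M : ℝ) ≤ E) {γ : ℝ} (hγ : γ < 1) :
    ∃ C : ℝ, 0 < C ∧ ∀ (V : Type) [NormedAddCommGroup V] [InnerProductSpace ℝ V] (ι : Type)
      (v : ι → V) (W : Finset ι) (c : V) (δ : ℝ), (∀ i, ‖v i‖ = 1) → ‖c‖ = 1 → 0 < δ → δ ≤ 1 →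
      Free v k W → (∀ i ∈ W, δ ≤ inner ℝ c (v i)) → ∀ a, C * δ ^ (-E) ≤ a →
      Bd (gr v) (δ ^ γ) M W a := by
  obtain ⟨C', hC', hm⟩ := (h.mono (E' := E + (1 - γ)) (by linarith)).mom (M := M) (by linarith)
  obtain ⟨C, hC, h⟩ := h
  refine ⟨C + C', by positivity, fun V _ _ ι v W c δ hv hc h0 h1 hF hh a ha u m hmM => ?_⟩
  have p : 0 < δ ^ (-E) := Real.rpow_pos_of_pos h0 _
  have pq : 0 < δ ^ γ := Real.rpow_pos_of_pos h0 _
  have b2 := h V ι v W c δ hv hc h0 h1 hF hh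
  refine le_trans ?_ (mul_le_mul_of_nonneg_left ha (by positivity))
  rcases m with - | m
  · simp only [pow_zero, sum_const, nsmul_eq_mul, mul_one, one_mul]
    nlinarith
  · have hq : δ ≤ δ ^ γ := by
      simpa using Real.rpow_le_rpow_of_exponent_ge h0 h1 hγ.le
    have e1 : δ * δ ^ (-(E + (1 - γ))) = δ ^ γ * δ ^ (-E) := by
      rw [mul_comm, ← Real.rpow_add_one h0.ne', ← Real.rpow_add h0]
      congr 1
      ring
    refine (hm V ι v W (v u) δ hv (hv u) h0 hF (m + 1) hmM).trans ?_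
    calc _ = δ ^ (m + 1) * W.card + δ ^ m * C' * (δ * δ ^ (-(E + (1 - γ)))) := by ring
      _ ≤ (δ ^ γ) ^ (m + 1) * (C * δ ^ (-E)) + (δ ^ γ) ^ m * C' * (δ ^ γ * δ ^ (-E)) := by
          rw [e1]
          gcongr
      _ = _ := by ring

lemma PP.gain {γ : ℝ} (hγ : γ = 5999 / 6000) (h1 : PP (k + 2) E) (h2 : PP (k + 1) (E - γ))
    (h3 : PP k (E - 2 * γ)) (hE : 8 ≤ E) : PP (k + 3) (E + γ) := by
  classical
  obtain ⟨C0, p0, h0⟩ := h1.step (by linarith)
  obtain ⟨C1, p1, h1⟩ := h1.bd (M := 8) (γ := γ) (by simpa using hE) (by linarith)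
  obtain ⟨C2, p2, h2⟩ := h2.bd (M := 4) (γ := γ) (by push_cast; linarith) (by linarith)
  obtain ⟨C3, p3, h3⟩ := h3.bd (M := 4) (γ := γ) (by push_cast; linarith) (by linarith)
  obtain ⟨K, pK, hK⟩ : ∃ K : ℝ, 0 < K ∧ K = 64 ^ 185 := ⟨_, by positivity, rfl⟩
  refine ⟨C0 * K ^ 8 + 2 * C1 + C2 + C3 + 2, by positivity,
    fun V _ _ ι v W c δ hv hc hδ hδ1 hF hh => ?_⟩
  by_contra hcon
  rw [not_le] at hcon
  have a0 := h0 V ι v W c δ hv hc hδ hδ1 hF hh
  obtain ⟨n, hn⟩ : ∃ n : ℝ, n = W.card := ⟨_, rfl⟩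
  obtain ⟨y, hy⟩ : ∃ y : ℝ, y = δ ^ (-(E + γ)) := ⟨_, rfl⟩
  obtain ⟨q, hq⟩ : ∃ q : ℝ, q = δ ^ γ := ⟨_, rfl⟩
  obtain ⟨t, ht⟩ : ∃ t : ℝ, t = δ ^ (1 / 48000 : ℝ) := ⟨_, rfl⟩
  rw [← hn, ← hy] at hcon
  have py : 0 < y := hy ▸ Real.rpow_pos_of_pos hδ _
  have pq : 0 < q := hq ▸ Real.rpow_pos_of_pos hδ _
  have pt : 0 < t := ht ▸ Real.rpow_pos_of_pos hδ _
  have t1 : t ≤ 1 := ht ▸ Real.rpow_le_one hδ.le hδ1 (by norm_num)
  have tp : ∀ m : ℕ, t ^ m = δ ^ (m / 48000 : ℝ) := fun m => by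
    rw [ht, ← Real.rpow_mul_natCast hδ.le]
    congr 1
    ring
  have yq : ∀ m : ℕ, y * q ^ m = δ ^ (-(E + γ) + γ * m) := fun m => by
    rw [hy, hq, ← Real.rpow_mul_natCast hδ.le, ← Real.rpow_add hδ]
  have eq : q = (t ^ 5999) ^ 8 := by
    rw [← pow_mul, tp, hq, hγ]
    norm_num
  have eδ : δ = t ^ 48000 := by
    rw [tp]
    norm_num
  have y1 : δ ^ (-E) = y * q := by
    rw [← pow_one q, yq]
    congr 1
    push_cast
    ring
  have y2 : δ ^ (-(E - γ)) = y * q ^ 2 := by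
    rw [yq]
    congr 1
    push_cast
    ring
  have y3 : δ ^ (-(E - 2 * γ)) = y * q ^ 3 := by
    rw [yq]
    congr 1
    push_cast
    ring
  have y9 : 1 ≤ y * q ^ 9 := by
    rw [yq]
    exact Real.one_le_rpow_of_pos_of_le_one_of_nonpos hδ hδ1 (by push_cast; linarith)
  have y0 : δ ^ (-(E + 1)) * t ^ 8 = y := by
    rw [tp, hy, ← Real.rpow_add hδ, hγ]
    congr 1
    push_cast
    ring
  have m0 : 0 < C0 * K ^ 8 * y := by positivity
  have m1 := mul_pos p1 py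
  have m2 := mul_pos p2 py
  have m3 := mul_pos p3 py
  set u : W → V := fun x => v x with hu
  have hu1 : ∀ i, ‖u i‖ = 1 := fun i => hv i
  have hFu : Free u (k + 3) univ := fun I _ hI => by
    obtain ⟨i, hi, j, hj, hij, h0⟩ := hF (I.map (Function.Embedding.subtype _))
      (fun z hz => by
        obtain ⟨w, -, rfl⟩ := mem_map.1 hz
        exact w.2) (by rw [card_map, hI])
    obtain ⟨i, hi', rfl⟩ := mem_map.1 hi
    obtain ⟨j, hj', rfl⟩ := mem_map.1 hj
    exact ⟨i, hi', j, hj', fun h => hij (by rw [h]), h0⟩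
  have hhu : ∀ S : Finset W, ∀ i ∈ S, δ ≤ inner ℝ c (u i) := fun _ i _ => hh i i.2
  have hcard : n = Fintype.card W := by rw [hn, Fintype.card_coe]
  have hD : (64 : ℝ) ≤ 64 / t ^ 64 := by
    rw [le_div_iff₀ (by positivity)]
    linarith [pow_le_one₀ (n := 64) pt.le t1]
  have main := core2 (gr_psd u) (gr_self hu1) (fun x y => abs_inner_le (hu1 x) (hu1 y)) hcard
    (pow_pos pt 5999) (pow_le_one₀ pt.le t1) eq hD hδ (by
      rw [eq, eδ]
      have : 64 / t ^ 64 * (t ^ 48000) ^ 8 = 64 * ((t ^ 5999) ^ 8) ^ 8 := by field_simp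
      rw [this]
      exact le_mul_of_one_le_left (by positivity) (by norm_num))
    (by nlinarith [mul_le_mul_of_nonneg_right (show 2 * y ≤ n by nlinarith) (pow_pos pq 9).le])
    (by simpa [sm, hcard] using handle_sq hc hδ (hhu univ))
    (fun x => hq ▸ h1 V W u _ c δ hu1 hc hδ hδ1 (hFu.link (mem_univ x)) (hhu _) _ (by
      rw [y1, ← hq]
      nlinarith [mul_le_mul_of_nonneg_right (show 2 * C1 * y ≤ n by nlinarith) pq.le]))
    (fun x z hz => hq ▸ h2 V W u _ c δ hu1 hc hδ hδ1 ((hFu.link (mem_univ x)).link hz) (hhu _) _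
      (by
        rw [y2, ← hq, ← mul_assoc]
        exact mul_le_mul_of_nonneg_right (by nlinarith) (by positivity)))
    (fun x z hz w hw => hq ▸ h3 V W u _ c δ hu1 hc hδ hδ1
      (((hFu.link (mem_univ x)).link hz).link hw) (hhu _) _ (by
        rw [y3, ← hq, ← mul_assoc]
        exact mul_le_mul_of_nonneg_right (by nlinarith) (by positivity)))
  have f1 : 1 ≤ K * t := by
    refine main.trans ?_
    have : (64 / t ^ 64) ^ 185 * (t ^ 5999) ^ 2 = K * t * t ^ 157 := by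
      rw [hK, div_pow]
      field_simp
    rw [this]
    exact mul_le_of_le_one_right (by positivity) (pow_le_one₀ pt.le t1)
  have f2 : n ≤ C0 * K ^ 8 * y := by
    rw [hn, ← y0]
    refine a0.trans ((le_mul_of_one_le_right (by positivity) (one_le_pow₀ (n := 8) f1)).trans_eq ?_)
    ring
  nlinarith

lemma PP_all {γ : ℝ} (hγ : γ = 5999 / 6000) (j : ℕ) : PP (j + 6) (8 + j * γ - 2 * γ) ∧
    PP (j + 6 + 1) (8 + j * γ - γ) ∧ PP (j + 6 + 2) (8 + j * γ) := by
  induction j with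
  | zero =>
    exact ⟨(PP_self 4).mono (by push_cast; linarith), (PP_self 5).mono (by push_cast; linarith),
      (PP_self 6).mono (by push_cast; linarith)⟩
  | succ j ih =>
    have := PP.gain hγ ih.2.2 ih.2.1 ih.1 (by rw [hγ]; linarith [Nat.cast_nonneg (α := ℝ) j])
    exact ⟨ih.2.1.mono (by push_cast; linarith), ih.2.2.mono (by push_cast; linarith),
      this.mono (by push_cast; linarith)⟩

theorem PP.norm_le (h : PP k E) (hE : 1 < E) : ∃ C : ℝ, ∀ (n d : ℕ)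
    (v : Fin n → EuclideanSpace ℝ (Fin d)), (∀ i, ‖v i‖ = 1) → Free v k univ →
    ‖∑ i, v i‖ ≤ C * (n : ℝ) ^ (1 - 1 / E) := by
  obtain ⟨C, hC, hm⟩ := h.mom (M := 1) (by simpa using hE)
  refine ⟨1 + C, fun n d v hv hF => ?_⟩
  by_cases h0 : ∑ i, v i = 0
  · rw [h0, norm_zero]
    positivity
  have hn : (0 : ℝ) < n := by
    rcases n with - | n
    · exact absurd (by simp) h0
    · positivity
  have hs : 0 < ‖∑ i, v i‖ := norm_pos_iff.2 h0
  have h1 := hm _ _ v univ (‖∑ i, v i‖⁻¹ • ∑ i, v i) ((n : ℝ) ^ (-(1 / E))) hv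
    (by rw [norm_smul, norm_inv, norm_norm, inv_mul_cancel₀ hs.ne'])
    (Real.rpow_pos_of_pos hn _) hF 1 le_rfl
  have e1 : ((n : ℝ) ^ (-(1 / E))) ^ (-E) = n := by
    rw [← Real.rpow_mul hn.le, neg_mul_neg, one_div_mul_cancel (by linarith), Real.rpow_one]
  have e2 : (n : ℝ) ^ (1 - 1 / E) = n ^ (-(1 / E)) * n := by
    rw [← Real.rpow_add_one hn.ne']
    congr 1
    ring
  have e3 : ‖∑ i, v i‖ = ∑ z, inner ℝ (‖∑ i, v i‖⁻¹ • ∑ i, v i) (v z) := by
    rw [← inner_sum, real_inner_smul_left, real_inner_self_eq_norm_sq]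
    field_simp
  simp only [pow_one, e1, card_univ, Fintype.card_fin] at h1
  rw [e2]
  refine (e3.trans_le ((sum_le_sum fun z _ => le_abs_self _).trans h1)).trans_eq ?_
  ring

end Pool.Agent.P.MP_ac2766_co.Up
end
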